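import Pool.Agent.N276.BE.Stm

/-!
# Project BE (helper276), part ChainLow by helper592: the chain is not bounded in mean if `δ ≤ 2`
-/

set_option autoImplicit false

open MeasureTheory ProbabilityTheory Filter Topology Set
open scoped ENNReal

namespace Pool.Agent.N276.BE

open Pool.Agent.N276.ER

namespace ChainLowAux

theorem W_local (k : ℕ) (s s' : ℕ → ℕ → Bool) (h : ∀ j < k, s j = s' j) : W s k = W s' k := by
  induction k with
  | zero => rfl
  | succ k ih =>
    show U (W s k + 1) (s k) = U (W s' k + 1) (s' k)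
    rw [ih (fun j hj => h j (by omega)), h k (by omega)]

theorem int_bdd {Ω : Type} [MeasurableSpace Ω] (μ : Measure Ω) [IsProbabilityMeasure μ]
    (X : Ω → ℕ) (hX : Measurable X) (φ : ℕ → ℝ) (B : ℝ) (h : ∀ x, |φ x| ≤ B) :
    Integrable (fun s => φ (X s)) μ := by
  refine Integrable.of_bound (Measurable.aestronglyMeasurable ?_) B ?_
  · exact (Measurable.of_discrete (f := φ)).comp hX
  · exact Eventually.of_forall fun s => by
      rw [Real.norm_eq_abs]
      exact h _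

theorem dy1 (K₀ J : ℕ) : ∑ j ∈ Finset.range J, 2 ^ j * K₀ ≤ 2 ^ J * K₀ := by
  induction J with
  | zero => simp
  | succ J ih =>
    rw [Finset.sum_range_succ, pow_succ]
    linarith

theorem dy2 (K₀ x J : ℕ) :
    ∑ j ∈ Finset.range J, (if 2 ^ j * K₀ < x then 2 ^ j * K₀ else 0) ≤ 2 ^ J * K₀ :=
  (Finset.sum_le_sum fun j _ => by split_ifs <;> simp).trans (dy1 K₀ J)

theorem dy3 (K₀ x J : ℕ) :
    ∑ j ∈ Finset.range J, (if 2 ^ j * K₀ < x then 2 ^ j * K₀ else 0) ≤ 2 * x := by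
  induction J with
  | zero => simp
  | succ J ih =>
    by_cases h : 2 ^ J * K₀ < x
    · refine (dy2 K₀ x (J + 1)).trans ?_
      rw [pow_succ]
      linarith
    · rw [Finset.sum_range_succ, if_neg h, add_zero]
      exact ih

/-- the Markov property for bounded functions -/
theorem mk (hUm : ∀ x, Measurable (U x)) (hWm : ∀ k, Measurable fun s : ℕ → ℕ → Bool => W s k)
    (hMk : StmMarkov) (lam : Measure (ℕ → ℝ)) (hLL : IsProbabilityMeasure (LL lam))
    (φ : ℕ → ℝ) (B : ℝ) (hφ : ∀ x, 0 ≤ φ x ∧ φ x ≤ B) (k : ℕ) :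
    ∫ s, φ (W s (k + 1)) ∂(RL lam) =
      ∫ s, (∫ u, φ (U (W s k + 1) u) ∂(LL lam)) ∂(RL lam) := by
  have hφm : Measurable φ := Measurable.of_discrete
  have hb : ∀ x, |φ x| ≤ B := fun x => by
    rw [abs_of_nonneg (hφ x).1]
    exact (hφ x).2
  have h1 := hMk (LL lam) hLL k (fun s => W s k) (fun n u => ENNReal.ofReal (φ (U (n + 1) u)))
    (hWm k) (fun s s' h => W_local k s s' h)
    (fun n => ENNReal.measurable_ofReal.comp (hφm.comp (hUm (n + 1))))
  have h2 : ∀ n, ∫⁻ u, ENNReal.ofReal (φ (U (n + 1) u)) ∂(LL lam) =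
      ENNReal.ofReal (∫ u, φ (U (n + 1) u) ∂(LL lam)) := by
    intro n
    rw [ofReal_integral_eq_lintegral_ofReal (int_bdd _ _ (hUm (n + 1)) φ B hb)
      (Eventually.of_forall fun u => (hφ _).1)]
  rw [integral_eq_lintegral_of_nonneg_ae (Eventually.of_forall fun s => (hφ _).1)
    ((hφm.comp (hWm (k + 1))).aestronglyMeasurable),
    integral_eq_lintegral_of_nonneg_ae (Eventually.of_forall fun s =>
      integral_nonneg fun u => (hφ _).1)
    (((Measurable.of_discrete (f := fun n => ∫ u, φ (U (n + 1) u) ∂(LL lam))).comp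
      (hWm k)).aestronglyMeasurable)]
  congr 1
  simp only [h2] at h1
  exact h1

end ChainLowAux

open ChainLowAux

theorem chainLow (hMeas : StmMeas) (hMix : StmMix) (hMk : StmMarkov) (hT : StmTest)
    (hS : StmSpread) : StmChainLow := by
  intro lam hlam hpos hlt hδ C₀ hlim
  obtain ⟨-, -, -, hUm, -, -, hWm, -, -⟩ := hMeas
  obtain ⟨-, -, hLL, -⟩ := hMix lam hlam hpos
  obtain ⟨C, hC, w₀, K₀, hw₀, hK₀, hK⟩ := hT lam hlam hpos hδ
  obtain ⟨p, hp, hpw⟩ := hS lam hlam hpos hlt w₀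
  have hp1 : p ≤ 1 := (hpw 0).trans prob_le_one
  have hpt : p ≠ ⊤ := ne_top_of_le_ne_top ENNReal.one_ne_top hp1
  have hq : 0 < p.toReal := ENNReal.toReal_pos hp.ne' hpt
  set q := p.toReal with hqdef
  -- probability of large values
  have hlow : ∀ k, q ≤ ∫ s, (if w₀ ≤ W s (k + 1) then (1 : ℝ) else 0) ∂(RL lam) := by
    intro k
    have h1 := mk hUm hWm hMk lam hLL (fun x => if w₀ ≤ x then (1 : ℝ) else 0) 1
      (fun x => by (try dsimp only); split_ifs <;> norm_num) k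
    rw [h1]
    have h2 : ∀ w, q ≤ ∫ u, (if w₀ ≤ U (w + 1) u then (1 : ℝ) else 0) ∂(LL lam) := by
      intro w
      have h3 : ∫ u, (if w₀ ≤ U (w + 1) u then (1 : ℝ) else 0) ∂(LL lam) =
          (LL lam).real {u | w₀ ≤ U (w + 1) u} := by
        have hm : MeasurableSet {u | w₀ ≤ U (w + 1) u} :=
          (hUm (w + 1)) (MeasurableSet.of_discrete (s := {x | w₀ ≤ x}))
        rw [← integral_indicator_one hm]
        refine integral_congr_ae (Eventually.of_forall fun u => ?_)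
        simp [Set.indicator]
      rw [h3]
      exact ENNReal.toReal_mono (measure_ne_top _ _) (hpw w)
    have h4 : ∫ s : ℕ → ℕ → Bool, q ∂(RL lam) = q := by simp
    rw [← h4]
    refine integral_mono (integrable_const _) ?_ (fun s => h2 (W s k))
    refine int_bdd (RL lam) (fun s => W s k) (hWm k)
      (fun n => ∫ u, (if w₀ ≤ U (n + 1) u then (1 : ℝ) else 0) ∂(LL lam)) 1 ?_
    intro x
    rw [abs_of_nonneg (integral_nonneg fun u => by (try dsimp only); split_ifs <;> norm_num)]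
    have h5 : ∫ u : ℕ → Bool, (1 : ℝ) ∂(LL lam) = 1 := by simp
    refine le_trans (integral_mono (g := fun _ => (1 : ℝ))
      (int_bdd _ _ (hUm (x + 1)) (fun x => if w₀ ≤ x then (1 : ℝ) else 0) 1
      (fun x => by (try dsimp only); split_ifs <;> norm_num)) (integrable_const _)
      (fun u => by (try dsimp only); split_ifs <;> norm_num)) (le_of_eq h5)
  -- the main inequality
  have hmain : ∀ K : ℕ, K₀ ≤ K → ∀ n : ℕ, 1 / 2 * (q * ((n : ℝ) - 1)) ≤ C * (K : ℝ) ^ 2 +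
      (1 / 2 + C * K) * ∑ k ∈ Finset.range n, ∫ s, (if K < W s k then (1 : ℝ) else 0) ∂(RL lam) := by
    intro K hKK n
    obtain ⟨g, hg, hg1, hg2, hg3⟩ := hK K hKK
    have hgb : ∀ x, |g x| ≤ C * (K : ℝ) ^ 2 := fun x => by
      rw [abs_of_nonneg (hg x).1]
      exact (hg x).2
    have hstep : ∀ k, 1 / 2 * ∫ s, (if w₀ ≤ W s k then (1 : ℝ) else 0) ∂(RL lam) -
        (1 / 2 + C * K) * ∫ s, (if K < W s k then (1 : ℝ) else 0) ∂(RL lam) ≤
        ∫ s, g (W s (k + 1)) ∂(RL lam) - ∫ s, g (W s k) ∂(RL lam) := by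
      intro k
      rw [mk hUm hWm hMk lam hLL g _ hg k]
      have i1 : Integrable (fun s => (if w₀ ≤ W s k then (1 : ℝ) else 0)) (RL lam) :=
        int_bdd _ _ (hWm k) (fun x => if w₀ ≤ x then (1 : ℝ) else 0) 1
          (fun x => by (try dsimp only); split_ifs <;> norm_num)
      have i2 : Integrable (fun s => (if K < W s k then (1 : ℝ) else 0)) (RL lam) :=
        int_bdd _ _ (hWm k) (fun x => if K < x then (1 : ℝ) else 0) 1
          (fun x => by (try dsimp only); split_ifs <;> norm_num)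
      have i3 : Integrable (fun s => g (W s k)) (RL lam) := int_bdd _ _ (hWm k) g _ hgb
      have i4 : Integrable (fun s => ∫ u, g (U (W s k + 1) u) ∂(LL lam)) (RL lam) := by
        refine int_bdd (RL lam) (fun s => W s k) (hWm k)
          (fun n => ∫ u, g (U (n + 1) u) ∂(LL lam)) (C * (K : ℝ) ^ 2) ?_
        intro x
        rw [abs_of_nonneg (integral_nonneg fun u => (hg _).1)]
        have h5 : ∫ u : ℕ → Bool, (C * (K : ℝ) ^ 2) ∂(LL lam) = C * (K : ℝ) ^ 2 := by simp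
        rw [← h5]
        exact integral_mono (int_bdd _ _ (hUm (x + 1)) g _ hgb) (integrable_const _)
          (fun u => (hg _).2)
      rw [← integral_const_mul, ← integral_const_mul, ← integral_sub (i1.const_mul _)
        (i2.const_mul _), ← integral_sub i4 i3]
      refine integral_mono ((i1.const_mul _).sub (i2.const_mul _)) (i4.sub i3) ?_
      intro s
      show 1 / 2 * (if w₀ ≤ W s k then (1 : ℝ) else 0) -
        (1 / 2 + C * K) * (if K < W s k then (1 : ℝ) else 0) ≤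
        ∫ u, g (U (W s k + 1) u) ∂(LL lam) - g (W s k)
      generalize W s k = w
      by_cases h1 : K < w
      · rw [if_pos h1]
        have h2 := hg1 w
        split_ifs <;> nlinarith
      · rw [if_neg h1]
        by_cases h2 : w₀ ≤ w
        · rw [if_pos h2]
          have h3 := hg3 w h2 (by omega)
          linarith
        · rw [if_neg h2]
          have h3 := hg2 w (by omega)
          linarith
    have hsum := Finset.sum_le_sum fun k (_ : k ∈ Finset.range n) => hstep k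
    rw [Finset.sum_range_sub (fun k => ∫ s, g (W s k) ∂(RL lam)), Finset.sum_sub_distrib,
      ← Finset.mul_sum, ← Finset.mul_sum] at hsum
    have hup : ∫ s, g (W s n) ∂(RL lam) ≤ C * (K : ℝ) ^ 2 := by
      have h5 : ∫ u : ℕ → ℕ → Bool, (C * (K : ℝ) ^ 2) ∂(RL lam) = C * (K : ℝ) ^ 2 := by simp
      rw [← h5]
      exact integral_mono (int_bdd _ _ (hWm n) g _ hgb) (integrable_const _) (fun u => (hg _).2)
    have hdn : 0 ≤ ∫ s, g (W s 0) ∂(RL lam) := integral_nonneg fun u => (hg _).1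
    have hcount : q * ((n : ℝ) - 1) ≤
        ∑ k ∈ Finset.range n, ∫ s, (if w₀ ≤ W s k then (1 : ℝ) else 0) ∂(RL lam) := by
      rcases n with _ | n
      · simp
        linarith
      · rw [Finset.sum_range_succ']
        have h6 : 0 ≤ ∫ s, (if w₀ ≤ W s 0 then (1 : ℝ) else 0) ∂(RL lam) :=
          integral_nonneg fun u => by (try dsimp only); split_ifs <;> norm_num
        have h7 : ∑ k ∈ Finset.range n, q ≤ ∑ k ∈ Finset.range n,
            ∫ s, (if w₀ ≤ W s (k + 1) then (1 : ℝ) else 0) ∂(RL lam) :=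
          Finset.sum_le_sum fun k _ => hlow k
        rw [Finset.sum_const, Finset.card_range, nsmul_eq_mul] at h7
        push_cast
        linarith
    linarith
  -- dyadic pigeonhole
  set C₁ := max C₀ 0 with hC₁
  have hC₁0 : 0 ≤ C₁ := le_max_right _ _
  have hdy : ∀ J n : ℕ, ∑ j ∈ Finset.range J, (((2 ^ j * K₀ : ℕ) : ℝ) *
      ∑ k ∈ Finset.range n, ∫ s, (if 2 ^ j * K₀ < W s k then (1 : ℝ) else 0) ∂(RL lam)) ≤
      2 * C₁ * n + n * ((2 ^ J * K₀ : ℕ) : ℝ) *
        (1 - ((RL lam) {s | ((∑ k ∈ Finset.range n, W s (k + 1) : ℕ) : ℝ) ≤ C₀ * n}).toReal) := by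
    intro J n
    set A : Set (ℕ → ℕ → Bool) :=
      {s | ((∑ k ∈ Finset.range n, W s (k + 1) : ℕ) : ℝ) ≤ C₀ * n} with hA
    have hAm : MeasurableSet A := by
      have h1 : Measurable fun s : ℕ → ℕ → Bool => (∑ k ∈ Finset.range n, W s (k + 1)) :=
        Finset.measurable_sum _ fun k _ => hWm (k + 1)
      exact h1 (MeasurableSet.of_discrete (s := {x : ℕ | (x : ℝ) ≤ C₀ * n}))
    have h1 : 1 - ((RL lam) A).toReal = ∫ s, Aᶜ.indicator (1 : (ℕ → ℕ → Bool) → ℝ) s ∂(RL lam) := by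
      rw [integral_indicator_one hAm.compl]
      have h2 := probReal_compl_eq_one_sub (μ := RL lam) hAm
      rw [h2]
      rfl
    have i2 : ∀ j k, Integrable (fun s => (if 2 ^ j * K₀ < W s k then (1 : ℝ) else 0)) (RL lam) :=
      fun j k => int_bdd _ _ (hWm k) (fun x => if 2 ^ j * K₀ < x then (1 : ℝ) else 0) 1
          (fun x => by (try dsimp only); split_ifs <;> norm_num)
    have h3 : ∑ j ∈ Finset.range J, (((2 ^ j * K₀ : ℕ) : ℝ) *
        ∑ k ∈ Finset.range n, ∫ s, (if 2 ^ j * K₀ < W s k then (1 : ℝ) else 0) ∂(RL lam)) =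
        ∫ s, ∑ j ∈ Finset.range J, (((2 ^ j * K₀ : ℕ) : ℝ) *
          ∑ k ∈ Finset.range n, (if 2 ^ j * K₀ < W s k then (1 : ℝ) else 0)) ∂(RL lam) := by
      rw [integral_finsetSum _ fun j _ => (integrable_finsetSum _ fun k _ => i2 j k).const_mul _]
      refine Finset.sum_congr rfl fun j _ => ?_
      rw [integral_const_mul, integral_finsetSum _ fun k _ => i2 j k]
    rw [h3, h1, ← integral_const_mul]
    have h4 : 2 * C₁ * (n : ℝ) = ∫ s : ℕ → ℕ → Bool, 2 * C₁ * (n : ℝ) ∂(RL lam) := by simp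
    have i5 : Integrable (Aᶜ.indicator (1 : (ℕ → ℕ → Bool) → ℝ)) (RL lam) :=
      (integrable_const (1 : ℝ)).indicator hAm.compl
    rw [h4, ← integral_add (integrable_const _) (i5.const_mul _)]
    refine integral_mono (integrable_finsetSum _ fun j _ =>
      (integrable_finsetSum _ fun k _ => i2 j k).const_mul _)
      ((integrable_const _).add (i5.const_mul _)) ?_
    intro s
    show ∑ j ∈ Finset.range J, (((2 ^ j * K₀ : ℕ) : ℝ) *
          ∑ k ∈ Finset.range n, (if 2 ^ j * K₀ < W s k then (1 : ℝ) else 0)) ≤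
      2 * C₁ * n + n * ((2 ^ J * K₀ : ℕ) : ℝ) * Aᶜ.indicator (1 : (ℕ → ℕ → Bool) → ℝ) s
    have h6 : ∑ j ∈ Finset.range J, (((2 ^ j * K₀ : ℕ) : ℝ) *
          ∑ k ∈ Finset.range n, (if 2 ^ j * K₀ < W s k then (1 : ℝ) else 0)) =
        ((∑ k ∈ Finset.range n, ∑ j ∈ Finset.range J,
          (if 2 ^ j * K₀ < W s k then 2 ^ j * K₀ else 0) : ℕ) : ℝ) := by
      rw [Nat.cast_sum, Finset.sum_congr rfl fun k _ => Nat.cast_sum _ _, Finset.sum_comm]
      refine Finset.sum_congr rfl fun j _ => ?_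
      rw [Finset.mul_sum]
      refine Finset.sum_congr rfl fun k _ => ?_
      split_ifs <;> simp
    rw [h6]
    by_cases hs : s ∈ A
    · rw [indicator_of_notMem (by simpa using hs), mul_zero, add_zero]
      have h7 : ∑ k ∈ Finset.range n, ∑ j ∈ Finset.range J,
          (if 2 ^ j * K₀ < W s k then 2 ^ j * K₀ else 0) ≤
          2 * ∑ k ∈ Finset.range n, W s (k + 1) := by
        have h8 : ∑ k ∈ Finset.range n, W s k ≤ ∑ k ∈ Finset.range n, W s (k + 1) := by
          have h9 := Finset.sum_range_succ' (fun k => W s k) n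
          have h10 := Finset.sum_range_succ (fun k => W s k) n
          have h11 : W s 0 = 0 := rfl
          omega
        calc _ ≤ ∑ k ∈ Finset.range n, 2 * W s k := Finset.sum_le_sum fun k _ => dy3 K₀ (W s k) J
          _ = 2 * ∑ k ∈ Finset.range n, W s k := by rw [Finset.mul_sum]
          _ ≤ _ := Nat.mul_le_mul_left 2 h8
      have h8 : ((∑ k ∈ Finset.range n, ∑ j ∈ Finset.range J,
          (if 2 ^ j * K₀ < W s k then 2 ^ j * K₀ else 0) : ℕ) : ℝ) ≤
          2 * ((∑ k ∈ Finset.range n, W s (k + 1) : ℕ) : ℝ) := by exact_mod_cast h7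
      have h9 : ((∑ k ∈ Finset.range n, W s (k + 1) : ℕ) : ℝ) ≤ C₀ * n := hs
      have h10 : C₀ * n ≤ C₁ * n := mul_le_mul_of_nonneg_right (le_max_left _ _) (Nat.cast_nonneg _)
      linarith
    · rw [indicator_of_mem (show s ∈ Aᶜ from hs)]
      have h7 : ∑ k ∈ Finset.range n, ∑ j ∈ Finset.range J,
          (if 2 ^ j * K₀ < W s k then 2 ^ j * K₀ else 0) ≤ n * (2 ^ J * K₀) := by
        calc _ ≤ ∑ k ∈ Finset.range n, 2 ^ J * K₀ := Finset.sum_le_sum fun k _ => dy2 K₀ (W s k) J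
          _ = n * (2 ^ J * K₀) := by rw [Finset.sum_const, Finset.card_range, smul_eq_mul]
      have h8 : ((∑ k ∈ Finset.range n, ∑ j ∈ Finset.range J,
          (if 2 ^ j * K₀ < W s k then 2 ^ j * K₀ else 0) : ℕ) : ℝ) ≤
          n * ((2 ^ J * K₀ : ℕ) : ℝ) := by exact_mod_cast h7
      have h9 : 0 ≤ 2 * C₁ * (n : ℝ) := by positivity
      rw [Pi.one_apply, mul_one]
      linarith
  -- choice of the parameters
  obtain ⟨J, hJ⟩ := exists_nat_gt (16 * ((1 + C) * (2 * C₁ + 1)) / q)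
  have hJ0 : 0 < J := by
    have h1 : (0 : ℝ) < J := lt_of_le_of_lt (by positivity) hJ
    exact_mod_cast h1
  have hJq : (1 + C) * (2 * C₁ + 1) / J < q / 16 := by
    rw [div_lt_iff₀ hq] at hJ
    rw [div_lt_iff₀ (by exact_mod_cast hJ0)]
    linarith
  have hKpos : (0 : ℝ) < ((2 ^ J * K₀ : ℕ) : ℝ) := by
    have : 0 < 2 ^ J * K₀ := Nat.mul_pos (by positivity) hK₀
    exact_mod_cast this
  have hev1 : ∀ᶠ n : ℕ in atTop, 1 - 1 / ((2 ^ J * K₀ : ℕ) : ℝ) <
      ((RL lam) {s | ((∑ k ∈ Finset.range n, W s (k + 1) : ℕ) : ℝ) ≤ C₀ * n}).toReal := by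
    have h1 := (ENNReal.tendsto_toReal ENNReal.one_ne_top).comp hlim
    refine h1.eventually (lt_mem_nhds ?_)
    rw [ENNReal.toReal_one]
    have : 0 < 1 / ((2 ^ J * K₀ : ℕ) : ℝ) := by positivity
    linarith
  have hev2 : ∀ᶠ n : ℕ in atTop, 16 * (C * ((2 ^ J * K₀ : ℕ) : ℝ) ^ 2) / q < n :=
    (tendsto_natCast_atTop_atTop (R := ℝ)).eventually (eventually_gt_atTop _)
  obtain ⟨n, ⟨h1, h2⟩, hn2⟩ := ((hev1.and hev2).and (eventually_ge_atTop 2)).exists
  have hnR : (2 : ℝ) ≤ n := by exact_mod_cast hn2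
  have hd := hdy J n
  have h3 : n * ((2 ^ J * K₀ : ℕ) : ℝ) *
      (1 - ((RL lam) {s | ((∑ k ∈ Finset.range n, W s (k + 1) : ℕ) : ℝ) ≤ C₀ * n}).toReal) ≤ n := by
    have h4 : 1 - ((RL lam) {s | ((∑ k ∈ Finset.range n, W s (k + 1) : ℕ) : ℝ) ≤
        C₀ * n}).toReal ≤ 1 / ((2 ^ J * K₀ : ℕ) : ℝ) := by linarith
    calc _ ≤ n * ((2 ^ J * K₀ : ℕ) : ℝ) * (1 / ((2 ^ J * K₀ : ℕ) : ℝ)) :=
        mul_le_mul_of_nonneg_left h4 (by positivity)
      _ = n := by field_simp
  have h4 : ∑ j ∈ Finset.range J, (((2 ^ j * K₀ : ℕ) : ℝ) *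
      ∑ k ∈ Finset.range n, ∫ s, (if 2 ^ j * K₀ < W s k then (1 : ℝ) else 0) ∂(RL lam)) ≤
      ∑ j ∈ Finset.range J, (2 * C₁ + 1) * n / J := by
    rw [Finset.sum_const, Finset.card_range, nsmul_eq_mul]
    have h5 : (J : ℝ) * ((2 * C₁ + 1) * n / J) = (2 * C₁ + 1) * n := by
      have : (J : ℝ) ≠ 0 := by exact_mod_cast hJ0.ne'
      field_simp
    rw [h5]
    linarith
  obtain ⟨j, hj, h5⟩ := Finset.exists_le_of_sum_le ⟨0, Finset.mem_range.2 hJ0⟩ h4
  have hjJ : j < J := Finset.mem_range.1 hj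
  have hKj : K₀ ≤ 2 ^ j * K₀ := Nat.le_mul_of_pos_left _ (by positivity)
  have h6 := hmain (2 ^ j * K₀) hKj n
  set Bj := ∑ k ∈ Finset.range n, ∫ s, (if 2 ^ j * K₀ < W s k then (1 : ℝ) else 0) ∂(RL lam)
    with hBj
  have hBj0 : 0 ≤ Bj := Finset.sum_nonneg fun k _ => integral_nonneg fun u => by
    dsimp only
    split_ifs <;> norm_num
  have hKj1 : (1 : ℝ) ≤ ((2 ^ j * K₀ : ℕ) : ℝ) := by exact_mod_cast hK₀.trans hKj
  have hKjJ : ((2 ^ j * K₀ : ℕ) : ℝ) ≤ ((2 ^ J * K₀ : ℕ) : ℝ) := by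
    have : 2 ^ j * K₀ ≤ 2 ^ J * K₀ :=
      Nat.mul_le_mul_right _ (Nat.pow_le_pow_right (by norm_num) hjJ.le)
    exact_mod_cast this
  have h7 : (1 / 2 + C * ((2 ^ j * K₀ : ℕ) : ℝ)) * Bj ≤ q / 16 * n := by
    calc (1 / 2 + C * ((2 ^ j * K₀ : ℕ) : ℝ)) * Bj ≤ ((1 + C) * ((2 ^ j * K₀ : ℕ) : ℝ)) * Bj := by
          apply mul_le_mul_of_nonneg_right _ hBj0
          linarith
      _ = (1 + C) * (((2 ^ j * K₀ : ℕ) : ℝ) * Bj) := by ring
      _ ≤ (1 + C) * ((2 * C₁ + 1) * n / J) := mul_le_mul_of_nonneg_left h5 (by linarith)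
      _ = (1 + C) * (2 * C₁ + 1) / J * n := by ring
      _ ≤ q / 16 * n := mul_le_mul_of_nonneg_right hJq.le (by linarith)
  have h8 : C * ((2 ^ j * K₀ : ℕ) : ℝ) ^ 2 < q / 16 * n := by
    rw [div_lt_iff₀ hq] at h2
    have h9 : C * ((2 ^ j * K₀ : ℕ) : ℝ) ^ 2 ≤ C * ((2 ^ J * K₀ : ℕ) : ℝ) ^ 2 := by
      apply mul_le_mul_of_nonneg_left _ hC
      apply pow_le_pow_left₀ (by linarith) hKjJ
    linarith
  have h9 : q * ((n : ℝ) / 2) ≤ q * ((n : ℝ) - 1) := by
    apply mul_le_mul_of_nonneg_left _ hq.le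
    linarith
  have h10 : 0 < q * n := by positivity
  linarith

end Pool.Agent.N276.BE
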