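import Pool.Agent.N276.BE.Stm

/-!
# If `δ > 2` then the chain is bounded in mean (helper135)
-/

set_option autoImplicit false

open MeasureTheory ProbabilityTheory Filter Topology Set
open scoped ENNReal

namespace Pool.Agent.N276.BE

open Pool.Agent.N276.ER

namespace ChainUpAux

theorem W_congr (k : ℕ) (s s' : ℕ → ℕ → Bool) (h : ∀ j < k, s j = s' j) : W s k = W s' k := by
  induction k with
  | zero => rfl
  | succ k ih =>
    show U (W s k + 1) (s k) = U (W s' k + 1) (s' k)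
    rw [ih fun j hj => h j (Nat.lt_succ_of_lt hj), h k (Nat.lt_succ_self k)]

end ChainUpAux

open ChainUpAux in
theorem chainUp : StmMeas → StmMix → StmMarkov → StmMean → StmUp → StmChainUp := by
  intro hMeas hMix hMarkov hMean hUp lam hlam hpos hd
  obtain ⟨ε, C, hε, hC, h⟩ := hUp lam hlam hpos hd
  have hLL : IsProbabilityMeasure (LL lam) := (hMix lam hlam hpos).2.2.1
  have hU : ∀ x, Measurable (U x) := hMeas.2.2.2.1
  have hW : ∀ k, Measurable fun s : ℕ → ℕ → Bool => W s k := hMeas.2.2.2.2.2.2.1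
  have hc : Measurable fun n : ℕ => (n : ℝ≥0∞) := measurable_from_nat
  have hWc : ∀ k, Measurable fun s : ℕ → ℕ → Bool => ((W s k : ℕ) : ℝ≥0∞) := fun k =>
    hc.comp (hW k)
  -- one step, quenched
  have key : ∀ w : ℕ, ∫⁻ s, ((U (w + 1) s : ℕ) : ℝ≥0∞) ^ 2 ∂(LL lam) + ENNReal.ofReal ε * w ≤
      (w : ℝ≥0∞) ^ 2 + ENNReal.ofReal C := by
    intro w
    have hI := (hMean lam hlam hpos (w + 1)).2.1
    have e : ∫⁻ s, ((U (w + 1) s : ℕ) : ℝ≥0∞) ^ 2 ∂(LL lam) =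
        ENNReal.ofReal (∫ s, (U (w + 1) s : ℝ) ^ 2 ∂(LL lam)) := by
      rw [ofReal_integral_eq_lintegral_ofReal hI (Eventually.of_forall fun s => by positivity)]
      refine lintegral_congr fun s => ?_
      rw [ENNReal.ofReal_pow (by positivity), ENNReal.ofReal_natCast]
    have e2 : ENNReal.ofReal ε * (w : ℝ≥0∞) = ENNReal.ofReal (ε * w) := by
      rw [ENNReal.ofReal_mul hε.le, ENNReal.ofReal_natCast]
    have e3 : (w : ℝ≥0∞) ^ 2 + ENNReal.ofReal C = ENNReal.ofReal ((w : ℝ) ^ 2 + C) := by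
      rw [ENNReal.ofReal_add (by positivity) hC, ENNReal.ofReal_pow (by positivity),
        ENNReal.ofReal_natCast]
    rw [e, e2, e3, ← ENNReal.ofReal_add (integral_nonneg fun s => by positivity) (by positivity)]
    exact ENNReal.ofReal_le_ofReal (by linarith [h w])
  -- one step, averaged
  have step : ∀ k : ℕ, ∫⁻ s, ((W s (k + 1) : ℕ) : ℝ≥0∞) ^ 2 ∂(RL lam) +
      ENNReal.ofReal ε * ∫⁻ s, ((W s k : ℕ) : ℝ≥0∞) ∂(RL lam) ≤
      ∫⁻ s, ((W s k : ℕ) : ℝ≥0∞) ^ 2 ∂(RL lam) + ENNReal.ofReal C := by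
    intro k
    have h1 : ∫⁻ s, ((W s (k + 1) : ℕ) : ℝ≥0∞) ^ 2 ∂(RL lam) =
        ∫⁻ s, ∫⁻ u, ((U (W s k + 1) u : ℕ) : ℝ≥0∞) ^ 2 ∂(LL lam) ∂(RL lam) :=
      hMarkov (LL lam) hLL k (fun s => W s k) (fun n u => ((U (n + 1) u : ℕ) : ℝ≥0∞) ^ 2)
        (hW k) (W_congr k) (fun n => (hc.comp (hU (n + 1))).pow_const 2)
    calc ∫⁻ s, ((W s (k + 1) : ℕ) : ℝ≥0∞) ^ 2 ∂(RL lam) +
          ENNReal.ofReal ε * ∫⁻ s, ((W s k : ℕ) : ℝ≥0∞) ∂(RL lam)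
        = ∫⁻ s, (∫⁻ u, ((U (W s k + 1) u : ℕ) : ℝ≥0∞) ^ 2 ∂(LL lam) +
            ENNReal.ofReal ε * ((W s k : ℕ) : ℝ≥0∞)) ∂(RL lam) := by
          rw [h1, ← lintegral_const_mul _ (hWc k), ← lintegral_add_right _ ((hWc k).const_mul _)]
      _ ≤ ∫⁻ s, (((W s k : ℕ) : ℝ≥0∞) ^ 2 + ENNReal.ofReal C) ∂(RL lam) :=
          lintegral_mono fun s => key (W s k)
      _ = ∫⁻ s, ((W s k : ℕ) : ℝ≥0∞) ^ 2 ∂(RL lam) + ENNReal.ofReal C := by
          rw [lintegral_add_right _ measurable_const, lintegral_const, measure_univ, mul_one]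
  have h0 : ∀ s : ℕ → ℕ → Bool, W s 0 = 0 := fun s => rfl
  -- summation
  have ind : ∀ n : ℕ, ∫⁻ s, ((W s n : ℕ) : ℝ≥0∞) ^ 2 ∂(RL lam) +
      ENNReal.ofReal ε * ∑ k ∈ Finset.range n, ∫⁻ s, ((W s k : ℕ) : ℝ≥0∞) ∂(RL lam) ≤
      ENNReal.ofReal C * n := by
    intro n
    induction n with
    | zero => simp [h0]
    | succ n ih =>
      rw [Finset.sum_range_succ, mul_add]
      calc ∫⁻ s, ((W s (n + 1) : ℕ) : ℝ≥0∞) ^ 2 ∂(RL lam) +
            (ENNReal.ofReal ε * ∑ k ∈ Finset.range n, ∫⁻ s, ((W s k : ℕ) : ℝ≥0∞) ∂(RL lam) +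
              ENNReal.ofReal ε * ∫⁻ s, ((W s n : ℕ) : ℝ≥0∞) ∂(RL lam))
          = (∫⁻ s, ((W s (n + 1) : ℕ) : ℝ≥0∞) ^ 2 ∂(RL lam) +
              ENNReal.ofReal ε * ∫⁻ s, ((W s n : ℕ) : ℝ≥0∞) ∂(RL lam)) +
            ENNReal.ofReal ε * ∑ k ∈ Finset.range n, ∫⁻ s, ((W s k : ℕ) : ℝ≥0∞) ∂(RL lam) := by
            ring
        _ ≤ (∫⁻ s, ((W s n : ℕ) : ℝ≥0∞) ^ 2 ∂(RL lam) + ENNReal.ofReal C) +
            ENNReal.ofReal ε * ∑ k ∈ Finset.range n, ∫⁻ s, ((W s k : ℕ) : ℝ≥0∞) ∂(RL lam) :=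
            add_le_add (step n) le_rfl
        _ = (∫⁻ s, ((W s n : ℕ) : ℝ≥0∞) ^ 2 ∂(RL lam) +
            ENNReal.ofReal ε * ∑ k ∈ Finset.range n, ∫⁻ s, ((W s k : ℕ) : ℝ≥0∞) ∂(RL lam)) +
            ENNReal.ofReal C := by ring
        _ ≤ ENNReal.ofReal C * n + ENNReal.ofReal C := add_le_add ih le_rfl
        _ = ENNReal.ofReal C * (n + 1 : ℕ) := by
            rw [Nat.cast_add, Nat.cast_one, mul_add, mul_one]
  have hε0 : ENNReal.ofReal ε ≠ 0 := (ENNReal.ofReal_pos.2 hε).ne'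
  refine ⟨2 * ENNReal.ofReal C / ENNReal.ofReal ε,
    ENNReal.div_ne_top (ENNReal.mul_ne_top ENNReal.ofNat_ne_top ENNReal.ofReal_ne_top) hε0,
    fun n => ?_⟩
  rcases Nat.eq_zero_or_pos n with rfl | hn
  · simp
  have e1 : ∫⁻ s, ((∑ k ∈ Finset.range n, W s (k + 1) : ℕ) : ℝ≥0∞) ∂(RL lam) =
      ∑ k ∈ Finset.range n, ∫⁻ s, ((W s (k + 1) : ℕ) : ℝ≥0∞) ∂(RL lam) := by
    rw [← lintegral_finsetSum _ fun k _ => hWc (k + 1)]
    refine lintegral_congr fun s => ?_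
    rw [Nat.cast_sum]
  have e2 : ∑ k ∈ Finset.range (n + 1), ∫⁻ s, ((W s k : ℕ) : ℝ≥0∞) ∂(RL lam) =
      ∑ k ∈ Finset.range n, ∫⁻ s, ((W s (k + 1) : ℕ) : ℝ≥0∞) ∂(RL lam) := by
    rw [Finset.sum_range_succ']
    simp [h0]
  have h3 : ENNReal.ofReal ε * ∑ k ∈ Finset.range n,
      ∫⁻ s, ((W s (k + 1) : ℕ) : ℝ≥0∞) ∂(RL lam) ≤ 2 * ENNReal.ofReal C * n := by
    rw [← e2]
    refine (le_add_self.trans (ind (n + 1))).trans ?_
    rw [mul_comm 2, mul_assoc]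
    gcongr
    have : n + 1 ≤ 2 * n := by omega
    exact_mod_cast this
  rw [e1, ← ENNReal.mul_div_right_comm,
    ENNReal.le_div_iff_mul_le (Or.inl hε0) (Or.inl ENNReal.ofReal_ne_top), mul_comm]
  exact h3

end Pool.Agent.N276.BE
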