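import Pool.Agent.N276.BE.Stm

/-!
# The mixed moment of the martingale part and of the used drift (helper982)
-/

set_option autoImplicit false

open MeasureTheory ProbabilityTheory Filter Topology Set
open scoped ENNReal

namespace Pool.Agent.N276.BE

open Pool.Agent.N276.ER

namespace CrossAux

lemma dd_nonneg {q : ℕ → ℝ} (hq : HQ q) (t : ℕ) : 0 ≤ dd q t :=
  Finset.sum_nonneg fun i _ => by have := (hq i).2; linarith

lemma dd_mono {q : ℕ → ℝ} (hq : HQ q) {t t' : ℕ} (h : t ≤ t') : dd q t ≤ dd q t' := by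
  unfold dd
  refine Finset.sum_le_sum_of_subset_of_nonneg ?_ fun i _ _ => by have := (hq i).2; linarith
  intro i hi
  rw [Finset.mem_range] at hi ⊢
  omega

lemma dd_le {q : ℕ → ℝ} (hq : HQ q) (t : ℕ) : dd q t ≤ t := by
  unfold dd
  calc ∑ i ∈ Finset.range t, (1 - 2 * q i) ≤ ∑ _i ∈ Finset.range t, (1 : ℝ) :=
        Finset.sum_le_sum fun i _ => by have := (hq i).1; linarith
    _ = t := by simp

/-- the square of the used drift -/
lemma D_sq {q : ℕ → ℝ} (hq : HQ q) (m T : ℕ) (hm : 1 ≤ m) :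
    ENNReal.ofReal (dd q T ^ 2) ≤ ENNReal.ofReal (dd q (4 * m) ^ 2) +
      (if 4 * m < T then ((T : ℕ) : ℝ≥0∞) ^ 4 else 0) := by
  split_ifs with h
  · refine le_trans ?_ le_add_self
    have hT : (1 : ℝ) ≤ T := by exact_mod_cast (by omega : 1 ≤ T)
    have e : ((T : ℕ) : ℝ≥0∞) ^ 4 = ENNReal.ofReal ((T : ℝ) ^ 4) := by
      rw [ENNReal.ofReal_pow (by positivity), ENNReal.ofReal_natCast]
    rw [e]
    refine ENNReal.ofReal_le_ofReal ?_
    calc dd q T ^ 2 ≤ (T : ℝ) ^ 2 := pow_le_pow_left₀ (dd_nonneg hq T) (dd_le hq T) 2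
      _ ≤ (T : ℝ) ^ 4 := pow_le_pow_right₀ hT (by norm_num)
  · rw [add_zero]
    exact ENNReal.ofReal_le_ofReal
      (pow_le_pow_left₀ (dd_nonneg hq T) (dd_mono hq (by omega)) 2)

lemma young {a x y : ℝ} (ha : 0 < a) : |x * y| ≤ a / 2 * x ^ 2 + 1 / (2 * a) * y ^ 2 := by
  rw [abs_mul]
  have h1 : 0 ≤ (a * |x| - |y|) ^ 2 := sq_nonneg _
  have e : a / 2 * x ^ 2 + 1 / (2 * a) * y ^ 2 =
      |x| * |y| + (a * |x| - |y|) ^ 2 / (2 * a) := by
    have e1 : x ^ 2 = |x| ^ 2 := (sq_abs x).symm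
    have e2 : y ^ 2 = |y| ^ 2 := (sq_abs y).symm
    rw [e1, e2]
    field_simp
    ring
  rw [e]
  have : 0 ≤ (a * |x| - |y|) ^ 2 / (2 * a) := by positivity
  linarith

/-- the choice of the parameter -/
lemma balance {D c m : ℝ} (hD : 0 ≤ D) (hc : 0 ≤ c) (hm : 0 < m) :
    ∃ a : ℝ, 0 < a ∧ a / 2 * m + 1 / (2 * a) * (D ^ 2 + c) ≤
      Real.sqrt m * (D + Real.sqrt c + 1) := by
  have hs0 : 0 ≤ Real.sqrt c := Real.sqrt_nonneg _
  have hr : 0 < Real.sqrt m := Real.sqrt_pos.2 hm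
  have hr2 : Real.sqrt m ^ 2 = m := Real.sq_sqrt hm.le
  have hsq : Real.sqrt c ^ 2 = c := Real.sq_sqrt hc
  generalize Real.sqrt m = r at hr hr2 ⊢
  generalize Real.sqrt c = w at hs0 hsq ⊢
  have hR : 0 < D + w + 1 := by linarith
  refine ⟨(D + w + 1) / r, div_pos hR hr, ?_⟩
  rw [← hr2, ← hsq]
  have e1 : (D + w + 1) / r / 2 * r ^ 2 = r * (D + w + 1) / 2 := by
    field_simp
  have e2 : 1 / (2 * ((D + w + 1) / r)) * (D ^ 2 + w ^ 2) =
      r / 2 * ((D ^ 2 + w ^ 2) / (D + w + 1)) := by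
    field_simp
  have e3 : (D ^ 2 + w ^ 2) / (D + w + 1) ≤ D + w + 1 := by
    rw [div_le_iff₀ hR]
    nlinarith [mul_nonneg hD hs0]
  rw [e1, e2]
  have h3 := mul_le_mul_of_nonneg_left e3 (by positivity : 0 ≤ r / 2)
  linarith

/-- the second moment of the used drift -/
lemma D_mom {C₀ : ℝ≥0∞} (hC : C₀ ≠ ⊤) (q : ℕ → ℝ) (hq : HQ q)
    (hP : IsProbabilityMeasure (stackLaw q)) (m : ℕ) (hm : 1 ≤ m)
    (hmom : ∫⁻ s, (if 4 * m < T m s then ((T m s : ℕ) : ℝ≥0∞) ^ 4 else 0) ∂(stackLaw q) ≤ C₀) :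
    ∫⁻ s, ENNReal.ofReal (dd q (T m s) ^ 2) ∂(stackLaw q) ≤
      ENNReal.ofReal (dd q (4 * m) ^ 2 + C₀.toReal) := by
  have h1 : ∫⁻ s, ENNReal.ofReal (dd q (T m s) ^ 2) ∂(stackLaw q) ≤
      ∫⁻ s, (ENNReal.ofReal (dd q (4 * m) ^ 2) +
        (if 4 * m < T m s then ((T m s : ℕ) : ℝ≥0∞) ^ 4 else 0)) ∂(stackLaw q) :=
    lintegral_mono fun s => D_sq hq m (T m s) hm
  rw [lintegral_add_left measurable_const, lintegral_const, measure_univ, mul_one] at h1
  refine h1.trans ?_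
  rw [ENNReal.ofReal_add (by positivity) ENNReal.toReal_nonneg, ENNReal.ofReal_toReal hC]
  exact add_le_add_right hmom _

/-- an abstract form of the quenched bound -/
lemma mix {Ω : Type*} [MeasurableSpace Ω] (P : Measure Ω) (M D : Ω → ℝ) (hM : Measurable M)
    (hD : Measurable D) (x y d : ℝ) (hx : 0 < x) (hd : 0 ≤ d) (hy : 0 ≤ y)
    (h1 : ∫⁻ s, ENNReal.ofReal (M s ^ 2) ∂P ≤ ENNReal.ofReal x)
    (h2 : ∫⁻ s, ENNReal.ofReal (D s ^ 2) ∂P ≤ ENNReal.ofReal (d ^ 2 + y)) :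
    ∫⁻ s, ENNReal.ofReal |M s * D s| ∂P ≤
      ENNReal.ofReal (Real.sqrt x * (d + Real.sqrt y + 1)) := by
  obtain ⟨a, ha, hle⟩ := balance hd hy hx
  have m1 : Measurable fun s => ENNReal.ofReal (M s ^ 2) := (hM.pow_const 2).ennreal_ofReal
  have m2 : Measurable fun s => ENNReal.ofReal (D s ^ 2) := (hD.pow_const 2).ennreal_ofReal
  calc ∫⁻ s, ENNReal.ofReal |M s * D s| ∂P
      ≤ ∫⁻ s, (ENNReal.ofReal (a / 2) * ENNReal.ofReal (M s ^ 2) +
          ENNReal.ofReal (1 / (2 * a)) * ENNReal.ofReal (D s ^ 2)) ∂P := by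
        refine lintegral_mono fun s => ?_
        rw [← ENNReal.ofReal_mul (by positivity), ← ENNReal.ofReal_mul (by positivity),
          ← ENNReal.ofReal_add (by positivity) (by positivity)]
        exact ENNReal.ofReal_le_ofReal (young ha)
    _ = ENNReal.ofReal (a / 2) * ∫⁻ s, ENNReal.ofReal (M s ^ 2) ∂P +
        ENNReal.ofReal (1 / (2 * a)) * ∫⁻ s, ENNReal.ofReal (D s ^ 2) ∂P := by
        rw [lintegral_add_left (m1.const_mul _), lintegral_const_mul _ m1,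
          lintegral_const_mul _ m2]
    _ ≤ ENNReal.ofReal (a / 2) * ENNReal.ofReal x +
        ENNReal.ofReal (1 / (2 * a)) * ENNReal.ofReal (d ^ 2 + y) :=
        add_le_add (mul_le_mul_right h1 _) (mul_le_mul_right h2 _)
    _ = ENNReal.ofReal (a / 2 * x + 1 / (2 * a) * (d ^ 2 + y)) := by
        rw [← ENNReal.ofReal_mul (by positivity), ← ENNReal.ofReal_mul (by positivity),
          ← ENNReal.ofReal_add (by positivity) (by positivity)]
    _ ≤ _ := ENNReal.ofReal_le_ofReal hle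

lemma slice {A B : Type*} [MeasurableSpace A] [MeasurableSpace B] (F : A × B → ℝ)
    (hF : Measurable F) (a : A) : Measurable fun b => F (a, b) :=
  hF.comp measurable_prodMk_left

/-- the quenched bound -/
lemma quenched (hMeas : StmMeas) (hMart : StmQMart) {C₀ : ℝ≥0∞} (hC : C₀ ≠ ⊤)
    (hprob : ∀ q : ℕ → ℝ, HQ q → IsProbabilityMeasure (stackLaw q))
    (hmom : ∀ q : ℕ → ℝ, HQ q → ∀ m : ℕ,
      ∫⁻ s, (if 4 * m < T m s then ((T m s : ℕ) : ℝ≥0∞) ^ 4 else 0) ∂(stackLaw q) ≤ C₀)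
    (η : ℕ → ℝ) (hq : HQ (co η)) (m : ℕ) (hm : 1 ≤ m) :
    ∫⁻ s, ENNReal.ofReal |((U m s : ℝ) - m + dd (co η) (T m s)) * dd (co η) (T m s)|
      ∂(stackLaw (co η)) ≤
      ENNReal.ofReal (Real.sqrt (2 * m) * (dd (co η) (4 * m) + Real.sqrt C₀.toReal + 1)) := by
  have hU := hMeas.2.2.2.1 m
  have hdd := hMeas.2.2.2.2.2.2.2.2 m
  have hmr : (1 : ℝ) ≤ m := by exact_mod_cast hm
  have hDm : Measurable fun s : ℕ → Bool => dd (co η) (T m s) :=
    slice (fun p : (ℕ → ℝ) × (ℕ → Bool) => dd (co p.1) (T m p.2)) hdd η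
  have hMm : Measurable fun s : ℕ → Bool => (U m s : ℝ) - m + dd (co η) (T m s) :=
    (((measurable_from_top (f := fun n : ℕ => (n : ℝ))).comp hU).sub_const _).add hDm
  obtain ⟨hint, hle, -⟩ := hMart (co η) hq m
  have h1 : ∫⁻ s, ENNReal.ofReal (((U m s : ℝ) - m + dd (co η) (T m s)) ^ 2)
      ∂(stackLaw (co η)) ≤ ENNReal.ofReal (2 * m) := by
    rw [← ofReal_integral_eq_lintegral_ofReal hint
      (Filter.Eventually.of_forall fun s => sq_nonneg _)]
    exact ENNReal.ofReal_le_ofReal hle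
  exact mix (stackLaw (co η)) _ _ hMm hDm (2 * m) C₀.toReal (dd (co η) (4 * m)) (by linarith)
    (dd_nonneg hq _) ENNReal.toReal_nonneg h1
    (D_mom hC (co η) hq (hprob _ hq) m hm (hmom _ hq m))

lemma ofReal_dd_le (η : ℕ → ℝ) (hη : ∀ i, 1 / 2 ≤ η i) (t : ℕ) :
    ENNReal.ofReal (dd (co η) t) ≤ ∑' i, ENNReal.ofReal (2 * η i - 1) := by
  have e : dd (co η) t = ∑ i ∈ Finset.range t, (2 * η i - 1) := by
    unfold dd co
    exact Finset.sum_congr rfl fun i _ => by ring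
  rw [e, ENNReal.ofReal_sum_of_nonneg fun i _ => by have := hη i; linarith]
  exact ENNReal.sum_le_tsum _

end CrossAux

open CrossAux

theorem cross : StmMeas → StmMix → StmQTail → StmQMom → StmQMart → StmM2 → StmCross := by
  intro hMeas hMix _ hMom hMart _ lam hlam hpos hdelta
  obtain ⟨hQ, C₀, hC, hmom⟩ := hMom
  obtain ⟨hHQ, -, -, hmix⟩ := hMix lam hlam hpos
  refine ⟨Real.sqrt 2 * (3 + Real.sqrt C₀.toReal), by positivity, ?_⟩
  intro m hm
  have hmr : (1 : ℝ) ≤ m := by exact_mod_cast hm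
  have hs0 : 0 ≤ Real.sqrt C₀.toReal := Real.sqrt_nonneg _
  have hU := hMeas.2.2.2.1 m
  have hdd := hMeas.2.2.2.2.2.2.2.2 m
  have key : ∫⁻ z, ENNReal.ofReal |((U m (al z) : ℝ) - m + dd (co z.1) (T m (al z))) *
      dd (co z.1) (T m (al z))| ∂(BZ lam) ≤
      ENNReal.ofReal (Real.sqrt 2 * (3 + Real.sqrt C₀.toReal) * Real.sqrt m) := by
    have hm1 : Measurable (fun p : (ℕ → ℝ) × (ℕ → Bool) =>
        ENNReal.ofReal |((U m p.2 : ℝ) - m + dd (co p.1) (T m p.2)) * dd (co p.1) (T m p.2)|) := by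
      have hMm : Measurable fun p : (ℕ → ℝ) × (ℕ → Bool) =>
          (U m p.2 : ℝ) - m + dd (co p.1) (T m p.2) :=
        ((((measurable_from_top (f := fun n : ℕ => (n : ℝ))).comp hU).comp
          measurable_snd).sub_const _).add hdd
      exact (hMm.mul hdd).abs.ennreal_ofReal
    rw [hmix (fun η s => ENNReal.ofReal |((U m s : ℝ) - m + dd (co η) (T m s)) *
      dd (co η) (T m s)|) hm1]
    calc ∫⁻ η, ∫⁻ s, ENNReal.ofReal |((U m s : ℝ) - m + dd (co η) (T m s)) *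
          dd (co η) (T m s)| ∂(stackLaw (co η)) ∂lam
        ≤ ∫⁻ η, (ENNReal.ofReal (Real.sqrt (2 * m)) * (∑' i, ENNReal.ofReal (2 * η i - 1)) +
            ENNReal.ofReal (Real.sqrt (2 * m) * (Real.sqrt C₀.toReal + 1))) ∂lam := by
          refine lintegral_mono_ae ?_
          filter_upwards [hHQ, hpos] with η h1 h2
          refine (quenched hMeas hMart hC (fun q hq => (hQ q hq).1) hmom η h1 m hm).trans ?_
          have e : Real.sqrt (2 * m) * (dd (co η) (4 * m) + Real.sqrt C₀.toReal + 1) =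
              Real.sqrt (2 * m) * dd (co η) (4 * m) +
                Real.sqrt (2 * m) * (Real.sqrt C₀.toReal + 1) := by ring
          rw [e, ENNReal.ofReal_add (mul_nonneg (Real.sqrt_nonneg _) (dd_nonneg h1 _))
            (by positivity), ENNReal.ofReal_mul (Real.sqrt_nonneg _)]
          gcongr
          exact ofReal_dd_le η (fun i => (h2 i).1) _
      _ = ENNReal.ofReal (Real.sqrt (2 * m)) * delta lam +
            ENNReal.ofReal (Real.sqrt (2 * m) * (Real.sqrt C₀.toReal + 1)) := by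
          have hmt : Measurable fun η : ℕ → ℝ => ∑' i, ENNReal.ofReal (2 * η i - 1) := by
            refine Measurable.tsum fun i => ?_
            exact (((measurable_pi_apply i).const_mul 2).sub_const 1).ennreal_ofReal
          rw [lintegral_add_left (hmt.const_mul _), lintegral_const_mul _ hmt, lintegral_const,
            measure_univ, mul_one]
          rfl
      _ ≤ ENNReal.ofReal (Real.sqrt (2 * m)) * 2 +
            ENNReal.ofReal (Real.sqrt (2 * m) * (Real.sqrt C₀.toReal + 1)) := by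
          gcongr
      _ = ENNReal.ofReal (Real.sqrt 2 * (3 + Real.sqrt C₀.toReal) * Real.sqrt m) := by
          have e2 : (2 : ℝ≥0∞) = ENNReal.ofReal 2 := by simp
          rw [e2, ← ENNReal.ofReal_mul (Real.sqrt_nonneg _),
            ← ENNReal.ofReal_add (by positivity) (by positivity)]
          congr 1
          rw [Real.sqrt_mul (by norm_num)]
          ring
  have h1 := norm_integral_le_lintegral_norm (μ := BZ lam)
    (fun z => ((U m (al z) : ℝ) - m + dd (co z.1) (T m (al z))) * dd (co z.1) (T m (al z)))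
  rw [Real.norm_eq_abs] at h1
  refine h1.trans ?_
  have h2 : (∫⁻ z, ENNReal.ofReal ‖((U m (al z) : ℝ) - m + dd (co z.1) (T m (al z))) *
      dd (co z.1) (T m (al z))‖ ∂(BZ lam)) ≤
      ENNReal.ofReal (Real.sqrt 2 * (3 + Real.sqrt C₀.toReal) * Real.sqrt m) := key
  calc (∫⁻ z, ENNReal.ofReal ‖((U m (al z) : ℝ) - m + dd (co z.1) (T m (al z))) *
      dd (co z.1) (T m (al z))‖ ∂(BZ lam)).toReal
      ≤ (ENNReal.ofReal (Real.sqrt 2 * (3 + Real.sqrt C₀.toReal) * Real.sqrt m)).toReal :=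
        ENNReal.toReal_mono ENNReal.ofReal_ne_top h2
    _ = _ := ENNReal.toReal_ofReal (by positivity)

end Pool.Agent.N276.BE
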