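import Pool.Agent.N276.BE.Stm

/-!
# The second moment of the used drift, `δ ≤ 2`
-/

set_option autoImplicit false

open MeasureTheory ProbabilityTheory Filter Topology Set
open scoped ENNReal

namespace Pool.Agent.N276.BE

open Pool.Agent.N276.ER

namespace D2Aux

/-- the total drift of a stack -/
noncomputable def Dinf (η : ℕ → ℝ) : ℝ≥0∞ := ∑' i, ENNReal.ofReal (2 * η i - 1)

lemma Dinf_meas : Measurable Dinf := by
  unfold Dinf
  refine Measurable.tsum (fun i => ?_)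
  exact ENNReal.measurable_ofReal.comp (((measurable_pi_apply i).const_mul 2).sub_const 1)

lemma dd_meas (t : ℕ) : Measurable fun η : ℕ → ℝ => dd (co η) t := by
  unfold dd co
  refine Finset.measurable_sum _ (fun i _ => ?_)
  exact measurable_const.sub ((measurable_const.sub (measurable_pi_apply i)).const_mul 2)

lemma dd_nonneg {q : ℕ → ℝ} (hq : HQ q) (t : ℕ) : 0 ≤ dd q t := by
  unfold dd
  exact Finset.sum_nonneg fun i _ => by linarith [(hq i).2]

lemma dd_mono {q : ℕ → ℝ} (hq : HQ q) {s t : ℕ} (h : s ≤ t) : dd q s ≤ dd q t := by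
  unfold dd
  refine Finset.sum_le_sum_of_subset_of_nonneg (Finset.range_mono h) (fun i _ _ => ?_)
  linarith [(hq i).2]

lemma dd_le {q : ℕ → ℝ} (hq : HQ q) (t : ℕ) : dd q t ≤ t := by
  unfold dd
  calc ∑ i ∈ Finset.range t, (1 - 2 * q i) ≤ ∑ i ∈ Finset.range t, (1 : ℝ) :=
        Finset.sum_le_sum fun i _ => by linarith [(hq i).1]
    _ = t := by simp

lemma dd_le_Dinf {η : ℕ → ℝ} (hq : HQ (co η)) (t : ℕ) :
    ENNReal.ofReal (dd (co η) t) ≤ Dinf η := by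
  unfold dd Dinf
  rw [ENNReal.ofReal_sum_of_nonneg (fun i _ => by linarith [(hq i).2])]
  refine le_trans (le_of_eq ?_) (ENNReal.sum_le_tsum (Finset.range t))
  refine Finset.sum_congr rfl (fun i _ => ?_)
  congr 1
  unfold co
  ring

lemma ofdd_le {q : ℕ → ℝ} (hq : HQ q) (t : ℕ) : ENNReal.ofReal (dd q t) ≤ (t : ℝ≥0∞) := by
  rw [← ENNReal.ofReal_natCast]
  exact ENNReal.ofReal_le_ofReal (dd_le hq t)

/-- the pointwise bound -/
lemma pt {q : ℕ → ℝ} (hq : HQ q) (m t : ℕ) :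
    ENNReal.ofReal (dd q t) ^ 2 ≤
      ENNReal.ofReal (dd q (4 * m)) ^ 2 + (if 4 * m < t then (t : ℝ≥0∞) ^ 4 else 0) := by
  by_cases h : 4 * m < t
  · rw [if_pos h]
    refine le_trans ?_ le_add_self
    have h1 : (1 : ℝ≥0∞) ≤ t := by
      have : 1 ≤ t := by omega
      exact_mod_cast this
    calc ENNReal.ofReal (dd q t) ^ 2 ≤ (t : ℝ≥0∞) ^ 2 := by gcongr; exact ofdd_le hq t
      _ ≤ (t : ℝ≥0∞) ^ 4 := pow_le_pow_right₀ h1 (by norm_num)
  · rw [if_neg h, add_zero]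
    gcongr
    exact dd_mono hq (by omega)

/-- the quenched bound -/
lemma quench {C : ℝ≥0∞}
    (hP : ∀ q : ℕ → ℝ, HQ q → IsProbabilityMeasure (stackLaw q))
    (hC : ∀ q : ℕ → ℝ, HQ q → ∀ m : ℕ,
      ∫⁻ s, (if 4 * m < T m s then ((T m s : ℕ) : ℝ≥0∞) ^ 4 else 0) ∂(stackLaw q) ≤ C)
    {q : ℕ → ℝ} (hq : HQ q) (m : ℕ) :
    ∫⁻ s, ENNReal.ofReal (dd q (T m s)) ^ 2 ∂(stackLaw q) ≤
      ENNReal.ofReal (dd q (4 * m)) ^ 2 + C := by
  haveI := hP q hq
  calc ∫⁻ s, ENNReal.ofReal (dd q (T m s)) ^ 2 ∂(stackLaw q)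
      ≤ ∫⁻ s, (ENNReal.ofReal (dd q (4 * m)) ^ 2 +
          (if 4 * m < T m s then ((T m s : ℕ) : ℝ≥0∞) ^ 4 else 0)) ∂(stackLaw q) :=
        lintegral_mono fun s => pt hq m (T m s)
    _ = ENNReal.ofReal (dd q (4 * m)) ^ 2 +
          ∫⁻ s, (if 4 * m < T m s then ((T m s : ℕ) : ℝ≥0∞) ^ 4 else 0) ∂(stackLaw q) := by
        rw [lintegral_add_left measurable_const, lintegral_const, measure_univ, mul_one]
    _ ≤ _ := by gcongr; exact hC q hq m

/-- the averaged bound -/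
lemma avg (hMeas : StmMeas) (hMix : StmMix) {C : ℝ≥0∞}
    (hP : ∀ q : ℕ → ℝ, HQ q → IsProbabilityMeasure (stackLaw q))
    (hC : ∀ q : ℕ → ℝ, HQ q → ∀ m : ℕ,
      ∫⁻ s, (if 4 * m < T m s then ((T m s : ℕ) : ℝ≥0∞) ^ 4 else 0) ∂(stackLaw q) ≤ C)
    (lam : Measure (ℕ → ℝ)) (hl : IsProbabilityMeasure lam) (hpos : POS lam) (m : ℕ) :
    ∫⁻ z, ENNReal.ofReal (dd (co z.1) (T m (al z))) ^ 2 ∂(BZ lam) ≤
      ∫⁻ η, ENNReal.ofReal (dd (co η) (4 * m)) ^ 2 ∂lam + C := by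
  obtain ⟨-, -, -, -, -, -, -, -, hm⟩ := hMeas
  obtain ⟨hq, -, -, hmix⟩ := hMix lam hl hpos
  have h1 := hmix (fun η s => ENNReal.ofReal (dd (co η) (T m s)) ^ 2)
    ((ENNReal.measurable_ofReal.comp (hm m)).pow_const 2)
  rw [h1]
  calc ∫⁻ η, ∫⁻ s, ENNReal.ofReal (dd (co η) (T m s)) ^ 2 ∂(stackLaw (co η)) ∂lam
      ≤ ∫⁻ η, (ENNReal.ofReal (dd (co η) (4 * m)) ^ 2 + C) ∂lam := by
        refine lintegral_mono_ae ?_
        filter_upwards [hq] with η hη
        exact quench hP hC hη m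
    _ = _ := by
        rw [lintegral_add_right _ measurable_const, lintegral_const, measure_univ, mul_one]

lemma gle {η : ℕ → ℝ} (hq : HQ (co η)) (m : ℕ) :
    ENNReal.ofReal (dd (co η) (4 * m)) ^ 2 ≤ (m : ℝ≥0∞) * (4 * Dinf η) := by
  calc ENNReal.ofReal (dd (co η) (4 * m)) ^ 2
      = ENNReal.ofReal (dd (co η) (4 * m)) * ENNReal.ofReal (dd (co η) (4 * m)) := sq _
    _ ≤ ((4 * m : ℕ) : ℝ≥0∞) * Dinf η := mul_le_mul' (ofdd_le hq _) (dd_le_Dinf hq _)
    _ = _ := by push_cast; ring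

end D2Aux

open D2Aux in
/-- second moment of the used drift if `δ ≤ 2` -/
theorem d2 : StmMeas → StmMix → StmQTail → StmQMom → StmD2 := by
  intro hMeas hMix _ hMom lam hl hpos hd
  obtain ⟨hP0, C, hCt, hC⟩ := hMom
  have hP : ∀ q : ℕ → ℝ, HQ q → IsProbabilityMeasure (stackLaw q) := fun q hq => (hP0 q hq).1
  have hav := avg hMeas hMix hP hC lam hl hpos
  have hqae : ∀ᵐ η ∂lam, HQ (co η) := (hMix lam hl hpos).1
  have hDint : ∫⁻ η, Dinf η ∂lam ≤ 2 := hd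
  refine ⟨⟨8 + C, by simp [hCt], fun m hm => ?_⟩, fun ε hε => ?_⟩
  · have hm1 : (1 : ℝ≥0∞) ≤ m := by exact_mod_cast hm
    calc ∫⁻ z, ENNReal.ofReal (dd (co z.1) (T m (al z))) ^ 2 ∂(BZ lam)
        ≤ ∫⁻ η, ENNReal.ofReal (dd (co η) (4 * m)) ^ 2 ∂lam + C := hav m
      _ ≤ ∫⁻ η, (m : ℝ≥0∞) * (4 * Dinf η) ∂lam + C := by
          gcongr ?_ + C
          refine lintegral_mono_ae ?_
          filter_upwards [hqae] with η hη
          exact gle hη m
      _ = (m : ℝ≥0∞) * (4 * ∫⁻ η, Dinf η ∂lam) + C := by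
          rw [lintegral_const_mul _ (Dinf_meas.const_mul 4), lintegral_const_mul _ Dinf_meas]
      _ ≤ (m : ℝ≥0∞) * (4 * 2) + C * m := by
          gcongr
          calc C = C * 1 := (mul_one C).symm
            _ ≤ C * m := by gcongr
      _ = (8 + C) * m := by ring
  · -- the averaged truncated drift, divided by `m`, tends to zero
    have hε2 : 0 < ε / 2 := ENNReal.half_pos hε.ne'
    have hlim : Tendsto (fun m : ℕ => ∫⁻ η, ENNReal.ofReal (dd (co η) (4 * m)) ^ 2 / (m : ℝ≥0∞) ∂lam)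
        atTop (𝓝 (∫⁻ _, 0 ∂lam)) := by
      refine tendsto_lintegral_filter_of_dominated_convergence (fun η => 4 * Dinf η) ?_ ?_ ?_ ?_
      · refine Eventually.of_forall fun m => ?_
        exact (((ENNReal.measurable_ofReal.comp (dd_meas (4 * m))).pow_const 2).div_const _)
      · filter_upwards [eventually_ge_atTop 1] with m hm
        filter_upwards [hqae] with η hη
        have hm0 : (m : ℝ≥0∞) ≠ 0 := by
          have : m ≠ 0 := by omega
          exact_mod_cast this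
        rw [ENNReal.div_le_iff hm0 (ENNReal.natCast_ne_top m)]
        calc _ ≤ (m : ℝ≥0∞) * (4 * Dinf η) := gle hη m
          _ = _ := mul_comm _ _
      · rw [lintegral_const_mul _ Dinf_meas]
        exact ENNReal.mul_ne_top (by norm_num) (ne_top_of_le_ne_top (by norm_num) hDint)
      · have hfin : ∀ᵐ η ∂lam, Dinf η < ⊤ :=
          ae_lt_top Dinf_meas (ne_top_of_le_ne_top (by norm_num) hDint)
        filter_upwards [hqae, hfin] with η hη hf
        have hup : Tendsto (fun m : ℕ => Dinf η ^ 2 / (m : ℝ≥0∞)) atTop (𝓝 0) := by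
          have := ENNReal.Tendsto.const_div ENNReal.tendsto_nat_nhds_top
            (Or.inr (ENNReal.pow_ne_top hf.ne) : (⊤ : ℝ≥0∞) ≠ ⊤ ∨ Dinf η ^ 2 ≠ ⊤)
          simpa using this
        refine tendsto_of_tendsto_of_tendsto_of_le_of_le tendsto_const_nhds hup
          (fun m => zero_le) (fun m => ?_)
        exact ENNReal.div_le_div_right (pow_le_pow_left' (dd_le_Dinf hη _) 2) _
    rw [lintegral_zero] at hlim
    have hClim : Tendsto (fun m : ℕ => C / (m : ℝ≥0∞)) atTop (𝓝 0) := by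
      have := ENNReal.Tendsto.const_div ENNReal.tendsto_nat_nhds_top
        (Or.inr hCt : (⊤ : ℝ≥0∞) ≠ ⊤ ∨ C ≠ ⊤)
      simpa using this
    have hev := (((hlim.eventually (gt_mem_nhds hε2)).and
      (hClim.eventually (gt_mem_nhds hε2))).and (eventually_ge_atTop 1))
    obtain ⟨m₀, hm₀⟩ := eventually_atTop.1 hev
    refine ⟨m₀, fun m hm => ?_⟩
    obtain ⟨⟨h1, h2⟩, h3⟩ := hm₀ m hm
    have hm0 : (m : ℝ≥0∞) ≠ 0 := by
      have : m ≠ 0 := by omega
      exact_mod_cast this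
    have hmt : (m : ℝ≥0∞) ≠ ⊤ := ENNReal.natCast_ne_top m
    have h4 : ∫⁻ η, ENNReal.ofReal (dd (co η) (4 * m)) ^ 2 ∂lam ≤ ε / 2 * m := by
      have h5 : ∫⁻ η, ENNReal.ofReal (dd (co η) (4 * m)) ^ 2 / (m : ℝ≥0∞) ∂lam =
          (∫⁻ η, ENNReal.ofReal (dd (co η) (4 * m)) ^ 2 ∂lam) / m := by
        simp only [div_eq_mul_inv]
        rw [lintegral_mul_const]
        exact (ENNReal.measurable_ofReal.comp (dd_meas (4 * m))).pow_const 2
      rw [h5] at h1
      exact (ENNReal.div_le_iff hm0 hmt).1 h1.le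
    have h6 : C ≤ ε / 2 * m := (ENNReal.div_le_iff hm0 hmt).1 h2.le
    calc ∫⁻ z, ENNReal.ofReal (dd (co z.1) (T m (al z))) ^ 2 ∂(BZ lam)
        ≤ ∫⁻ η, ENNReal.ofReal (dd (co η) (4 * m)) ^ 2 ∂lam + C := hav m
      _ ≤ ε / 2 * m + ε / 2 * m := add_le_add h4 h6
      _ = (ε / 2 + ε / 2) * m := by ring
      _ = ε * m := by rw [ENNReal.add_halves]

end Pool.Agent.N276.BE
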