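import Pool.Agent.N276.ER.Def

/-!
# Excited random walk in i.i.d. cookie environments with non-negative drifts: definitions

A stack of cookies is `η : ℕ → ℝ`; `η i` is the probability of a step to the right at the
`(i+1)`-st visit to the site. The stacks are independent with law `lam`.
-/

set_option autoImplicit false

open MeasureTheory ProbabilityTheory Filter Topology Set
open scoped ENNReal

namespace Pool.Agent.N276.BE

open Pool.Agent.N276.ER

/-- (POS): all cookies have non-negative drift -/
def POS (lam : Measure (ℕ → ℝ)) : Prop := ∀ᵐ η ∂lam, ∀ i, 1 / 2 ≤ η i ∧ η i ≤ 1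

/-- `δ = E[∑ (2 η_i - 1)]`, the mean total drift of a stack, in `[0, ∞]` -/
noncomputable def delta (lam : Measure (ℕ → ℝ)) : ℝ≥0∞ :=
  ∫⁻ η, ∑' i, ENNReal.ofReal (2 * η i - 1) ∂lam

/-- `X` is an excited random walk started at `0` under the averaged law, the stacks of cookies being
independent with law `lam`: the probability of a path is the mean over the environment of the product
of its step probabilities. -/
structure IsERWIID {Ω : Type*} [MeasurableSpace Ω] (lam : Measure (ℕ → ℝ)) (P : Measure Ω)
    (X : ℕ → Ω → ℤ) : Prop where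
  prob : IsProbabilityMeasure P
  meas : ∀ n, Measurable (X n)
  law : ∀ (n : ℕ) (x : ℕ → ℤ), P {ω | ∀ k ≤ n, X k ω = x k} =
    if x 0 = 0 then ∫⁻ η : ℤ → ℕ → ℝ, ∏ k ∈ Finset.range n, ENNReal.ofReal (stepProb (η (x k)) x k)
      ∂(Measure.infinitePi fun _ : ℤ => lam) else 0

/-! ### arrows -/

/-- uniform random variables on `[0, 1]` -/
noncomputable abbrev UU : Measure (ℕ → ℝ) :=
  Measure.infinitePi fun _ => (volume : Measure ℝ).restrict (Set.Icc 0 1)

/-- arrows of a stack: `true` is a step to the right -/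
noncomputable def ar (z : (ℕ → ℝ) × (ℕ → ℝ)) : ℕ → Bool := fun i => decide (z.2 i < z.1 i)

/-- the reversed arrows: `true` is a step to the left -/
noncomputable def al (z : (ℕ → ℝ) × (ℕ → ℝ)) : ℕ → Bool := fun i => decide (z.1 i ≤ z.2 i)

/-- a stack of cookies and uniform random variables -/
noncomputable abbrev BZ (lam : Measure (ℕ → ℝ)) : Measure ((ℕ → ℝ) × (ℕ → ℝ)) := lam.prod UU

/-- the law of a stack of arrows (`true` is a step to the right) -/
noncomputable def LR (lam : Measure (ℕ → ℝ)) : Measure (ℕ → Bool) := (BZ lam).map ar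

/-- the law of a stack of reversed arrows (`true` is a step to the left) -/
noncomputable def LL (lam : Measure (ℕ → ℝ)) : Measure (ℕ → Bool) := (BZ lam).map al

/-- independent stacks of arrows, indexed by `ℤ` -/
noncomputable abbrev QL (lam : Measure (ℕ → ℝ)) : Measure (ℤ → ℕ → Bool) :=
  Measure.infinitePi fun _ => LR lam

/-- independent stacks of reversed arrows, indexed by `ℕ` -/
noncomputable abbrev RL (lam : Measure (ℕ → ℝ)) : Measure (ℕ → ℕ → Bool) :=
  Measure.infinitePi fun _ => LL lam

/-- the chain `D_{n-k}` of the numbers of steps to the left from `n - k` before the walk hits `n` -/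
noncomputable def W (s : ℕ → ℕ → Bool) : ℕ → ℕ
  | 0 => 0
  | k + 1 => U (W s k + 1) (s k)

/-- the same chain to the left of the origin -/
noncomputable def Yl (a : ℕ) (s : ℕ → ℕ → Bool) : ℕ → ℕ
  | 0 => a
  | k + 1 => U (Yl a s k) (s k)

/-- the sum of `1 - 2 q_i` over the first `t` trials -/
def dd (q : ℕ → ℝ) (t : ℕ) : ℝ := ∑ i ∈ Finset.range t, (1 - 2 * q i)

/-- probabilities of a step to the left -/
def co (η : ℕ → ℝ) : ℕ → ℝ := fun i => 1 - η i

/-- the mean drift used up to the `m`-th step to the right -/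
noncomputable def dm (lam : Measure (ℕ → ℝ)) (m : ℕ) : ℝ≥0∞ :=
  ∫⁻ z, ENNReal.ofReal (dd (co z.1) (T m (al z))) ∂(BZ lam)

/-- the Lyapunov function -/
noncomputable def f (A : ℝ) (x : ℝ) : ℝ := x ^ 2 - A * x ^ (3 / 2 : ℝ)

end Pool.Agent.N276.BE
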