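import Pool.Agent.N276.BE.Stm

/-!
# The chain to the left dies (helper519, for helper276; adapted from ER/Die.lean of helper773)
-/

set_option autoImplicit false

open MeasureTheory ProbabilityTheory Filter Topology Set
open scoped ENNReal

namespace Pool.Agent.N276.BE

open Pool.Agent.N276.ER (bern stackLaw fails T U neg)

namespace DieAux

theorem T_zero (s : ℕ → Bool) : T 0 s = 0 := by
  unfold T
  exact Nat.le_zero.1 (Nat.sInf_le (show (0 : ℕ) ∈ {n | 0 ≤ fails s n} from Nat.zero_le _))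

theorem U_zero (s : ℕ → Bool) : U 0 s = 0 := by
  unfold U
  rw [T_zero]

theorem Y_congr (a : ℕ) (k : ℕ) (s s' : ℕ → ℕ → Bool) (h : ∀ j < k, s j = s' j) :
    Yl a s k = Yl a s' k := by
  induction k with
  | zero => rfl
  | succ k ih =>
    simp only [Yl]
    rw [ih fun j hj => h j (by omega), h k (by omega)]

theorem Y_absorb (a : ℕ) (s : ℕ → ℕ → Bool) (k m : ℕ) (h : Yl a s k = 0) :
    Yl a s (k + m) = 0 := by
  induction m with
  | zero => exact h
  | succ m ih =>
    rw [← Nat.add_assoc]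
    simp only [Yl]
    rw [ih, U_zero]

theorem U_eq_zero (n : ℕ) (u : ℕ → Bool) (h : ∀ i < n, u i = false) : U n u = 0 := by
  have h1 : fails u n = n := by
    unfold fails
    rw [Finset.filter_true_of_mem, Finset.card_range]
    intro i hi
    exact h i (Finset.mem_range.1 hi)
  have h2 : T n u ≤ n := Nat.sInf_le (show n ∈ {m | n ≤ fails u m} from h1.ge)
  unfold U
  omega

theorem bern_false (q : ℝ) : bern q {false} = ENNReal.ofReal (1 - q) := by
  unfold bern
  simp

theorem isProb_bern {q : ℝ} (h0 : 0 ≤ q) (h1 : q ≤ 1) : IsProbabilityMeasure (bern q) := by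
  refine ⟨?_⟩
  unfold bern
  simp only [Measure.coe_add, Measure.coe_smul, Pi.add_apply, Pi.smul_apply, measure_univ,
    smul_eq_mul, mul_one]
  rw [← ENNReal.ofReal_add h0 (by linarith)]
  simp

theorem prob_q (q : ℕ → ℝ) (hq : HQ q) (n : ℕ) :
    ENNReal.ofReal (1 / 2) ^ n ≤ (stackLaw q) {u | ∀ i < n, u i = false} := by
  have hb : ∀ i, IsProbabilityMeasure (bern (q i)) := fun i =>
    isProb_bern (hq i).1 (by linarith [(hq i).2])
  have h1 : (stackLaw q) (Set.pi (Finset.range n : Set ℕ) fun _ => ({false} : Set Bool)) =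
      ∏ i ∈ Finset.range n, bern (q i) {false} :=
    Measure.infinitePi_pi (μ := fun i => bern (q i)) (s := Finset.range n)
      (t := fun _ => ({false} : Set Bool)) (fun i _ => measurableSet_singleton false)
  have h2 : Set.pi (Finset.range n : Set ℕ) (fun _ => ({false} : Set Bool)) ⊆
      {u : ℕ → Bool | ∀ i < n, u i = false} := by
    intro u hu i hi
    simpa using hu i (by simpa using hi)
  refine le_trans ?_ (measure_mono h2)
  rw [h1]
  calc ENNReal.ofReal (1 / 2) ^ n = ∏ _i ∈ Finset.range n, ENNReal.ofReal (1 / 2) := by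
        rw [Finset.prod_const, Finset.card_range]
    _ ≤ ∏ i ∈ Finset.range n, bern (q i) {false} := by
        refine Finset.prod_le_prod' fun i _ => ?_
        rw [bern_false]
        exact ENNReal.ofReal_le_ofReal (by linarith [(hq i).2])

theorem prob_zero (hMe : StmMeas) (hX : StmMix) (lam : Measure (ℕ → ℝ))
    (hl : IsProbabilityMeasure lam) (hP : POS lam) (n : ℕ) :
    ENNReal.ofReal (1 / 2) ^ n ≤ (LL lam) {u | U n u = 0} := by
  obtain ⟨-, hal, -⟩ := hMe
  obtain ⟨hHQ, -, -, hmix⟩ := hX lam hl hP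
  have hS : MeasurableSet {u : ℕ → Bool | ∀ i < n, u i = false} := by
    have h1 : {u : ℕ → Bool | ∀ i < n, u i = false} =
        ⋂ i ∈ Finset.range n, {u : ℕ → Bool | u i = false} := by
      ext u
      simp
    rw [h1]
    refine Finset.measurableSet_biInter _ fun i _ => ?_
    have h3 : {u : ℕ → Bool | u i = false} = (fun u : ℕ → Bool => u i) ⁻¹' {false} := rfl
    rw [h3]
    exact (measurable_pi_apply i) (measurableSet_singleton false)
  have h2 : {u : ℕ → Bool | ∀ i < n, u i = false} ⊆ {u | U n u = 0} :=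
    fun u hu => U_eq_zero n u hu
  refine le_trans ?_ (measure_mono h2)
  unfold LL
  rw [Measure.map_apply hal hS]
  have h3 : (BZ lam) (al ⁻¹' {u : ℕ → Bool | ∀ i < n, u i = false}) =
      ∫⁻ z, ({u : ℕ → Bool | ∀ i < n, u i = false}).indicator (fun _ => (1 : ℝ≥0∞)) (al z)
        ∂(BZ lam) := by
    rw [← lintegral_indicator_one (hal hS)]
    rfl
  rw [h3]
  have h4 := hmix (fun _ s => ({u : ℕ → Bool | ∀ i < n, u i = false}).indicator
    (fun _ => (1 : ℝ≥0∞)) s) ((measurable_const.indicator hS).comp measurable_snd)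
  rw [h4]
  calc ENNReal.ofReal (1 / 2) ^ n = ∫⁻ _η, ENNReal.ofReal (1 / 2) ^ n ∂lam := by
        rw [lintegral_const, measure_univ, mul_one]
    _ ≤ _ := by
        refine lintegral_mono_ae ?_
        filter_upwards [hHQ] with η hη
        rw [lintegral_indicator_const hS, one_mul]
        exact prob_q (co η) hη n

theorem mean_le (hMn : StmMean) (lam : Measure (ℕ → ℝ)) (hl : IsProbabilityMeasure lam)
    (hP : POS lam) (m : ℕ) : ∫⁻ u, (U m u : ℝ≥0∞) ∂(LL lam) ≤ m := by
  obtain ⟨h1, -, -, -, h2⟩ := hMn lam hl hP m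
  have h3 : ∫⁻ u, (U m u : ℝ≥0∞) ∂(LL lam) = ENNReal.ofReal (∫ u, (U m u : ℝ) ∂(LL lam)) := by
    rw [ofReal_integral_eq_lintegral_ofReal h1
      (Filter.Eventually.of_forall fun u => Nat.cast_nonneg _)]
    refine lintegral_congr fun u => ?_
    rw [ENNReal.ofReal_natCast]
  rw [h3, h2]
  calc ENNReal.ofReal (m - (dm lam m).toReal) ≤ ENNReal.ofReal m :=
        ENNReal.ofReal_le_ofReal (by linarith [ENNReal.toReal_nonneg (a := dm lam m)])
    _ = m := ENNReal.ofReal_natCast m

end DieAux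

open DieAux in
theorem die : StmMeas → StmMix → StmMarkov → StmMean → StmDie := by
  intro hMe hX hMk hMn lam hl hP a
  obtain ⟨-, -, -, hUm, -, -, -, hYm, -⟩ := id hMe
  have hLL : IsProbabilityMeasure (LL lam) := (hX lam hl hP).2.2.1
  have hM := hMk (LL lam) hLL
  have hL := mean_le hMn lam hl hP
  have hZ := prob_zero hMe hX lam hl hP
  -- the mean
  have hmean : ∀ k, ∫⁻ s, (Yl a s k : ℝ≥0∞) ∂(RL lam) ≤ a := by
    intro k
    induction k with
    | zero => simp [Yl]
    | succ k ih =>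
      have h1 := hM k (fun s => Yl a s k) (fun n u => (U n u : ℝ≥0∞)) (hYm a k)
        (fun s s' h => Y_congr a k s s' h)
        (fun n => (measurable_of_countable (fun m : ℕ => (m : ℝ≥0∞))).comp (hUm n))
      calc ∫⁻ s, (Yl a s (k + 1) : ℝ≥0∞) ∂(RL lam)
          = ∫⁻ s, (U (Yl a s k) (s k) : ℝ≥0∞) ∂(RL lam) := rfl
        _ = ∫⁻ s, ∫⁻ u, (U (Yl a s k) u : ℝ≥0∞) ∂(LL lam) ∂(RL lam) := h1
        _ ≤ ∫⁻ s, (Yl a s k : ℝ≥0∞) ∂(RL lam) := lintegral_mono fun s => hL _
        _ ≤ a := ih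
  -- the events
  let E : ℕ → ℕ → Set (ℕ → ℕ → Bool) := fun K k => {s | 1 ≤ Yl a s k ∧ Yl a s k ≤ K}
  let D : ℕ → Set (ℕ → ℕ → Bool) := fun k => {s | 1 ≤ Yl a s k ∧ Yl a s (k + 1) = 0}
  have hEm : ∀ K k, MeasurableSet (E K k) := fun K k =>
    (hYm a k) (t := {m | 1 ≤ m ∧ m ≤ K}) trivial
  have hDm : ∀ k, MeasurableSet (D k) := fun k =>
    ((hYm a k) (t := {m | 1 ≤ m}) trivial).inter ((hYm a (k + 1)) (t := {m | m = 0}) trivial)
  have hDdisj : Pairwise (Function.onFun Disjoint D) := by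
    have key : ∀ i j, i < j → Disjoint (D i) (D j) := by
      intro i j hij
      refine Set.disjoint_left.2 fun s hi hj => ?_
      have h := Y_absorb a s (i + 1) (j - (i + 1)) hi.2
      rw [show i + 1 + (j - (i + 1)) = j by omega] at h
      have := hj.1
      omega
    intro i j hij
    rcases lt_or_gt_of_ne hij with h | h
    · exact key i j h
    · exact (key j i h).symm
  have hsumD : ∑' k, (RL lam) (D k) ≤ 1 := by
    rw [← measure_iUnion hDdisj hDm]
    exact prob_le_one
  have hDE : ∀ K k, ENNReal.ofReal (1 / 2) ^ K * (RL lam) (E K k) ≤ (RL lam) (D k) := by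
    intro K k
    have hgm : ∀ n : ℕ, Measurable (fun u : ℕ → Bool =>
        ({u : ℕ → Bool | 1 ≤ n ∧ U n u = 0}).indicator (fun _ => (1 : ℝ≥0∞)) u) := by
      intro n
      refine measurable_const.indicator ?_
      by_cases hn : 1 ≤ n
      · simp only [hn, true_and]
        exact (hUm n) (t := {m | m = 0}) trivial
      · simp only [hn, false_and]
        exact MeasurableSet.empty
    have h1 := hM k (fun s => Yl a s k)
      (fun n u => ({u : ℕ → Bool | 1 ≤ n ∧ U n u = 0}).indicator (fun _ => (1 : ℝ≥0∞)) u)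
      (hYm a k) (fun s s' h => Y_congr a k s s' h) hgm
    have h2 : (RL lam) (D k) = ∫⁻ s, ({u : ℕ → Bool | 1 ≤ Yl a s k ∧
        U (Yl a s k) u = 0}).indicator (fun _ => (1 : ℝ≥0∞)) (s k) ∂(RL lam) := by
      rw [← lintegral_indicator_one (hDm k)]
      refine lintegral_congr fun s => ?_
      by_cases hs : s ∈ D k
      · rw [Set.indicator_of_mem hs, Set.indicator_of_mem]
        · rfl
        · exact hs
      · rw [Set.indicator_of_notMem hs, Set.indicator_of_notMem]
        exact hs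
    rw [h2, h1]
    have h3 : ENNReal.ofReal (1 / 2) ^ K * (RL lam) (E K k) =
        ∫⁻ s, (E K k).indicator (fun _ => ENNReal.ofReal (1 / 2) ^ K) s ∂(RL lam) := by
      rw [lintegral_indicator_const (hEm K k)]
    rw [h3]
    refine lintegral_mono fun s => ?_
    by_cases hs : s ∈ E K k
    · rw [Set.indicator_of_mem hs]
      have hms : MeasurableSet {u : ℕ → Bool | 1 ≤ Yl a s k ∧ U (Yl a s k) u = 0} := by
        have h5 : {u : ℕ → Bool | 1 ≤ Yl a s k ∧ U (Yl a s k) u = 0} =
            {u | U (Yl a s k) u = 0} := by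
          ext u
          exact ⟨fun h => h.2, fun h => ⟨hs.1, h⟩⟩
        rw [h5]
        exact (hUm (Yl a s k)) (t := {m | m = 0}) trivial
      have h4 : ∫⁻ u, ({u : ℕ → Bool | 1 ≤ Yl a s k ∧
          U (Yl a s k) u = 0}).indicator (fun _ => (1 : ℝ≥0∞)) u ∂(LL lam) =
          (LL lam) {u | U (Yl a s k) u = 0} := by
        have h5 : {u : ℕ → Bool | 1 ≤ Yl a s k ∧ U (Yl a s k) u = 0} =
            {u | U (Yl a s k) u = 0} := by
          ext u
          exact ⟨fun h => h.2, fun h => ⟨hs.1, h⟩⟩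
        rw [lintegral_indicator_const hms, one_mul, h5]
      show ENNReal.ofReal (1 / 2) ^ K ≤ _
      rw [h4]
      refine le_trans ?_ (hZ (Yl a s k))
      exact pow_le_pow_right_of_le_one' (by
        rw [← ENNReal.ofReal_one]
        exact ENNReal.ofReal_le_ofReal (by norm_num)) hs.2
    · rw [Set.indicator_of_notMem hs]
      exact zero_le
  have hE0 : ∀ K, Tendsto (fun k => (RL lam) (E K k)) atTop (𝓝 0) := by
    intro K
    refine ENNReal.tendsto_atTop_zero_of_tsum_ne_top ?_
    have hp : ENNReal.ofReal (1 / 2) ^ K ≠ 0 := by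
      refine pow_ne_zero _ ?_
      simp
    have hp' : ENNReal.ofReal (1 / 2) ^ K ≠ ∞ := ENNReal.pow_ne_top ENNReal.ofReal_ne_top
    have h1 : ENNReal.ofReal (1 / 2) ^ K * ∑' k, (RL lam) (E K k) ≤ 1 := by
      rw [← ENNReal.tsum_mul_left]
      exact (ENNReal.tsum_le_tsum fun k => hDE K k).trans hsumD
    intro htop
    rw [htop, ENNReal.mul_top hp] at h1
    exact absurd h1 (by simp)
  -- the conclusion
  let B : Set (ℕ → ℕ → Bool) := {s | ∀ k, 1 ≤ Yl a s k}
  have hB : (RL lam) B = 0 := by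
    have h1 : ∀ K : ℕ, (RL lam) B ≤ (a : ℝ≥0∞) / ((K : ℝ≥0∞) + 1) := by
      intro K
      have h2 : ∀ k, (RL lam) B ≤ (RL lam) (E K k) + (a : ℝ≥0∞) / ((K : ℝ≥0∞) + 1) := by
        intro k
        have h3 : B ⊆ E K k ∪ {s | (K : ℝ≥0∞) + 1 ≤ (Yl a s k : ℝ≥0∞)} := by
          intro s hs
          by_cases h : Yl a s k ≤ K
          · exact Or.inl ⟨hs k, h⟩
          · right
            have : K + 1 ≤ Yl a s k := by omega
            show (K : ℝ≥0∞) + 1 ≤ (Yl a s k : ℝ≥0∞)
            exact_mod_cast this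
        refine (measure_mono h3).trans ((measure_union_le _ _).trans ?_)
        gcongr
        have hYE : Measurable fun s : ℕ → ℕ → Bool => (Yl a s k : ℝ≥0∞) :=
          (measurable_of_countable (fun m : ℕ => (m : ℝ≥0∞))).comp (hYm a k)
        refine (meas_ge_le_lintegral_div hYE.aemeasurable (by simp) (by
          exact ENNReal.add_ne_top.2 ⟨ENNReal.natCast_ne_top K, ENNReal.one_ne_top⟩)).trans ?_
        exact ENNReal.div_le_div_right (hmean k) _
      have h4 : Tendsto (fun k => (RL lam) (E K k) + (a : ℝ≥0∞) / ((K : ℝ≥0∞) + 1)) atTop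
          (𝓝 (0 + (a : ℝ≥0∞) / ((K : ℝ≥0∞) + 1))) := (hE0 K).add tendsto_const_nhds
      rw [zero_add] at h4
      exact ge_of_tendsto' h4 h2
    have h5 : Tendsto (fun K : ℕ => (a : ℝ≥0∞) / ((K : ℝ≥0∞) + 1)) atTop (𝓝 0) := by
      have h6 : Tendsto (fun K : ℕ => (K : ℝ≥0∞) + 1) atTop (𝓝 ∞) := by
        have : Tendsto (fun K : ℕ => ((K + 1 : ℕ) : ℝ≥0∞)) atTop (𝓝 ∞) :=
          (tendsto_add_atTop_iff_nat 1).2 ENNReal.tendsto_nat_nhds_top
        simpa using this
      have h7 := ENNReal.Tendsto.const_div (a := (a : ℝ≥0∞)) h6 (Or.inr (ENNReal.natCast_ne_top a))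
      simpa using h7
    exact le_antisymm (ge_of_tendsto' h5 h1) zero_le
  rw [ae_iff]
  refine measure_mono_null ?_ hB
  intro s hs
  simp only [Set.mem_ofPred_eq, not_exists] at hs
  intro k
  exact Nat.one_le_iff_ne_zero.2 (hs k)

end Pool.Agent.N276.BE
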