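import Pool.Agent.N276.BE.Stm

/-!
# Infinitely many steps to the right at every site (helper989, for helper276)
-/

set_option autoImplicit false

open MeasureTheory ProbabilityTheory Filter Topology Set
open scoped ENNReal

namespace Pool.Agent.N276.BE

open Pool.Agent.N276.ER

namespace GoodAux

theorem meas_fails (n : ℕ) : Measurable fun s : ℕ → Bool => fails s n := by
  unfold fails
  simp only [Finset.card_filter]
  refine Finset.measurable_sum _ fun i _ => ?_
  exact (Measurable.of_discrete (f := fun b : Bool => if b = false then 1 else 0)).comp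
    (measurable_pi_apply i)

/-- the stacks with infinitely many failures -/
def B : Set (ℕ → Bool) := {s | ∀ m, ∃ n, m ≤ fails s n}

theorem meas_B : MeasurableSet B := by
  have h : B = ⋂ m : ℕ, ⋃ n : ℕ, {s | m ≤ fails s n} := by
    ext s
    simp [B]
  rw [h]
  exact MeasurableSet.iInter fun m => MeasurableSet.iUnion fun n =>
    measurableSet_le measurable_const (meas_fails n)

theorem LL_B (hM : StmMeas) (hX : StmMix) (hQ : StmQMom) (lam : Measure (ℕ → ℝ))
    (hl : IsProbabilityMeasure lam) (hp : POS lam) : (LL lam) Bᶜ = 0 := by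
  obtain ⟨-, hal, -⟩ := hM
  obtain ⟨hae, -, -, hmix⟩ := hX lam hl hp
  have h1 : (LL lam) Bᶜ = ∫⁻ z, Bᶜ.indicator (fun _ => (1 : ℝ≥0∞)) (al z) ∂(BZ lam) := by
    rw [LL, ← lintegral_map (measurable_const.indicator meas_B.compl) hal,
      lintegral_indicator_const meas_B.compl, one_mul]
  have h2 := hmix (fun _ s => Bᶜ.indicator (fun _ => (1 : ℝ≥0∞)) s)
    ((measurable_const.indicator meas_B.compl).comp measurable_snd)
  rw [h1, h2]
  have h3 : (fun η => ∫⁻ s, Bᶜ.indicator (fun _ => (1 : ℝ≥0∞)) s ∂(stackLaw (co η))) =ᵐ[lam]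
      fun _ => 0 := by
    filter_upwards [hae] with η hη
    have h4 : (stackLaw (co η)) Bᶜ = 0 := (hQ.1 (co η) hη).2
    rw [lintegral_indicator_const meas_B.compl, h4, mul_zero]
  rw [lintegral_congr_ae h3, lintegral_zero]

theorem push (hP : StmPush) (lam : Measure (ℕ → ℝ)) (hl : IsProbabilityMeasure lam)
    (hLL : IsProbabilityMeasure (LL lam)) (hneg : Measurable neg) (hp : POS lam) (y : ℤ) :
    Measure.map (fun ω : ℤ → ℕ → Bool => neg (ω y)) (QL lam) = LL lam := by
  have h := hP lam hl hp (fun k => y + k) (fun a b hab => by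
    have : y + (a : ℤ) = y + b := hab
    omega)
  have h1 : Measure.map (fun s : ℕ → ℕ → Bool => s 0) (RL lam) = LL lam :=
    (measurePreserving_eval_infinitePi (fun _ : ℕ => LL lam) 0).map_eq
  have hm : Measurable fun (ω : ℤ → ℕ → Bool) (k : ℕ) => neg (ω (y + k)) :=
    measurable_pi_lambda _ fun k => hneg.comp (measurable_pi_apply _)
  rw [← h, Measure.map_map (measurable_pi_apply 0) hm] at h1
  rw [← h1]
  congr 1
  funext ω
  simp

end GoodAux

open GoodAux in
theorem good : StmMeas → StmMix → StmQMom → StmPush → StmGood := by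
  intro hM hX hQ hP lam hl hp
  rw [ae_all_iff]
  intro y
  have hLL := (hX lam hl hp).2.2.1
  have hneg := hM.2.2.2.2.1
  have h1 := LL_B hM hX hQ lam hl hp
  have hm : Measurable fun ω : ℤ → ℕ → Bool => neg (ω y) := hneg.comp (measurable_pi_apply y)
  rw [← push hP lam hl hLL hneg hp y, Measure.map_apply hm meas_B.compl] at h1
  exact h1

end Pool.Agent.N276.BE
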