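import Pool.Agent.N276.BE.Stm

/-!
# If `δ > 2` then the speed is not zero (helper31)
-/

set_option autoImplicit false

open MeasureTheory ProbabilityTheory Filter Topology Set
open scoped ENNReal

namespace Pool.Agent.N276.BE

open Pool.Agent.N276.ER

namespace HighAux

theorem X_le (ω : ℤ → ℕ → Bool) (n : ℕ) : X ω n ≤ n := by
  induction n with
  | zero => simp [X, st]
  | succ n ih =>
    have h : X ω (n + 1) = X ω n + (if ω (X ω n) ((st ω n).2 (X ω n)) then 1 else -1) := rfl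
    rw [h]
    split_ifs <;> push_cast <;> omega

/-- an increasing sequence of events, one of which occurs a.s. -/
theorem small {α : Type*} [MeasurableSpace α] (μ : Measure α) [IsProbabilityMeasure μ]
    (P : ℕ → α → Prop) (hm : ∀ N, MeasurableSet {x | P N x})
    (hmono : ∀ N M x, N ≤ M → P N x → P M x)
    (h : ∀ᵐ x ∂μ, ∃ N, P N x) : ∃ N, μ {x | ¬ P N x} ≤ 1 / 8 := by
  have h1 : Tendsto (fun N => μ {x | ¬ P N x}) atTop (𝓝 (μ (⋂ N, {x | ¬ P N x}))) := by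
    refine tendsto_measure_iInter_atTop (fun N => (hm N).compl.nullMeasurableSet) ?_
      ⟨0, measure_ne_top _ _⟩
    intro N M hNM x hx
    exact fun h => hx (hmono N M x hNM h)
  have h2 : μ (⋂ N, {x | ¬ P N x}) = 0 := by
    have h3 : (⋂ N, {x | ¬ P N x}) = {x | ¬ ∃ N, P N x} := by
      ext x
      simp
    rw [h3]
    exact ae_iff.1 h
  rw [h2] at h1
  have h3 := h1.eventually (gt_mem_nhds (show (0 : ℝ≥0∞) < 1 / 8 by simp))
  obtain ⟨N, hN⟩ := h3.exists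
  exact ⟨N, hN.le⟩

theorem exists_mean {w : ℕ → ℝ≥0∞} {c : ℕ}
    (h : ∀ n : ℕ, ∑ k ∈ Finset.range n, w (k + 1) ≤ c * n) (n₁ : ℕ) :
    ∃ n, n₁ ≤ n ∧ 1 ≤ n ∧ w n ≤ ((2 * c + 1 : ℕ) : ℝ≥0∞) := by
  by_contra hc
  push Not at hc
  have h1 : ∑ k ∈ Finset.range (2 * (n₁ + 1)), w (k + 1) ≤ c * ((2 * (n₁ + 1) : ℕ) : ℝ≥0∞) := h _
  have h2 : ((n₁ + 1 : ℕ) : ℝ≥0∞) * ((2 * c + 1 : ℕ) : ℝ≥0∞) ≤
      ∑ k ∈ Finset.Ico (n₁ + 1) (2 * (n₁ + 1)), w (k + 1) := by
    calc ((n₁ + 1 : ℕ) : ℝ≥0∞) * ((2 * c + 1 : ℕ) : ℝ≥0∞)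
        = ∑ k ∈ Finset.Ico (n₁ + 1) (2 * (n₁ + 1)), ((2 * c + 1 : ℕ) : ℝ≥0∞) := by
          rw [Finset.sum_const, Nat.card_Ico, nsmul_eq_mul]
          congr 2
          omega
      _ ≤ _ := Finset.sum_le_sum fun k hk => by
          have hk1 := (Finset.mem_Ico.1 hk).1
          exact (hc (k + 1) (by omega) (by omega)).le
  have h3 : ∑ k ∈ Finset.Ico (n₁ + 1) (2 * (n₁ + 1)), w (k + 1) ≤
      ∑ k ∈ Finset.range (2 * (n₁ + 1)), w (k + 1) := by
    refine Finset.sum_le_sum_of_subset ?_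
    intro x hx
    rw [Finset.mem_Ico] at hx
    exact Finset.mem_range.2 hx.2
  have h4 := (h2.trans h3).trans h1
  have h6 : (n₁ + 1) * (2 * c + 1) ≤ c * (2 * (n₁ + 1)) := by
    rw [← Nat.cast_mul, ← Nat.cast_mul] at h4
    exact Nat.cast_le.1 h4
  nlinarith

theorem markov {α : Type*} [MeasurableSpace α] (μ : Measure α) (f : α → ℕ) (hf : Measurable f)
    (b t : ℕ) (hb : ∫⁻ x, (f x : ℝ≥0∞) ∂μ ≤ b) (ht : 1 ≤ t) (hbt : 8 * b ≤ t) :
    μ {x | t ≤ f x} ≤ 1 / 8 := by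
  have h1 := meas_ge_le_lintegral_div (μ := μ) (f := fun x => (f x : ℝ≥0∞)) (ε := (t : ℝ≥0∞))
    ((measurable_from_nat (f := fun n : ℕ => (n : ℝ≥0∞))).comp hf).aemeasurable
    (by simpa using Nat.one_le_iff_ne_zero.1 ht) (by simp)
  have h2 : {x | t ≤ f x} = {x | (t : ℝ≥0∞) ≤ (f x : ℝ≥0∞)} := by
    ext x
    simp
  rw [h2]
  refine h1.trans ?_
  rw [ENNReal.div_le_iff (by simpa using Nat.one_le_iff_ne_zero.1 ht) (by simp)]
  refine hb.trans ?_
  have h3 : (8 : ℝ≥0∞) * b ≤ t := by exact_mod_cast hbt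
  calc (b : ℝ≥0∞) = 1 / 8 * (8 * b) := by
        rw [← mul_assoc, ENNReal.div_mul_cancel (by simp) (by simp), one_mul]
    _ ≤ 1 / 8 * t := by gcongr

end HighAux

open HighAux in
/-- **the speed is not zero if `δ > 2`** -/
theorem high : StmMeas → StmMix → StmPush → StmGood → StmChainUp → StmDie → StmPathUp →
    StmHigh := by
  intro hmeas hmix hpush hgood hup hdie hpath lam hlam hpos hdel h0
  obtain ⟨-, -, -, -, hneg, hX, hW, hYl, -⟩ := hmeas
  obtain ⟨-, hLR, hLL, -⟩ := hmix lam hlam hpos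
  have hQ : IsProbabilityMeasure (QL lam) := inferInstance
  have hR : IsProbabilityMeasure (RL lam) := inferInstance
  obtain ⟨C, hC, hCn⟩ := hup lam hlam hpos hdel
  obtain ⟨c, hc⟩ := ENNReal.exists_nat_gt hC
  have hcn : ∀ n : ℕ, ∫⁻ s, ((∑ k ∈ Finset.range n, W s (k + 1) : ℕ) : ℝ≥0∞) ∂(RL lam) ≤ c * n :=
    fun n => (hCn n).trans (by gcongr)
  have hSm : ∀ n : ℕ, Measurable fun s : ℕ → ℕ → Bool => ∑ k ∈ Finset.range n, W s (k + 1) :=
    fun n => Finset.measurable_sum _ fun k _ => hW (k + 1)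
  have hmean : ∀ n₁ : ℕ, ∃ n, n₁ ≤ n ∧ 1 ≤ n ∧
      ∫⁻ s, (W s n : ℝ≥0∞) ∂(RL lam) ≤ ((2 * c + 1 : ℕ) : ℝ≥0∞) := by
    refine exists_mean (w := fun n => ∫⁻ s, (W s n : ℝ≥0∞) ∂(RL lam)) (c := c) fun n => ?_
    refine le_trans (le_of_eq ?_) (hcn n)
    rw [← lintegral_finsetSum]
    · refine lintegral_congr fun s => ?_
      push_cast
      rfl
    · intro k _
      exact (measurable_from_nat (f := fun n : ℕ => (n : ℝ≥0∞))).comp (hW (k + 1))
  set a : ℕ := 8 * (2 * c + 1) with ha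
  set M : ℕ := 8 * (c + 1) with hM
  -- the chain to the left
  obtain ⟨L, hL⟩ := small (RL lam)
    (fun L s => ∃ K, Yl a s K = 0 ∧ ∑ k ∈ Finset.range K, Yl a s (k + 1) ≤ L)
    (fun L => by
      simp only [Set.ofPred_exists]
      refine MeasurableSet.iUnion fun K => ?_
      refine MeasurableSet.inter (hYl a K (measurableSet_singleton 0)) ?_
      exact measurableSet_le (Finset.measurable_sum _ fun k _ => hYl a (k + 1)) measurable_const)
    (fun L L' s hLL' ⟨K, h1, h2⟩ => ⟨K, h1, h2.trans hLL'⟩)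
    (by
      filter_upwards [hdie lam hlam hpos a] with s hs
      obtain ⟨K, hK⟩ := hs
      exact ⟨_, K, hK, le_rfl⟩)
  set B : ℕ := 1 + 2 * M + 2 * L with hB
  -- the walk is slow
  obtain ⟨N, hN⟩ := small (QL lam)
    (fun N ω => ∀ t : ℕ, N ≤ t → 2 * (B : ℤ) * X ω t ≤ t)
    (fun N => by
      simp only [Set.ofPred_forall]
      refine MeasurableSet.iInter fun t => MeasurableSet.iInter fun _ => ?_
      exact measurableSet_le ((measurable_from_top (f := fun z : ℤ => 2 * (B : ℤ) * z)).comp (hX t))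
        measurable_const)
    (fun N N' ω hNN' h t ht => h t (hNN'.trans ht))
    (by
      filter_upwards [h0] with ω hω
      have hB0 : (0 : ℝ) < 1 / (2 * B) := by
        have : (0 : ℝ) < B := by
          rw [hB]
          positivity
        positivity
      have h1 := hω.eventually (gt_mem_nhds hB0)
      obtain ⟨N, hN⟩ := eventually_atTop.1 h1
      refine ⟨max N 1, fun t ht => ?_⟩
      have h2 := hN t (le_trans (le_max_left _ _) ht)
      have ht0 : (0 : ℝ) < t := by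
        have : 1 ≤ t := le_trans (le_max_right _ _) ht
        exact_mod_cast this
      have hB1 : (0 : ℝ) < 2 * B := by
        have : (0 : ℝ) < B := by
          rw [hB]
          positivity
        positivity
      rw [div_lt_div_iff₀ ht0 hB1] at h2
      have h3 : 2 * (B : ℝ) * (X ω t : ℝ) ≤ t := by linarith
      exact_mod_cast h3)
  obtain ⟨n, hn, hn1, hWn⟩ := hmean N
  -- the events
  have hphi : Function.Injective fun k : ℕ => (n : ℤ) - 1 - k := by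
    intro i j hij
    have : (n : ℤ) - 1 - i = (n : ℤ) - 1 - j := hij
    omega
  have hpsi : Function.Injective fun k : ℕ => -((k : ℤ) + 1) := by
    intro i j hij
    have : -((i : ℤ) + 1) = -((j : ℤ) + 1) := hij
    omega
  have hmm : ∀ φ : ℕ → ℤ, Measurable fun (ω : ℤ → ℕ → Bool) (k : ℕ) => neg (ω (φ k)) :=
    fun φ => measurable_pi_lambda _ fun k => hneg.comp (measurable_pi_apply _)
  have htr : ∀ φ : ℕ → ℤ, Function.Injective φ → ∀ E : Set (ℕ → ℕ → Bool),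
      (QL lam) ((fun (ω : ℤ → ℕ → Bool) (k : ℕ) => neg (ω (φ k))) ⁻¹' E) ≤ (RL lam) E := by
    intro φ hφ E
    rw [← hpush lam hlam hpos φ hφ]
    exact Measure.le_map_apply (hmm φ).aemeasurable E
  have e1 : (QL lam) ((fun (ω : ℤ → ℕ → Bool) (k : ℕ) => neg (ω ((n : ℤ) - 1 - k))) ⁻¹'
      {s | M * n ≤ ∑ k ∈ Finset.range n, W s (k + 1)}) ≤ 1 / 8 := by
    refine (htr (fun k : ℕ => (n : ℤ) - 1 - k) hphi _).trans ?_
    refine markov _ _ (hSm n) (c * n) (M * n) ?_ ?_ ?_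
    · push_cast
      have := hcn n
      push_cast at this
      exact this
    · rw [hM]
      nlinarith
    · rw [hM]
      nlinarith
  have e2 : (QL lam) ((fun (ω : ℤ → ℕ → Bool) (k : ℕ) => neg (ω ((n : ℤ) - 1 - k))) ⁻¹'
      {s | a ≤ W s n}) ≤ 1 / 8 := by
    refine (htr (fun k : ℕ => (n : ℤ) - 1 - k) hphi _).trans ?_
    refine markov _ _ (hW n) (2 * c + 1) a hWn ?_ ?_
    · omega
    · omega
  have e3 : (QL lam) ((fun (ω : ℤ → ℕ → Bool) (k : ℕ) => neg (ω (-((k : ℤ) + 1)))) ⁻¹'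
      {s | ¬ ∃ K, Yl a s K = 0 ∧ ∑ k ∈ Finset.range K, Yl a s (k + 1) ≤ L}) ≤ 1 / 8 :=
    (htr (fun k : ℕ => -((k : ℤ) + 1)) hpsi _).trans hL
  set E1 := (fun (ω : ℤ → ℕ → Bool) (k : ℕ) => neg (ω ((n : ℤ) - 1 - k))) ⁻¹'
      {s | M * n ≤ ∑ k ∈ Finset.range n, W s (k + 1)} with hE1
  set E2 := (fun (ω : ℤ → ℕ → Bool) (k : ℕ) => neg (ω ((n : ℤ) - 1 - k))) ⁻¹'
      {s | a ≤ W s n} with hE2
  set E3 := (fun (ω : ℤ → ℕ → Bool) (k : ℕ) => neg (ω (-((k : ℤ) + 1)))) ⁻¹'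
      {s | ¬ ∃ K, Yl a s K = 0 ∧ ∑ k ∈ Finset.range K, Yl a s (k + 1) ≤ L} with hE3
  set E4 := {ω : ℤ → ℕ → Bool | ¬ ∀ t : ℕ, N ≤ t → 2 * (B : ℤ) * X ω t ≤ t} with hE4
  have hall : ∀ᵐ ω ∂(QL lam), ω ∈ (E1 ∪ E2) ∪ (E3 ∪ E4) := by
    filter_upwards [hgood lam hlam hpos] with ω hω
    by_contra hcon
    simp only [Set.mem_union, not_or] at hcon
    obtain ⟨⟨c1, c2⟩, c3, c4⟩ := hcon
    have c1' : ∑ k ∈ Finset.range n, W (fun k => neg (ω ((n : ℤ) - 1 - k))) (k + 1) < M * n :=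
      not_le.1 c1
    have c2' : W (fun k => neg (ω ((n : ℤ) - 1 - k))) n < a := not_le.1 c2
    have c3' : ∃ K, Yl a (fun k => neg (ω (-((k : ℤ) + 1)))) K = 0 ∧
        ∑ k ∈ Finset.range K, Yl a (fun k => neg (ω (-((k : ℤ) + 1)))) (k + 1) ≤ L :=
      not_not.1 c3
    have c4' : ∀ t : ℕ, N ≤ t → 2 * (B : ℤ) * X ω t ≤ t := not_not.1 c4
    obtain ⟨K, hK0, hKL⟩ := c3'
    obtain ⟨t, ht, hXt⟩ := hpath ω hω n a K c2'.le hK0
    have htB : t ≤ B * n := by
      rw [hB]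
      nlinarith
    by_cases htN : N ≤ t
    · have h1 := c4' t htN
      rw [hXt] at h1
      have h2 : 2 * B * n ≤ t := by exact_mod_cast h1
      have hB1 : 1 ≤ B := by omega
      nlinarith
    · have h1 := X_le ω t
      rw [hXt] at h1
      have h2 : n ≤ t := by exact_mod_cast h1
      omega
  have h1 : (QL lam) ((E1 ∪ E2) ∪ (E3 ∪ E4)) = 1 := by
    rw [← measure_univ (μ := QL lam)]
    exact measure_congr (eventuallyEq_univ.2 hall)
  have h2 : (QL lam) ((E1 ∪ E2) ∪ (E3 ∪ E4)) ≤ (1 / 8 + 1 / 8) + (1 / 8 + 1 / 8) := by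
    refine (measure_union_le _ _).trans (add_le_add ?_ ?_)
    · exact (measure_union_le _ _).trans (add_le_add e1 e2)
    · exact (measure_union_le _ _).trans (add_le_add e3 hN)
  rw [h1] at h2
  have h3 : ((1 : ℝ≥0∞) / 8 + 1 / 8) + (1 / 8 + 1 / 8) = ENNReal.ofReal (1 / 2) := by
    have : (1 : ℝ≥0∞) / 8 = ENNReal.ofReal (1 / 8) := by
      rw [ENNReal.ofReal_div_of_pos (by norm_num)]
      simp
    rw [this, ← ENNReal.ofReal_add (by norm_num) (by norm_num),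
      ← ENNReal.ofReal_add (by norm_num) (by norm_num)]
    norm_num
  rw [h3, ENNReal.one_le_ofReal] at h2
  norm_num at h2

end Pool.Agent.N276.BE
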