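import Pool.Agent.N276.BE.Stm
import Pool.Agent.N276.ER.Law

/-!
# The walk driven by the arrows is an excited random walk (helper527)
-/

set_option autoImplicit false

open MeasureTheory ProbabilityTheory Filter Topology Set
open scoped ENNReal

namespace Pool.Agent.N276.BE

open Pool.Agent.N276.ER

namespace LawAux

instance uprob : IsProbabilityMeasure ((volume : Measure ℝ).restrict (Set.Icc 0 1)) := by
  refine ⟨?_⟩
  rw [Measure.restrict_apply_univ, Real.volume_Icc]
  simp

/-- the probability of one arrow -/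
theorem arrow (q : ℝ) (h0 : 0 ≤ q) (h1 : q ≤ 1) (c : Bool) :
    ((volume : Measure ℝ).restrict (Set.Icc 0 1)) {v : ℝ | decide (v < q) = c} =
      ENNReal.ofReal (if c = true then q else 1 - q) := by
  cases c with
  | true =>
    have e : {v : ℝ | decide (v < q) = true} = Iio q := by
      ext v; simp
    rw [e, Measure.restrict_apply measurableSet_Iio]
    have e2 : Iio q ∩ Icc (0 : ℝ) 1 = Ico 0 q := by
      ext v
      simp only [mem_inter_iff, mem_Iio, mem_Icc, mem_Ico]
      constructor
      · rintro ⟨h2, h3, -⟩; exact ⟨h3, h2⟩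
      · rintro ⟨h2, h3⟩; exact ⟨h3, h2, by linarith⟩
    rw [e2, Real.volume_Ico]
    simp
  | false =>
    have e : {v : ℝ | decide (v < q) = false} = Ici q := by
      ext v; simp
    rw [e, Measure.restrict_apply measurableSet_Ici]
    have e2 : Ici q ∩ Icc (0 : ℝ) 1 = Icc q 1 := by
      ext v
      simp only [mem_inter_iff, mem_Ici, mem_Icc]
      constructor
      · rintro ⟨h2, -, h3⟩; exact ⟨h2, h3⟩
      · rintro ⟨h2, h3⟩; exact ⟨h2, by linarith, h3⟩
    rw [e2, Real.volume_Icc]
    simp

/-- the event of a path at one site -/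
def ev (K : Finset ℕ) (i : ℕ → ℕ) (c : ℕ → Bool) : Set (ℕ → Bool) :=
  {s | ∀ k ∈ K, s (i k) = c k}

theorem ev_meas (K : Finset ℕ) (i : ℕ → ℕ) (c : ℕ → Bool) : MeasurableSet (ev K i c) := by
  have e : ev K i c = ⋂ k ∈ K, (fun s : ℕ → Bool => s (i k)) ⁻¹' {c k} := by
    ext s
    simp [ev]
  rw [e]
  exact Finset.measurableSet_biInter _ fun k _ =>
    measurable_pi_apply (i k) (MeasurableSet.of_discrete)

theorem uu_ev (η : ℕ → ℝ) (hη : ∀ i, 0 ≤ η i ∧ η i ≤ 1) (K : Finset ℕ) (i : ℕ → ℕ)
    (hi : ∀ a ∈ K, ∀ b ∈ K, i a = i b → a = b) (c : ℕ → Bool) :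
    UU {u | ar (η, u) ∈ ev K i c} =
      ∏ k ∈ K, ENNReal.ofReal (if c k = true then η (i k) else 1 - η (i k)) := by
  classical
  have hset : {u : ℕ → ℝ | ar (η, u) ∈ ev K i c} =
      Set.pi (K.image i) (fun j => {v : ℝ | ∀ k ∈ K, i k = j → decide (v < η j) = c k}) := by
    ext u
    simp only [ev, ar, Set.mem_setOf_eq, Set.mem_pi, Finset.coe_image, Set.mem_image,
      Finset.mem_coe]
    constructor
    · rintro h _ ⟨k, hk, rfl⟩ j hj hjk
      rw [← hjk]
      exact h j hj
    · intro h k hk
      exact h (i k) ⟨k, hk, rfl⟩ k hk rfl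
  rw [hset, Measure.infinitePi_pi _ (fun j _ => ?_),
    Finset.prod_image (fun a ha b hb h => hi a ha b hb h)]
  · refine Finset.prod_congr rfl fun k hk => ?_
    rw [← arrow (η (i k)) (hη _).1 (hη _).2 (c k)]
    congr 1
    ext v
    simp only [Set.mem_setOf_eq]
    constructor
    · intro h
      exact h k hk rfl
    · intro h j hj hjk
      rw [hi j hj k hk hjk]
      exact h
  · have e : {v : ℝ | ∀ k ∈ K, i k = j → decide (v < η j) = c k} =
        ⋂ k ∈ K, {v : ℝ | i k = j → decide (v < η j) = c k} := by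
      ext v
      simp
    rw [e]
    refine Finset.measurableSet_biInter _ fun k _ => ?_
    by_cases hk : i k = j
    · have e1 : {v : ℝ | i k = j → decide (v < η j) = c k} =
          {v : ℝ | decide (v < η j) = c k} := by
        ext v; simp [hk]
      rw [e1]
      cases c k with
      | true =>
        have e2 : {v : ℝ | decide (v < η j) = true} = Iio (η j) := by
          ext v; simp
        rw [e2]
        exact measurableSet_Iio
      | false =>
        have e2 : {v : ℝ | decide (v < η j) = false} = Ici (η j) := by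
          ext v; simp
        rw [e2]
        exact measurableSet_Ici
    · have e1 : {v : ℝ | i k = j → decide (v < η j) = c k} = univ := by
        ext v; simp [hk]
      rw [e1]
      exact MeasurableSet.univ

/-- the averaged probability of a path at one site -/
theorem lr_ev (lam : Measure (ℕ → ℝ)) [IsProbabilityMeasure lam] (hpos : POS lam)
    (har : Measurable ar) (K : Finset ℕ) (i : ℕ → ℕ)
    (hi : ∀ a ∈ K, ∀ b ∈ K, i a = i b → a = b) (c : ℕ → Bool) :
    LR lam (ev K i c) =
      ∫⁻ η, ∏ k ∈ K, ENNReal.ofReal (if c k = true then η (i k) else 1 - η (i k)) ∂lam := by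
  rw [LR, Measure.map_apply har (ev_meas K i c), BZ, Measure.prod_apply (har (ev_meas K i c))]
  refine lintegral_congr_ae ?_
  filter_upwards [hpos] with η hη
  have h := uu_ev η (fun j => ⟨by linarith [(hη j).1], (hη j).2⟩) K i hi c
  rw [← h]
  rfl

end LawAux

open LawAux

theorem law : StmMeas → StmMix → StmLaw := by
  classical
  intro hM _ lam hlam hpos
  have har : Measurable ar := hM.1
  haveI hLR : IsProbabilityMeasure (LR lam) := Measure.isProbabilityMeasure_map har.aemeasurable
  refine ⟨inferInstance, hM.2.2.2.2.2.1, fun n x => ?_⟩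
  by_cases h0 : x 0 = 0
  swap
  · rw [if_neg h0]
    have h1 : {ω : ℤ → ℕ → Bool | ∀ k ≤ n, X ω k = x k} = ∅ := by
      rw [Set.eq_empty_iff_forall_notMem]
      intro ω h
      exact h0 ((h 0 (Nat.zero_le _)).symm.trans (X_zero ω))
    change (QL lam) {ω : ℤ → ℕ → Bool | ∀ k ≤ n, X ω k = x k} = 0
    rw [h1, measure_empty]
  rw [if_pos h0]
  change (QL lam) {ω : ℤ → ℕ → Bool | ∀ k ≤ n, X ω k = x k} = _
  by_cases hv : ∀ k < n, x (k + 1) = x k + 1 ∨ x (k + 1) = x k - 1
  swap
  · push Not at hv
    obtain ⟨k, hk, h1, h2⟩ := hv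
    have h3 : {ω : ℤ → ℕ → Bool | ∀ k ≤ n, X ω k = x k} = ∅ := by
      rw [Set.eq_empty_iff_forall_notMem]
      intro ω h
      have h2' := ER.LawAux.next (fun j hj => h j (by omega) : ∀ j ≤ k, X ω j = x j)
      rw [h (k + 1) (by omega)] at h2'
      split_ifs at h2' with h3
      · exact h1 h2'
      · exact h2 (by omega)
    rw [h3, measure_empty]
    symm
    have h4 : ∀ η : ℤ → ℕ → ℝ,
        ∏ k ∈ Finset.range n, ENNReal.ofReal (stepProb (η (x k)) x k) = 0 := by
      intro η
      refine Finset.prod_eq_zero (Finset.mem_range.2 hk) ?_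
      unfold stepProb
      rw [if_neg h1, if_neg h2, ENNReal.ofReal_zero]
    simp only [h4, lintegral_zero]
  -- the main case
  set c : ℕ → Bool := fun k => decide (x (k + 1) = x k + 1) with hc
  set F : Finset ℤ := (Finset.range n).image x with hF
  set K : ℤ → Finset ℕ := fun y => (Finset.range n).filter fun k => x k = y with hK
  have e1 : {ω : ℤ → ℕ → Bool | ∀ k ≤ n, X ω k = x k} =
      {ω | ∀ k < n, ω (x k) (visits x k) = decide (x (k + 1) = x k + 1)} := by
    ext ω
    exact ER.LawAux.path_iff x h0 ω n hv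
  have e2 : {ω : ℤ → ℕ → Bool | ∀ k < n, ω (x k) (visits x k) = decide (x (k + 1) = x k + 1)} =
      Set.pi F (fun y => ev (K y) (visits x) c) := by
    ext ω
    simp only [Set.mem_setOf_eq, Set.mem_pi, hF, Finset.coe_image, Set.mem_image, Finset.mem_coe,
      Finset.mem_range, ev, hK, Finset.mem_filter]
    constructor
    · rintro h _ ⟨k, hk, rfl⟩ j ⟨hj, hjk⟩
      rw [← hjk]
      exact h j hj
    · intro h k hk
      exact h (x k) ⟨k, hk, rfl⟩ k ⟨hk, rfl⟩
  have hinj : ∀ y, ∀ a ∈ K y, ∀ b ∈ K y, visits x a = visits x b → a = b := by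
    intro y a ha b hb hab
    have ha' : x a = y := (Finset.mem_filter.1 ha).2
    have hb' : x b = y := (Finset.mem_filter.1 hb).2
    exact ER.LawAux.inj x (Prod.ext (ha'.trans hb'.symm) hab)
  rw [e1, e2, Measure.infinitePi_pi _ (fun y _ => ev_meas _ _ _)]
  -- the weights of the sites
  set G : ℤ → (ℕ → ℝ) → ℝ≥0∞ := fun y η => ∏ k ∈ K y,
    ENNReal.ofReal (if c k = true then η (visits x k) else 1 - η (visits x k)) with hG
  have hGm : ∀ y, Measurable (G y) := by
    intro y
    refine Finset.measurable_prod _ fun k _ => ?_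
    refine ENNReal.measurable_ofReal.comp ?_
    split_ifs
    · exact measurable_pi_apply _
    · exact measurable_const.sub (measurable_pi_apply _)
  have hL : ∀ y ∈ F, LR lam (ev (K y) (visits x) c) = ∫⁻ η, G y η ∂lam := fun y _ =>
    lr_ev lam hpos har (K y) (visits x) (hinj y) c
  rw [Finset.prod_congr rfl hL]
  have hint : ∀ η : ℤ → ℕ → ℝ,
      ∏ k ∈ Finset.range n, ENNReal.ofReal (stepProb (η (x k)) x k) = ∏ y ∈ F, G y (η y) := by
    intro η
    rw [← Finset.prod_fiberwise_of_maps_to (g := x) (t := F)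
      (fun k hk => Finset.mem_image_of_mem x hk)]
    refine Finset.prod_congr rfl fun y _ => ?_
    refine Finset.prod_congr rfl fun k hk => ?_
    obtain ⟨hk1, hk2⟩ := Finset.mem_filter.1 hk
    rw [Finset.mem_range] at hk1
    rw [hk2]
    congr 1
    unfold stepProb
    by_cases h5 : x (k + 1) = x k + 1
    · simp [hc, h5]
    · have h6 : x (k + 1) = x k - 1 := (hv k hk1).resolve_left h5
      rw [if_neg h5, if_pos h6]
      simp [hc, h5]
  simp only [hint]
  have hind : iIndepFun (fun (y : ℤ) (η : ℤ → ℕ → ℝ) => G y (η y))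
      (Measure.infinitePi fun _ : ℤ => lam) := iIndepFun_infinitePi hGm
  rw [lintegral_prod_eq_prod_lintegral_of_indepFun F _ hind
    (fun y => (hGm y).comp (measurable_pi_apply y))]
  refine Finset.prod_congr rfl fun y _ => ?_
  have h7 := (measurePreserving_eval_infinitePi (fun _ : ℤ => lam) y).lintegral_comp (hGm y)
  exact h7.symm

end Pool.Agent.N276.BE
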