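import Pool.Agent.N276.BE.Stm
import Pool.Agent.N276.ER.Path

/-!
# No positive speed if `δ ≤ 2`
-/

set_option autoImplicit false

open MeasureTheory ProbabilityTheory Filter Topology Set
open scoped ENNReal

namespace Pool.Agent.N276.BE

open Pool.Agent.N276.ER

namespace LowAux

/-- a walk with speed `v > 0` hits `n` before the time `2 n / v + 1` for all large `n` -/
theorem hit {ω : ℤ → ℕ → Bool} {v : ℝ} (hv : 0 < v)
    (h : Tendsto (fun n : ℕ => (X ω n : ℝ) / n) atTop (𝓝 v)) :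
    ∀ᶠ n : ℕ in atTop, 1 ≤ n ∧
      ∃ t : ℕ, X ω t = n ∧ (∀ t' < t, X ω t' < n) ∧ (t : ℝ) ≤ 2 * n / v + 1 := by
  classical
  have h1 : ∀ᶠ t : ℕ in atTop, v / 2 < (X ω t : ℝ) / t :=
    h.eventually (lt_mem_nhds (by linarith))
  obtain ⟨T0, hT0⟩ := eventually_atTop.1 h1
  filter_upwards [eventually_ge_atTop 1, eventually_ge_atTop (⌈(T0 : ℝ) * v / 2⌉₊)] with n hn1 hn2
  have hn1' : (1 : ℝ) ≤ n := by exact_mod_cast hn1
  have hn2' : (T0 : ℝ) * v / 2 ≤ n := (Nat.le_ceil _).trans (by exact_mod_cast hn2)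
  obtain ⟨s, hs⟩ : ∃ s, s = ⌈2 * (n : ℝ) / v⌉₊ := ⟨_, rfl⟩
  have hs1 : 2 * (n : ℝ) / v ≤ s := by rw [hs]; exact Nat.le_ceil _
  have hs2 : (s : ℝ) < 2 * n / v + 1 := by rw [hs]; exact Nat.ceil_lt_add_one (by positivity)
  have hs0 : (0 : ℝ) < s := lt_of_lt_of_le (by positivity) hs1
  have hsT : T0 ≤ s := by
    have : (T0 : ℝ) ≤ s := by
      refine le_trans ?_ hs1
      rw [le_div_iff₀ hv]
      linarith
    exact_mod_cast this
  have h3 : (n : ℤ) ≤ X ω s := by
    have h4 := hT0 s hsT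
    rw [lt_div_iff₀ hs0] at h4
    have h5 : (n : ℝ) ≤ v / 2 * s := by
      rw [div_le_iff₀ hv] at hs1
      linarith
    have h6 : ((n : ℤ) : ℝ) < X ω s := by push_cast; linarith
    exact_mod_cast h6.le
  have hex : ∃ t, (n : ℤ) ≤ X ω t := ⟨s, h3⟩
  have hlt : ∀ t' < Nat.find hex, X ω t' < n := fun t' h' => not_le.1 (Nat.find_min hex h')
  refine ⟨hn1, Nat.find hex, le_antisymm ?_ (Nat.find_spec hex), hlt, ?_⟩
  · rcases Nat.eq_zero_or_pos (Nat.find hex) with h0 | h0
    · rw [h0, X_zero]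
      omega
    · obtain ⟨t, ht⟩ : ∃ t, Nat.find hex = t + 1 := ⟨Nat.find hex - 1, by omega⟩
      have h4 := hlt t (by omega)
      rw [ht, X_succ]
      split_ifs <;> omega
  · have h4 : Nat.find hex ≤ s := Nat.find_min' hex h3
    have h5 : ((Nat.find hex : ℕ) : ℝ) ≤ s := by exact_mod_cast h4
    linarith

end LowAux

/-- **No positive speed if `δ ≤ 2`.** -/
theorem low : StmMeas → StmMix → StmPush → StmGood → StmChainLow → StmPathLow → StmLow := by
  intro hMeas hMix hPush hGood hChain hPath lam hlam hpos hlt hdelta v hv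
  by_contra hv0
  have hv0 : 0 < v := not_le.1 hv0
  obtain ⟨-, hLR, hLL, -⟩ := hMix lam hlam hpos
  obtain ⟨-, -, -, -, hneg, -, hW, -, -⟩ := hMeas
  refine hChain lam hlam hpos hlt hdelta (1 / v + 1) ?_
  -- the events
  let S : ℕ → Set (ℕ → ℕ → Bool) := fun n =>
    {s | ((∑ k ∈ Finset.range n, W s (k + 1) : ℕ) : ℝ) ≤ (1 / v + 1) * n}
  let F : ℕ → (ℤ → ℕ → Bool) → (ℕ → ℕ → Bool) := fun n ω k => neg (ω ((n : ℤ) - 1 - k))
  have hS : ∀ n, MeasurableSet (S n) := by
    intro n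
    have h1 : Measurable fun s : ℕ → ℕ → Bool => ∑ k ∈ Finset.range n, W s (k + 1) :=
      Finset.measurable_sum _ fun k _ => hW (k + 1)
    have h2 : Measurable fun s : ℕ → ℕ → Bool =>
        ((∑ k ∈ Finset.range n, W s (k + 1) : ℕ) : ℝ) := measurable_from_nat.comp h1
    exact measurableSet_le h2 measurable_const
  have hF : ∀ n, Measurable (F n) := by
    intro n
    exact measurable_pi_lambda _ fun k => hneg.comp (measurable_pi_apply _)
  have hmap : ∀ n, (RL lam) (S n) = (QL lam) (F n ⁻¹' S n) := by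
    intro n
    have h1 := hPush lam hlam hpos (fun k : ℕ => (n : ℤ) - 1 - k) (fun a b hab => by
      have : (n : ℤ) - 1 - a = (n : ℤ) - 1 - b := hab
      omega)
    rw [← h1]
    exact Measure.map_apply (hF n) (hS n)
  have hmain : Tendsto (fun n => (QL lam) (F n ⁻¹' S n)) atTop (𝓝 1) := by
    have h1 := tendsto_measure_of_ae_tendsto_indicator_of_isFiniteMeasure (μ := QL lam)
      (L := (atTop : Filter ℕ)) (A := Set.univ) (As := fun n => F n ⁻¹' S n) MeasurableSet.univ
      (fun n => (hF n) (hS n)) (by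
        filter_upwards [hGood lam hlam hpos, hv] with ω h1 h2
        filter_upwards [LowAux.hit hv0 h2] with n hn
        obtain ⟨hn1, t, ht1, ht2, ht3⟩ := hn
        refine ⟨fun _ => trivial, fun _ => ?_⟩
        have h3 := hPath ω h1 n t ht1 ht2
        show ((∑ k ∈ Finset.range n, W (fun k => neg (ω ((n : ℤ) - 1 - k))) (k + 1) : ℕ) : ℝ) ≤
          (1 / v + 1) * n
        have h4 : (2 : ℝ) *
            ((∑ k ∈ Finset.range n, W (fun k => neg (ω ((n : ℤ) - 1 - k))) (k + 1) : ℕ) : ℝ) ≤ t := by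
          exact_mod_cast h3
        have hn1' : (1 : ℝ) ≤ n := by exact_mod_cast hn1
        have h5 : (1 / v + 1) * (n : ℝ) = n / v + n := by ring
        have h6 : 2 * (n : ℝ) / v = 2 * (n / v) := by ring
        rw [h5]
        rw [h6] at ht3
        linarith)
    rwa [measure_univ] at h1
  exact hmain.congr fun n => (hmap n).symm

end Pool.Agent.N276.BE
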