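import Pool.Agent.N276.BE.Stm

set_option autoImplicit false

open MeasureTheory ProbabilityTheory Filter Topology Set
open scoped ENNReal

namespace Pool.Agent.N276.BE

open Pool.Agent.N276.ER

namespace LyapAux

lemma rpow_eq {r : ℝ} (hr : 0 ≤ r) : r ^ (3 / 2 : ℝ) = (√r) ^ 3 := by
  rw [Real.sqrt_eq_rpow, ← Real.rpow_natCast, ← Real.rpow_mul hr]
  norm_num

lemma ptw {r q : ℝ} (hr : 0 ≤ r) (hq : 0 < q) :
    r ^ (3 / 2 : ℝ) ≤ r ^ 2 * (1 / (2 * q)) + r * (q / 2) := by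
  rw [rpow_eq hr]
  set x := √r with hx
  have hx0 : 0 ≤ x := Real.sqrt_nonneg _
  have hr' : r = x ^ 2 := (Real.sq_sqrt hr).symm
  rw [hr']
  have h1 : (x ^ 2) ^ 2 * (1 / (2 * q)) + x ^ 2 * (q / 2) - x ^ 3 =
      x ^ 2 * (x - q) ^ 2 / (2 * q) := by
    field_simp
    ring
  have h2 : 0 ≤ x ^ 2 * (x - q) ^ 2 / (2 * q) := by positivity
  linarith

lemma rpow_le {r : ℝ} (hr : 0 ≤ r) : r ^ (3 / 2 : ℝ) ≤ r ^ 2 + 1 := by
  have h1 := ptw hr (show (0 : ℝ) < 1 by norm_num)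
  nlinarith [sq_nonneg (r - 1)]

lemma num {C A q V d : ℝ} (hC : 0 ≤ C) (hA : A = 10 * C + 10) (hq : A ≤ q) (hd0 : 0 ≤ d)
    (hd2 : d ≤ 2) (hV1 : 2 * (q ^ 2 + 1) - C * (q + 1) ≤ V) (hV2 : V ≤ (2 + 1 / 10) * (q ^ 2 + 1)) :
    q ^ 4 - A * q ^ 3 + 1 ≤ (V + (q ^ 2 + 1) ^ 2 - 2 * (q ^ 2 + 1) * d) -
      A * ((V + (q ^ 2 + 1) ^ 2 - 2 * (q ^ 2 + 1) * d) * (1 / (2 * q)) +
        (q ^ 2 + 1 - d) * (q / 2)) := by
  have hA10 : 10 ≤ A := by rw [hA]; linarith
  have hq10 : 10 ≤ q := by linarith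
  have hq0 : 0 < q := by linarith
  have e1 : (V + (q ^ 2 + 1) ^ 2 - 2 * (q ^ 2 + 1) * d) * (1 / (2 * q)) +
        (q ^ 2 + 1 - d) * (q / 2) = q ^ 3 + (3 / 2) * q * (1 - d) + (V + 1 - 2 * d) / (2 * q) := by
    field_simp
    ring
  rw [e1]
  set B := (V + 1 - 2 * d) / (2 * q) with hB
  have hAB : A * B ≤ (21 / 20) * A * q + 31 / 20 := by
    have h1 : B ≤ ((2 + 1 / 10) * (q ^ 2 + 1) + 1) / (2 * q) := by
      rw [hB]
      apply div_le_div_of_nonneg_right _ (by positivity)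
      linarith
    have h2 : ((2 + 1 / 10) * (q ^ 2 + 1) + 1) / (2 * q) = (21 / 20) * q + (31 / 20) / q := by
      field_simp
      ring
    rw [h2] at h1
    have h3 : A * B ≤ A * ((21 / 20) * q + (31 / 20) / q) :=
      mul_le_mul_of_nonneg_left h1 (by linarith)
    have h4 : A * ((31 / 20) / q) ≤ 31 / 20 := by
      rw [mul_div_assoc', div_le_iff₀ hq0]
      nlinarith
    calc A * B ≤ A * ((21 / 20) * q + (31 / 20) / q) := h3
      _ = (21 / 20) * A * q + A * ((31 / 20) / q) := by ring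
      _ ≤ _ := by linarith
  obtain ⟨e, he⟩ : ∃ e, d = 2 - e := ⟨2 - d, by ring⟩
  have he0 : 0 ≤ e := by linarith
  have h5 : 0 ≤ e * (q * (2 * q - (3 / 2) * A)) := by
    apply mul_nonneg he0 (mul_nonneg hq0.le _)
    linarith
  have h6 : 0 ≤ C * (q - 10) := mul_nonneg hC (by linarith)
  have h7 : A * (q ^ 3 + (3 / 2) * q * (1 - d) + B) = A * q ^ 3 + (3 / 2) * A * q * (1 - d) + A * B := by
    ring
  rw [h7]
  rw [he] at hd2 ⊢
  have h8 : C * q = C * (q - 10) + 10 * C := by ring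
  have h9 : (9 / 20) * A * q = (9 / 2) * (C * q) + (9 / 2) * q := by rw [hA]; ring
  nlinarith

lemma meas_al : Measurable al := by
  refine measurable_pi_lambda _ fun i => ?_
  refine measurable_to_bool ?_
  have : (fun z : (ℕ → ℝ) × (ℕ → ℝ) => al z i) ⁻¹' {true} = {z | z.1 i ≤ z.2 i} := by
    ext z
    simp [al]
  rw [this]
  exact measurableSet_le ((measurable_pi_apply i).comp measurable_fst)
    ((measurable_pi_apply i).comp measurable_snd)

lemma prob_LL (lam : Measure (ℕ → ℝ)) [IsProbabilityMeasure lam] : IsProbabilityMeasure (LL lam) := by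
  unfold LL
  have h0 : IsProbabilityMeasure ((volume : Measure ℝ).restrict (Set.Icc 0 1)) :=
    ⟨by rw [Measure.restrict_apply_univ, Real.volume_Icc]; norm_num⟩
  have h : IsProbabilityMeasure (BZ lam) := by
    unfold BZ UU
    infer_instance
  exact Measure.isProbabilityMeasure_map meas_al.aemeasurable

end LyapAux

open LyapAux in
theorem lyap : StmMean → StmMom → StmLyap := by
  intro hMean hMom lam hlam hpos hdel
  have hl := hlam
  have hL := prob_LL lam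
  obtain ⟨⟨C, hC0, hC⟩, -, hup⟩ := hMom lam hlam hpos hdel
  obtain ⟨m₀, hm₀⟩ := hup (1 / 10) (by norm_num)
  obtain ⟨A, hA⟩ : ∃ A : ℝ, A = 10 * C + 10 := ⟨_, rfl⟩
  have hA10 : 10 ≤ A := by rw [hA]; linarith
  refine ⟨A, by linarith, max ⌈A ^ 2⌉₊ m₀, ?_, ?_⟩
  · exact (Nat.le_ceil _).trans (by exact_mod_cast le_max_left _ _)
  intro w hw
  have hwA : A ^ 2 ≤ w := (Nat.le_ceil _).trans (by exact_mod_cast (le_max_left _ _).trans hw)
  have hwm : m₀ ≤ w + 1 := ((le_max_right _ _).trans hw).trans (Nat.le_succ w)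
  obtain ⟨hN1, hN2, hdm, hdt, hEN⟩ := hMean lam hlam hpos (w + 1)
  set N : (ℕ → Bool) → ℝ := fun s => (U (w + 1) s : ℝ) with hN
  have hN0 : ∀ s, 0 ≤ N s := fun s => Nat.cast_nonneg _
  set d := (dm lam (w + 1)).toReal with hd
  have hd0 : 0 ≤ d := ENNReal.toReal_nonneg
  have hd2 : d ≤ 2 := by
    have h1 := ENNReal.toReal_mono (show (2 : ℝ≥0∞) ≠ ⊤ by norm_num) (hdm.trans hdel)
    simpa using h1
  have h32 : Integrable (fun s => N s ^ (3 / 2 : ℝ)) (LL lam) := by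
    refine Integrable.mono' (hN2.add (integrable_const (1 : ℝ)))
      (hN1.aestronglyMeasurable.aemeasurable.pow_const (3 / 2 : ℝ)).aestronglyMeasurable
      (ae_of_all _ fun s => ?_)
    rw [Real.norm_of_nonneg (Real.rpow_nonneg (hN0 s) _)]
    exact rpow_le (hN0 s)
  have hfi : Integrable (fun s => f A (U (w + 1) s)) (LL lam) := by
    have h1 : (fun s => f A (U (w + 1) s)) = fun s => N s ^ 2 - A * N s ^ (3 / 2 : ℝ) := rfl
    rw [h1]
    exact hN2.sub (h32.const_mul A)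
  refine ⟨hfi, ?_⟩
  set q := √(w : ℝ) with hq
  have hw0 : (0 : ℝ) ≤ w := Nat.cast_nonneg _
  have hq2 : q ^ 2 = w := Real.sq_sqrt hw0
  have hqA : A ≤ q := by
    rw [hq]
    exact Real.le_sqrt_of_sq_le hwA
  have hq0 : 0 < q := by linarith
  set V := ∫ s, ((U (w + 1) s : ℝ) - ((w + 1 : ℕ) : ℝ)) ^ 2 ∂(LL lam) with hV
  have hV1 : 2 * (q ^ 2 + 1) - C * (q + 1) ≤ V := by
    have h1 := hC (w + 1)
    have h2 : √((w + 1 : ℕ) : ℝ) ≤ q + 1 := by
      refine Real.sqrt_le_iff.2 ⟨by linarith, ?_⟩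
      push_cast
      rw [← hq2]
      nlinarith
    have h3 := mul_le_mul_of_nonneg_left h2 hC0
    push_cast at h1 h3
    rw [hq2]
    have h4 : (V : ℝ) = ∫ s, ((U (w + 1) s : ℝ) - ((w : ℝ) + 1)) ^ 2 ∂(LL lam) := by
      rw [hV]; push_cast; rfl
    rw [h4]
    linarith
  have hV2 : V ≤ (2 + 1 / 10) * (q ^ 2 + 1) := by
    have h1 := hm₀ (w + 1) hwm
    rw [← hV] at h1
    rw [hq2]
    push_cast at h1
    exact h1
  have hE2 : ∫ s, N s ^ 2 ∂(LL lam) = V + (q ^ 2 + 1) ^ 2 - 2 * (q ^ 2 + 1) * d := by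
    have h1 : V = ∫ s, (N s ^ 2 - N s * (2 * (q ^ 2 + 1)) + (q ^ 2 + 1) ^ 2) ∂(LL lam) := by
      rw [hV]
      congr 1
      funext s
      rw [hq2]
      push_cast
      ring
    have i1 : Integrable (fun s => N s * (2 * (q ^ 2 + 1))) (LL lam) := hN1.mul_const _
    have i2 : Integrable (fun s => N s ^ 2 - N s * (2 * (q ^ 2 + 1))) (LL lam) := hN2.sub i1
    rw [integral_add i2 (integrable_const _), integral_sub hN2 i1, integral_mul_const, hEN] at h1
    rw [hq2] at h1 ⊢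
    simp only [integral_const, probReal_univ, smul_eq_mul, one_mul] at h1
    push_cast at h1
    rw [h1]
    ring
  have hE32 : ∫ s, N s ^ (3 / 2 : ℝ) ∂(LL lam) ≤
      (V + (q ^ 2 + 1) ^ 2 - 2 * (q ^ 2 + 1) * d) * (1 / (2 * q)) + (q ^ 2 + 1 - d) * (q / 2) := by
    have i1 : Integrable (fun s => N s ^ 2 * (1 / (2 * q))) (LL lam) := hN2.mul_const _
    have i2 : Integrable (fun s => N s * (q / 2)) (LL lam) := hN1.mul_const _
    have h1 : ∫ s, N s ^ (3 / 2 : ℝ) ∂(LL lam) ≤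
        ∫ s, (N s ^ 2 * (1 / (2 * q)) + N s * (q / 2)) ∂(LL lam) :=
      integral_mono h32 (i1.add i2) (fun s => ptw (hN0 s) hq0)
    refine h1.trans (le_of_eq ?_)
    have h2 := integral_add i1 i2
    rw [h2, integral_mul_const, integral_mul_const, hE2, hEN, hq2]
    push_cast
    ring
  have hEf : ∫ s, f A (U (w + 1) s) ∂(LL lam) =
      ∫ s, N s ^ 2 ∂(LL lam) - A * ∫ s, N s ^ (3 / 2 : ℝ) ∂(LL lam) := by
    have h1 : (fun s => f A (U (w + 1) s)) = fun s => N s ^ 2 - A * N s ^ (3 / 2 : ℝ) := rfl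
    rw [h1, integral_sub hN2 (h32.const_mul A), integral_const_mul]
  have hfw : f A w = q ^ 4 - A * q ^ 3 := by
    unfold f
    rw [rpow_eq hw0, ← hq, ← hq2]
    ring
  have h5 := num hC0 hA hqA hd0 hd2 hV1 hV2
  have h6 := mul_le_mul_of_nonneg_left hE32 (show 0 ≤ A by linarith)
  rw [hEf, hfw, hE2]
  linarith

end Pool.Agent.N276.BE
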