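import Pool.Agent.N276.BE.Stm

/-!
# The martingale part and the used drift, averaged
-/

set_option autoImplicit false
set_option linter.all false

open MeasureTheory ProbabilityTheory Filter Topology Set
open scoped ENNReal

namespace Pool.Agent.N276.BE

open Pool.Agent.N276.ER

namespace M2Aux

lemma dd_nonneg {q : ℕ → ℝ} (h : HQ q) (t : ℕ) : 0 ≤ dd q t := by
  unfold dd
  exact Finset.sum_nonneg fun i _ => by have := (h i).2; linarith

lemma dd_le {q : ℕ → ℝ} (h : HQ q) (t : ℕ) : dd q t ≤ t := by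
  unfold dd
  calc ∑ i ∈ Finset.range t, (1 - 2 * q i) ≤ ∑ i ∈ Finset.range t, (1 : ℝ) :=
        Finset.sum_le_sum fun i _ => by have := (h i).1; linarith
    _ = t := by simp

lemma prob_unit : IsProbabilityMeasure ((volume : Measure ℝ).restrict (Set.Icc (0 : ℝ) 1)) :=
  ⟨by simp⟩

lemma prob_UU : IsProbabilityMeasure UU := by
  have := prob_unit
  infer_instance

/-- the martingale part -/
noncomputable def MM (m : ℕ) (η : ℕ → ℝ) (s : ℕ → Bool) : ℝ :=
  (U m s : ℝ) - m + dd (co η) (T m s)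

lemma MM_sq_le {m : ℕ} {η : ℕ → ℝ} (h : HQ (co η)) (s : ℕ → Bool) :
    (MM m η s) ^ 2 ≤ 4 * (T m s : ℝ) ^ 2 + (m : ℝ) ^ 2 := by
  have h0 := dd_nonneg h (T m s)
  have h1 := dd_le h (T m s)
  have h2 : (U m s : ℝ) ≤ T m s := by
    have : U m s ≤ T m s := Nat.sub_le _ _
    exact_mod_cast this
  have h3 : (0 : ℝ) ≤ U m s := Nat.cast_nonneg _
  have h4 : (0 : ℝ) ≤ m := Nat.cast_nonneg _
  have h5 : (0 : ℝ) ≤ T m s := Nat.cast_nonneg _
  unfold MM
  rcases le_total 0 ((U m s : ℝ) - m + dd (co η) (T m s)) with h6 | h6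
  · nlinarith
  · nlinarith

lemma T_sq_le (m n : ℕ) : ((n : ℕ) : ℝ≥0∞) ^ 2 ≤ ((4 * m : ℕ) : ℝ≥0∞) ^ 2 +
    (if 4 * m < n then ((n : ℕ) : ℝ≥0∞) ^ 4 else 0) := by
  by_cases h : 4 * m < n
  · rw [if_pos h]
    have h1 : (1 : ℕ) ≤ n := by omega
    have h2 : n ^ 2 ≤ n ^ 4 := Nat.pow_le_pow_right h1 (by norm_num)
    have h3 : ((n : ℕ) : ℝ≥0∞) ^ 2 ≤ ((n : ℕ) : ℝ≥0∞) ^ 4 := by exact_mod_cast h2
    exact h3.trans le_add_self
  · rw [if_neg h, add_zero]
    have h1 : n ≤ 4 * m := by omega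
    have h2 : n ^ 2 ≤ (4 * m) ^ 2 := Nat.pow_le_pow_left h1 2
    exact_mod_cast h2

end M2Aux

open M2Aux

theorem m2 : StmMeas → StmMix → StmQTail → StmQMom → StmQWald → StmQMart → StmM2 := by
  intro hMeas hMix _ hQMom hQWald hQMart lam hlam hpos m
  obtain ⟨-, hal, hT, hU, -, -, -, -, hdd⟩ := hMeas
  obtain ⟨hHQ, -, -, hmix⟩ := hMix lam hlam hpos
  obtain ⟨hQ1, C, hC, hQ2⟩ := hQMom
  have hUU := prob_UU
  have hBZ : IsProbabilityMeasure (BZ lam) := by
    show IsProbabilityMeasure (lam.prod UU)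
    infer_instance
  have hcst : Measurable (fun z : (ℕ → ℝ) × (ℕ → ℝ) => (z.1, al z)) :=
    measurable_fst.prodMk hal
  have hcast : Measurable (fun n : ℕ => (n : ℝ)) := measurable_from_top
  have hTz : Measurable (fun z : (ℕ → ℝ) × (ℕ → ℝ) => (T m (al z) : ℝ)) := by
    have h2 := hcast.comp ((hT m).comp hal)
    simpa only [Function.comp_def] using h2
  have hUz : Measurable (fun z : (ℕ → ℝ) × (ℕ → ℝ) => (U m (al z) : ℝ)) := by
    have h2 := hcast.comp ((hU m).comp hal)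
    simpa only [Function.comp_def] using h2
  have hDz : Measurable (fun z : (ℕ → ℝ) × (ℕ → ℝ) => dd (co z.1) (T m (al z))) := by
    have h2 := (hdd m).comp hcst
    simpa only [Function.comp_def] using h2
  have hMz : Measurable (fun z : (ℕ → ℝ) × (ℕ → ℝ) =>
      ((U m (al z) : ℝ) - m + dd (co z.1) (T m (al z)))) := (hUz.sub_const _).add hDz
  have hae : ∀ᵐ z ∂(BZ lam), HQ (co z.1) := by
    have := (Measure.quasiMeasurePreserving_fst (μ := lam) (ν := UU)).ae hHQ
    exact this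
  -- `T²` is integrable
  have hT2l : ∫⁻ z, ((T m (al z) : ℕ) : ℝ≥0∞) ^ 2 ∂(BZ lam) ≤ ((4 * m : ℕ) : ℝ≥0∞) ^ 2 + C := by
    have hmm : Measurable (fun p : (ℕ → ℝ) × (ℕ → Bool) => ((T m p.2 : ℕ) : ℝ≥0∞) ^ 2) := by
      have h1 : Measurable (fun n : ℕ => ((n : ℕ) : ℝ≥0∞) ^ 2) := measurable_from_top
      have h2 := h1.comp ((hT m).comp (measurable_snd : Measurable
        (fun p : (ℕ → ℝ) × (ℕ → Bool) => p.2)))
      simpa only [Function.comp_def] using h2
    rw [hmix (fun _ s => ((T m s : ℕ) : ℝ≥0∞) ^ 2) hmm]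
    calc ∫⁻ η, ∫⁻ s, ((T m s : ℕ) : ℝ≥0∞) ^ 2 ∂(stackLaw (co η)) ∂lam
        ≤ ∫⁻ _η, (((4 * m : ℕ) : ℝ≥0∞) ^ 2 + C) ∂lam := by
          apply lintegral_mono_ae
          filter_upwards [hHQ] with η hη
          haveI := (hQ1 (co η) hη).1
          calc ∫⁻ s, ((T m s : ℕ) : ℝ≥0∞) ^ 2 ∂(stackLaw (co η))
              ≤ ∫⁻ s, (((4 * m : ℕ) : ℝ≥0∞) ^ 2 +
                (if 4 * m < T m s then ((T m s : ℕ) : ℝ≥0∞) ^ 4 else 0)) ∂(stackLaw (co η)) :=
                lintegral_mono fun s => T_sq_le m (T m s)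
            _ = ((4 * m : ℕ) : ℝ≥0∞) ^ 2 +
                ∫⁻ s, (if 4 * m < T m s then ((T m s : ℕ) : ℝ≥0∞) ^ 4 else 0)
                  ∂(stackLaw (co η)) := by
                rw [lintegral_add_left measurable_const, lintegral_const, measure_univ, mul_one]
            _ ≤ _ := add_le_add le_rfl (hQ2 (co η) hη m)
      _ = _ := by rw [lintegral_const, measure_univ, mul_one]
  have hT2 : Integrable (fun z => (T m (al z) : ℝ) ^ 2) (BZ lam) := by
    refine ⟨(hTz.pow_const 2).aestronglyMeasurable, ?_⟩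
    rw [hasFiniteIntegral_iff_ofReal (Eventually.of_forall fun z => by positivity)]
    have e1 : ∀ z : (ℕ → ℝ) × (ℕ → ℝ), ENNReal.ofReal ((T m (al z) : ℝ) ^ 2) =
        ((T m (al z) : ℕ) : ℝ≥0∞) ^ 2 := by
      intro z
      rw [ENNReal.ofReal_pow (Nat.cast_nonneg _), ENNReal.ofReal_natCast]
    simp only [e1]
    refine hT2l.trans_lt ?_
    exact ENNReal.add_lt_top.mpr ⟨ENNReal.pow_lt_top (ENNReal.natCast_lt_top _), hC.lt_top⟩
  have hDb : ∀ᵐ z ∂(BZ lam), 0 ≤ dd (co z.1) (T m (al z)) ∧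
      dd (co z.1) (T m (al z)) ≤ T m (al z) := by
    filter_upwards [hae] with z hz
    exact ⟨dd_nonneg hz _, dd_le hz _⟩
  have hD2 : Integrable (fun z => dd (co z.1) (T m (al z)) ^ 2) (BZ lam) := by
    apply Integrable.mono' hT2 (hDz.pow_const 2).aestronglyMeasurable
    filter_upwards [hDb] with z hz
    rw [Real.norm_of_nonneg (by positivity)]
    exact pow_le_pow_left₀ hz.1 hz.2 2
  have hD1 : Integrable (fun z => dd (co z.1) (T m (al z))) (BZ lam) := by
    apply Integrable.mono' ((integrable_const (1 : ℝ)).add hT2) hDz.aestronglyMeasurable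
    filter_upwards [hDb] with z hz
    rw [Real.norm_of_nonneg hz.1]
    show dd (co z.1) (T m (al z)) ≤ 1 + (T m (al z) : ℝ) ^ 2
    nlinarith [hz.2, sq_nonneg ((T m (al z) : ℝ) - 1)]
  have hM2 : Integrable (fun z => ((U m (al z) : ℝ) - m + dd (co z.1) (T m (al z))) ^ 2)
      (BZ lam) := by
    apply Integrable.mono' ((hT2.const_mul 4).add (integrable_const ((m : ℝ) ^ 2)))
      (hMz.pow_const 2).aestronglyMeasurable
    filter_upwards [hae] with z hz
    rw [Real.norm_of_nonneg (by positivity)]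
    exact MM_sq_le hz (al z)
  have hMms : Measurable (fun p : (ℕ → ℝ) × (ℕ → Bool) => MM m p.1 p.2) := by
    have h2 := hcast.comp ((hU m).comp (measurable_snd : Measurable
      (fun p : (ℕ → ℝ) × (ℕ → Bool) => p.2)))
    simp only [Function.comp_def] at h2
    unfold MM
    exact (h2.sub_const _).add (hdd m)
  -- quenched facts
  have hq : ∀ η : ℕ → ℝ, HQ (co η) →
      ∫⁻ s, ENNReal.ofReal (MM m η s ^ 2) ∂(stackLaw (co η)) ≤ ENNReal.ofReal (2 * m) ∧
      ENNReal.ofReal (2 * m) ≤ ∫⁻ s, (ENNReal.ofReal (MM m η s ^ 2) +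
        2 * ENNReal.ofReal (dd (co η) (T m s))) ∂(stackLaw (co η)) := by
    intro η hη
    haveI := (hQ1 (co η) hη).1
    obtain ⟨h1, h2, h3⟩ := hQMart (co η) hη m
    obtain ⟨h4, -, -, -⟩ := hQWald (co η) hη m
    have e1 : ∫⁻ s, ENNReal.ofReal (MM m η s ^ 2) ∂(stackLaw (co η)) =
        ENNReal.ofReal (∫ s, MM m η s ^ 2 ∂(stackLaw (co η))) :=
      (ofReal_integral_eq_lintegral_ofReal h1 (Eventually.of_forall fun s => sq_nonneg _)).symm
    have hdm : Measurable (fun s : ℕ → Bool => dd (co η) (T m s)) := by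
      have h5 : Measurable (fun n : ℕ => dd (co η) n) := measurable_from_top
      have h2 := h5.comp (hT m)
      simpa only [Function.comp_def] using h2
    have h6 : Integrable (fun s => dd (co η) (T m s)) (stackLaw (co η)) := by
      apply Integrable.mono' h4 hdm.aestronglyMeasurable
      filter_upwards with s
      rw [Real.norm_of_nonneg (dd_nonneg hη _)]
      exact dd_le hη _
    have e2 : ∫⁻ s, ENNReal.ofReal (dd (co η) (T m s)) ∂(stackLaw (co η)) =
        ENNReal.ofReal (∫ s, dd (co η) (T m s) ∂(stackLaw (co η))) :=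
      (ofReal_integral_eq_lintegral_ofReal h6 (Eventually.of_forall fun s => dd_nonneg hη _)).symm
    refine ⟨by rw [e1]; exact ENNReal.ofReal_le_ofReal h2, ?_⟩
    have hmM : Measurable (fun s : ℕ → Bool => ENNReal.ofReal (MM m η s ^ 2)) := by
      have h2 := hMms.comp (measurable_const.prodMk measurable_id : Measurable
        (fun s : ℕ → Bool => (η, s)))
      simp only [Function.comp_def] at h2
      exact (h2.pow_const 2).ennreal_ofReal
    rw [lintegral_add_left hmM, lintegral_const_mul _ hdm.ennreal_ofReal, e1, e2]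
    have h7 : 0 ≤ ∫ s, MM m η s ^ 2 ∂(stackLaw (co η)) := integral_nonneg fun s => sq_nonneg _
    have h8 : 0 ≤ ∫ s, dd (co η) (T m s) ∂(stackLaw (co η)) :=
      integral_nonneg fun s => dd_nonneg hη _
    have h9 : (2 : ℝ≥0∞) * ENNReal.ofReal (∫ s, dd (co η) (T m s) ∂(stackLaw (co η))) =
        ENNReal.ofReal (2 * ∫ s, dd (co η) (T m s) ∂(stackLaw (co η))) := by
      rw [ENNReal.ofReal_mul (by norm_num)]
      norm_num
    rw [h9, ← ENNReal.ofReal_add h7 (by positivity)]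
    apply ENNReal.ofReal_le_ofReal
    have h10 : 2 * (m : ℝ) - 2 * ∫ s, dd (co η) (T m s) ∂(stackLaw (co η)) ≤
      ∫ s, MM m η s ^ 2 ∂(stackLaw (co η)) := h3
    linarith
  have eM : ∫⁻ z, ENNReal.ofReal (MM m z.1 (al z) ^ 2) ∂(BZ lam) =
      ENNReal.ofReal (∫ z, MM m z.1 (al z) ^ 2 ∂(BZ lam)) :=
    (ofReal_integral_eq_lintegral_ofReal hM2 (Eventually.of_forall fun s => sq_nonneg _)).symm
  have hI0 : 0 ≤ ∫ z, MM m z.1 (al z) ^ 2 ∂(BZ lam) := integral_nonneg fun s => sq_nonneg _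
  have eD : dm lam m = ENNReal.ofReal (∫ z, dd (co z.1) (T m (al z)) ∂(BZ lam)) := by
    unfold dm
    exact (ofReal_integral_eq_lintegral_ofReal hD1 (hDb.mono fun z hz => hz.1)).symm
  have hJ0 : 0 ≤ ∫ z, dd (co z.1) (T m (al z)) ∂(BZ lam) :=
    integral_nonneg_of_ae (hDb.mono fun z hz => hz.1)
  refine ⟨hT2, hDb, hD2, hM2, ?_, ?_⟩
  · have h1 : ∫⁻ z, ENNReal.ofReal (MM m z.1 (al z) ^ 2) ∂(BZ lam) ≤ ENNReal.ofReal (2 * m) := by
      rw [hmix (fun η s => ENNReal.ofReal (MM m η s ^ 2)) (hMms.pow_const 2).ennreal_ofReal]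
      calc ∫⁻ η, ∫⁻ s, ENNReal.ofReal (MM m η s ^ 2) ∂(stackLaw (co η)) ∂lam
          ≤ ∫⁻ _η, ENNReal.ofReal (2 * m) ∂lam := by
            apply lintegral_mono_ae
            filter_upwards [hHQ] with η hη
            exact (hq η hη).1
        _ = _ := by rw [lintegral_const, measure_univ, mul_one]
    rw [eM] at h1
    exact (ENNReal.ofReal_le_ofReal_iff (by positivity)).mp h1
  · have h1 : ENNReal.ofReal (2 * m) ≤ ∫⁻ z, (ENNReal.ofReal (MM m z.1 (al z) ^ 2) +
        2 * ENNReal.ofReal (dd (co z.1) (T m (al z)))) ∂(BZ lam) := by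
      rw [hmix (fun η s => ENNReal.ofReal (MM m η s ^ 2) +
        2 * ENNReal.ofReal (dd (co η) (T m s)))
        ((hMms.pow_const 2).ennreal_ofReal.add ((hdd m).ennreal_ofReal.const_mul 2))]
      calc ENNReal.ofReal (2 * m) = ∫⁻ _η, ENNReal.ofReal (2 * m) ∂lam := by
            rw [lintegral_const, measure_univ, mul_one]
        _ ≤ _ := by
            apply lintegral_mono_ae
            filter_upwards [hHQ] with η hη
            exact (hq η hη).2
    have hmM : Measurable (fun z : (ℕ → ℝ) × (ℕ → ℝ) => ENNReal.ofReal (MM m z.1 (al z) ^ 2)) := by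
      have h2 := hMms.comp hcst
      simp only [Function.comp_def] at h2
      exact (h2.pow_const 2).ennreal_ofReal
    rw [lintegral_add_left hmM, lintegral_const_mul _ hDz.ennreal_ofReal, eM] at h1
    have e3 : ∫⁻ z, ENNReal.ofReal (dd (co z.1) (T m (al z))) ∂(BZ lam) = dm lam m := rfl
    rw [e3, eD] at h1
    have h9 : (2 : ℝ≥0∞) * ENNReal.ofReal (∫ z, dd (co z.1) (T m (al z)) ∂(BZ lam)) =
        ENNReal.ofReal (2 * ∫ z, dd (co z.1) (T m (al z)) ∂(BZ lam)) := by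
      rw [ENNReal.ofReal_mul (by norm_num)]
      norm_num
    rw [h9, ← ENNReal.ofReal_add hI0 (by positivity)] at h1
    have h2 := (ENNReal.ofReal_le_ofReal_iff (by positivity)).mp h1
    rw [eD, ENNReal.toReal_ofReal hJ0]
    have e4 : ∫ z, ((U m (al z) : ℝ) - m + dd (co z.1) (T m (al z))) ^ 2 ∂(BZ lam) =
      ∫ z, MM m z.1 (al z) ^ 2 ∂(BZ lam) := rfl
    rw [e4]
    linarith

end Pool.Agent.N276.BE
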