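import Pool.Agent.N276.BE.Stm

/-!
# Independence of the next stack

By helper374 for helper276; adapted from `Pool/Agent/N276/ER/Markov.lean` (helper773).
-/

set_option autoImplicit false

open MeasureTheory ProbabilityTheory Filter Topology Set
open scoped ENNReal

namespace Pool.Agent.N276.BE

namespace MarkovAux

theorem indep (nu : Measure (ℕ → Bool)) [IsProbabilityMeasure nu] (k : ℕ)
    (G : (ℕ → ℕ → Bool) → ℕ) (hG : Measurable G)
    (hGk : ∀ s s' : ℕ → ℕ → Bool, (∀ j < k, s j = s' j) → G s = G s') :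
    IndepFun G (fun s : ℕ → ℕ → Bool => s k) (Measure.infinitePi fun _ : ℕ => nu) := by
  have h1 : iIndepFun (fun (i : ℕ) (s : ℕ → ℕ → Bool) => s i)
      (Measure.infinitePi fun _ : ℕ => nu) :=
    iIndepFun_infinitePi (P := fun _ : ℕ => nu) (X := fun _ (s : ℕ → Bool) => s)
      (fun _ => measurable_id)
  have h2 := h1.indepFun_finset (Finset.range k) {k}
    (by simp) (fun i => measurable_pi_apply i)
  -- G factors
  let ext : ((i : Finset.range k) → ℕ → Bool) → (ℕ → ℕ → Bool) := fun t i =>
    if hi : i ∈ Finset.range k then t ⟨i, hi⟩ else fun _ => false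
  have hext : Measurable ext := by
    refine measurable_pi_lambda _ fun i => ?_
    by_cases hi : i ∈ Finset.range k
    · simp only [ext, hi, dite_true]
      exact measurable_pi_apply _
    · simp only [ext, hi, dite_false]
      exact measurable_const
  have hfac : G = (G ∘ ext) ∘ fun (s : ℕ → ℕ → Bool) (i : Finset.range k) => s i := by
    funext s
    refine hGk _ _ fun j hj => ?_
    have : j ∈ Finset.range k := Finset.mem_range.2 hj
    simp [ext, hj]
  have hk : (fun s : ℕ → ℕ → Bool => s k) =
      (fun t : (({k} : Finset ℕ) : Type) → ℕ → Bool => t ⟨k, Finset.mem_singleton_self k⟩) ∘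
        fun (s : ℕ → ℕ → Bool) (i : ({k} : Finset ℕ)) => s i := rfl
  rw [hfac, hk]
  exact h2.comp (hG.comp hext) (measurable_pi_apply _)

end MarkovAux

theorem markov : StmMarkov := by
  intro nu hnu k G g hG hGk hg
  have := hnu
  have hind := MarkovAux.indep nu k G hG hGk
  have hgm : Measurable (fun p : ℕ × (ℕ → Bool) => g p.1 p.2) :=
    measurable_from_prod_countable_right fun n => hg n
  have hmk : Measurable (fun s : ℕ → ℕ → Bool => s k) := measurable_pi_apply k
  have hlaw : Measure.map (fun s : ℕ → ℕ → Bool => s k)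
      (Measure.infinitePi fun _ : ℕ => nu) = nu :=
    Measure.infinitePi_map_eval (fun _ : ℕ => nu) k
  have hprod := (indepFun_iff_map_prod_eq_prod_map_map hG.aemeasurable hmk.aemeasurable).1 hind
  calc ∫⁻ s, g (G s) (s k) ∂(Measure.infinitePi fun _ : ℕ => nu)
      = ∫⁻ p, g p.1 p.2 ∂(Measure.map (fun s : ℕ → ℕ → Bool => (G s, s k))
          (Measure.infinitePi fun _ : ℕ => nu)) := by
        rw [lintegral_map hgm (hG.prodMk hmk)]
    _ = ∫⁻ p, g p.1 p.2 ∂((Measure.map G (Measure.infinitePi fun _ : ℕ => nu)).prod nu) := by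
        rw [hprod, hlaw]
    _ = ∫⁻ n, ∫⁻ u, g n u ∂nu ∂(Measure.map G (Measure.infinitePi fun _ : ℕ => nu)) := by
        rw [lintegral_prod _ hgm.aemeasurable]
    _ = ∫⁻ s, ∫⁻ u, g (G s) u ∂nu ∂(Measure.infinitePi fun _ : ℕ => nu) := by
        rw [lintegral_map (measurable_of_countable _) hG]

end Pool.Agent.N276.BE
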