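import Pool.Agent.N276.BE.Stm

/-!
# The mean under the averaged law (BE/7), by helper289
-/

set_option autoImplicit false

open MeasureTheory ProbabilityTheory Filter Topology Set
open scoped ENNReal

namespace Pool.Agent.N276.BE

open Pool.Agent.N276.ER

namespace MeanAux

theorem U_le (m : ℕ) (s : ℕ → Bool) : U m s ≤ T m s := Nat.sub_le _ _

theorem sq_le (m t : ℕ) : ((t : ℕ) : ℝ≥0∞) ^ 2 ≤
    ((16 * m ^ 2 : ℕ) : ℝ≥0∞) + (if 4 * m < t then ((t : ℕ) : ℝ≥0∞) ^ 4 else 0) := by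
  split_ifs with h
  · have h1 : t ^ 2 ≤ t ^ 4 := Nat.pow_le_pow_right (by omega) (by norm_num)
    calc ((t : ℕ) : ℝ≥0∞) ^ 2 ≤ ((t : ℕ) : ℝ≥0∞) ^ 4 := by exact_mod_cast h1
      _ ≤ _ := le_add_self
  · have h1 : t ^ 2 ≤ 16 * m ^ 2 := by
      have h2 : t ≤ 4 * m := by omega
      calc t ^ 2 ≤ (4 * m) ^ 2 := Nat.pow_le_pow_left h2 2
        _ = 16 * m ^ 2 := by ring
    rw [add_zero]
    exact_mod_cast h1

theorem dd_nonneg {q : ℕ → ℝ} (h : HQ q) (t : ℕ) : 0 ≤ dd q t :=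
  Finset.sum_nonneg fun i _ => by linarith [(h i).2]

theorem dd_le {q : ℕ → ℝ} (h : HQ q) (t : ℕ) : dd q t ≤ t := by
  unfold dd
  calc ∑ i ∈ Finset.range t, (1 - 2 * q i) ≤ ∑ _i ∈ Finset.range t, (1 : ℝ) :=
        Finset.sum_le_sum fun i _ => by linarith [(h i).1]
    _ = t := by simp

theorem dd_le_tsum (η : ℕ → ℝ) (t : ℕ) :
    ENNReal.ofReal (dd (co η) t) ≤ ∑' i, ENNReal.ofReal (2 * η i - 1) := by
  refine le_trans ?_ (ENNReal.sum_le_tsum (Finset.range t))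
  unfold dd co
  induction t with
  | zero => simp
  | succ t ih =>
    rw [Finset.sum_range_succ, Finset.sum_range_succ]
    refine ENNReal.ofReal_add_le.trans (add_le_add ih (le_of_eq ?_))
    congr 1
    ring

end MeanAux

open MeanAux in
theorem mean : StmMeas → StmMix → StmQTail → StmQMom → StmQWald → StmMean := by
  intro hMeas hMix _ hMom hWald lam hlam hpos m
  obtain ⟨-, hal, hT, hU, -, -, -, -, hdd⟩ := hMeas
  obtain ⟨hHQ, -, hLL, hmix⟩ := hMix lam hlam hpos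
  obtain ⟨hprob, C, hC, hCm⟩ := hMom
  have hnat : Measurable fun n : ℕ => (n : ℝ≥0∞) := measurable_from_nat
  have hnatR : Measurable fun n : ℕ => (n : ℝ) := measurable_from_nat
  have hTe : Measurable fun s : ℕ → Bool => ((T m s : ℕ) : ℝ≥0∞) := hnat.comp (hT m)
  have hUe : Measurable fun s : ℕ → Bool => ((U m s : ℕ) : ℝ≥0∞) := hnat.comp (hU m)
  have hUr : Measurable fun s : ℕ → Bool => ((U m s : ℕ) : ℝ) := hnatR.comp (hU m)
  -- mixture for functions of the arrows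
  have mixLL : ∀ g : (ℕ → Bool) → ℝ≥0∞, Measurable g →
      ∫⁻ s, g s ∂(LL lam) = ∫⁻ η, ∫⁻ s, g s ∂(stackLaw (co η)) ∂lam := by
    intro g hg
    rw [LL, lintegral_map hg hal]
    exact hmix (fun _ s => g s) (hg.comp measurable_snd)
  -- second moment of T
  have hT2 : ∫⁻ s, ((T m s : ℕ) : ℝ≥0∞) ^ 2 ∂(LL lam) < ⊤ := by
    rw [mixLL _ (hTe.pow_const 2)]
    calc ∫⁻ η, ∫⁻ s, ((T m s : ℕ) : ℝ≥0∞) ^ 2 ∂(stackLaw (co η)) ∂lam
        ≤ ∫⁻ _η, (((16 * m ^ 2 : ℕ) : ℝ≥0∞) + C) ∂lam := by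
          apply lintegral_mono_ae
          filter_upwards [hHQ] with η hη
          have hp := (hprob (co η) hη).1
          calc ∫⁻ s, ((T m s : ℕ) : ℝ≥0∞) ^ 2 ∂(stackLaw (co η))
              ≤ ∫⁻ s, (((16 * m ^ 2 : ℕ) : ℝ≥0∞) + (if 4 * m < T m s then ((T m s : ℕ) : ℝ≥0∞) ^ 4 else 0))
                  ∂(stackLaw (co η)) := lintegral_mono fun s => sq_le m (T m s)
            _ = ((16 * m ^ 2 : ℕ) : ℝ≥0∞) + ∫⁻ s, (if 4 * m < T m s then ((T m s : ℕ) : ℝ≥0∞) ^ 4 else 0)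
                  ∂(stackLaw (co η)) := by
                rw [lintegral_add_left measurable_const, lintegral_const, measure_univ, mul_one]
            _ ≤ ((16 * m ^ 2 : ℕ) : ℝ≥0∞) + C := add_le_add le_rfl (hCm (co η) hη m)
      _ = ((16 * m ^ 2 : ℕ) : ℝ≥0∞) + C := by
          rw [lintegral_const, measure_univ, mul_one]
      _ < ⊤ := ENNReal.add_lt_top.2 ⟨ENNReal.natCast_lt_top _, lt_top_iff_ne_top.2 hC⟩
  have hself : ∀ n : ℕ, ((n : ℕ) : ℝ≥0∞) ≤ ((n : ℕ) : ℝ≥0∞) ^ 2 := by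
    intro n
    exact_mod_cast Nat.le_self_pow (by norm_num) n
  have hT1 : ∫⁻ s, ((T m s : ℕ) : ℝ≥0∞) ∂(LL lam) < ⊤ :=
    (lintegral_mono fun s => hself (T m s)).trans_lt hT2
  have hUT : ∀ s, ((U m s : ℕ) : ℝ≥0∞) ≤ ((T m s : ℕ) : ℝ≥0∞) := fun s => by
    exact_mod_cast U_le m s
  have hU1 : ∫⁻ s, ((U m s : ℕ) : ℝ≥0∞) ∂(LL lam) < ⊤ := (lintegral_mono hUT).trans_lt hT1
  have i2 : Integrable (fun s => (U m s : ℝ) ^ 2) (LL lam) := by
    refine ⟨(hUr.pow_const 2).aestronglyMeasurable, ?_⟩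
    rw [hasFiniteIntegral_iff_ofReal (ae_of_all _ fun s => by positivity)]
    refine lt_of_le_of_lt (lintegral_mono fun s => ?_) hT2
    rw [ENNReal.ofReal_pow (by positivity), ENNReal.ofReal_natCast]
    exact pow_le_pow_left' (hUT s) 2
  have i1 : Integrable (fun s => (U m s : ℝ)) (LL lam) := by
    refine ⟨hUr.aestronglyMeasurable, ?_⟩
    rw [hasFiniteIntegral_iff_ofReal (ae_of_all _ fun s => by positivity)]
    refine lt_of_le_of_lt (lintegral_mono fun s => ?_) hU1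
    rw [ENNReal.ofReal_natCast]
  -- the used drift
  have hddm : Measurable fun p : (ℕ → ℝ) × (ℕ → Bool) => ENNReal.ofReal (dd (co p.1) (T m p.2)) :=
    (hdd m).ennreal_ofReal
  have hdm : dm lam m = ∫⁻ η, ∫⁻ s, ENNReal.ofReal (dd (co η) (T m s)) ∂(stackLaw (co η)) ∂lam :=
    hmix (fun η s => ENNReal.ofReal (dd (co η) (T m s))) hddm
  have d1 : dm lam m ≤ delta lam := by
    rw [hdm]
    unfold delta
    apply lintegral_mono_ae
    filter_upwards [hHQ] with η hη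
    have hp := (hprob (co η) hη).1
    calc ∫⁻ s, ENNReal.ofReal (dd (co η) (T m s)) ∂(stackLaw (co η))
        ≤ ∫⁻ _s, (∑' i, ENNReal.ofReal (2 * η i - 1)) ∂(stackLaw (co η)) :=
          lintegral_mono fun s => dd_le_tsum η (T m s)
      _ = ∑' i, ENNReal.ofReal (2 * η i - 1) := by rw [lintegral_const, measure_univ, mul_one]
  have d2 : dm lam m ≠ ⊤ := by
    apply ne_of_lt
    refine lt_of_le_of_lt ?_ hT1
    rw [hdm, mixLL _ hTe]
    apply lintegral_mono_ae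
    filter_upwards [hHQ] with η hη
    refine lintegral_mono fun s => ?_
    calc ENNReal.ofReal (dd (co η) (T m s)) ≤ ENNReal.ofReal (T m s : ℝ) :=
          ENNReal.ofReal_le_ofReal (dd_le hη _)
      _ = ((T m s : ℕ) : ℝ≥0∞) := ENNReal.ofReal_natCast _
  -- the mean
  have hsum : ∫⁻ s, ((U m s : ℕ) : ℝ≥0∞) ∂(LL lam) + dm lam m = m := by
    have h1 : ∫⁻ s, ((U m s : ℕ) : ℝ≥0∞) ∂(LL lam) = ∫⁻ z, ((U m (al z) : ℕ) : ℝ≥0∞) ∂(BZ lam) := by
      rw [LL, lintegral_map hUe hal]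
    have hUal : Measurable fun z : (ℕ → ℝ) × (ℕ → ℝ) => ((U m (al z) : ℕ) : ℝ≥0∞) := hUe.comp hal
    rw [h1, dm, ← lintegral_add_left hUal]
    have h2 := hmix (fun η s => ((U m s : ℕ) : ℝ≥0∞) + ENNReal.ofReal (dd (co η) (T m s)))
      ((hUe.comp measurable_snd).add hddm)
    rw [h2]
    have h3 : ∀ᵐ η ∂lam, ∫⁻ s, (((U m s : ℕ) : ℝ≥0∞) + ENNReal.ofReal (dd (co η) (T m s)))
        ∂(stackLaw (co η)) = m := by
      filter_upwards [hHQ] with η hη
      have hp := (hprob (co η) hη).1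
      obtain ⟨w1, -, w3, -⟩ := hWald (co η) hη m
      have j1 : Integrable (fun s => (U m s : ℝ)) (stackLaw (co η)) := by
        refine w1.mono' hUr.aestronglyMeasurable (ae_of_all _ fun s => ?_)
        rw [Real.norm_eq_abs, abs_of_nonneg (Nat.cast_nonneg _)]
        exact_mod_cast U_le m s
      have hdT : Measurable fun s => dd (co η) (T m s) :=
        (measurable_from_nat (f := fun n : ℕ => dd (co η) n)).comp (hT m)
      have j2 : Integrable (fun s => dd (co η) (T m s)) (stackLaw (co η)) := by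
        refine w1.mono' hdT.aestronglyMeasurable (ae_of_all _ fun s => ?_)
        rw [Real.norm_eq_abs, abs_of_nonneg (dd_nonneg hη _)]
        exact dd_le hη _
      have e1 : ∫ s, (U m s : ℝ) ∂(stackLaw (co η)) + ∫ s, dd (co η) (T m s) ∂(stackLaw (co η)) = m := by
        rw [integral_sub j1 (integrable_const _), integral_const] at w3
        simp only [probReal_univ, smul_eq_mul, one_mul] at w3
        linarith
      have e2 : ∫⁻ s, ((U m s : ℕ) : ℝ≥0∞) ∂(stackLaw (co η)) =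
          ENNReal.ofReal (∫ s, (U m s : ℝ) ∂(stackLaw (co η))) := by
        rw [ofReal_integral_eq_lintegral_ofReal j1 (ae_of_all _ fun s => Nat.cast_nonneg _)]
        congr 1
        funext s
        rw [ENNReal.ofReal_natCast]
      have e3 : ∫⁻ s, ENNReal.ofReal (dd (co η) (T m s)) ∂(stackLaw (co η)) =
          ENNReal.ofReal (∫ s, dd (co η) (T m s) ∂(stackLaw (co η))) := by
        rw [ofReal_integral_eq_lintegral_ofReal j2 (ae_of_all _ fun s => dd_nonneg hη _)]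
      rw [lintegral_add_left hUe, e2, e3, ← ENNReal.ofReal_add
        (integral_nonneg fun s => Nat.cast_nonneg _) (integral_nonneg fun s => dd_nonneg hη _), e1,
        ENNReal.ofReal_natCast]
    rw [lintegral_congr_ae h3, lintegral_const, measure_univ, mul_one]
  refine ⟨i1, i2, d1, d2, ?_⟩
  have e4 : ∫ s, (U m s : ℝ) ∂(LL lam) = (∫⁻ s, ((U m s : ℕ) : ℝ≥0∞) ∂(LL lam)).toReal := by
    rw [integral_eq_lintegral_of_nonneg_ae (ae_of_all _ fun s => Nat.cast_nonneg _) hUr.aestronglyMeasurable]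
    congr 2
    funext s
    rw [ENNReal.ofReal_natCast]
  have e5 := congrArg ENNReal.toReal hsum
  rw [ENNReal.toReal_add hU1.ne d2, ENNReal.toReal_natCast] at e5
  rw [e4]
  linarith

end Pool.Agent.N276.BE
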