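import Pool.Agent.N276.BE.Stm
import Pool.Agent.N276.ER.Meas

/-!
# Measurability
-/

set_option autoImplicit false

open MeasureTheory ProbabilityTheory Filter Topology Set
open scoped ENNReal

namespace Pool.Agent.N276.BE

open Pool.Agent.N276.ER

namespace MeasAux

theorem meas_ar : Measurable ar := by
  refine measurable_pi_lambda _ fun i => measurable_to_bool ?_
  have h : (fun z : (ℕ → ℝ) × (ℕ → ℝ) => ar z i) ⁻¹' {true} = {z | z.2 i < z.1 i} := by
    ext z
    simp [ar]
  rw [h]
  exact measurableSet_lt ((measurable_pi_apply i).comp measurable_snd)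
    ((measurable_pi_apply i).comp measurable_fst)

theorem meas_al : Measurable al := by
  refine measurable_pi_lambda _ fun i => measurable_to_bool ?_
  have h : (fun z : (ℕ → ℝ) × (ℕ → ℝ) => al z i) ⁻¹' {true} = {z | z.1 i ≤ z.2 i} := by
    ext z
    simp [al]
  rw [h]
  exact measurableSet_le ((measurable_pi_apply i).comp measurable_fst)
    ((measurable_pi_apply i).comp measurable_snd)

theorem meas_dd (t : ℕ) : Measurable fun η : ℕ → ℝ => dd (co η) t := by
  unfold dd co
  refine Finset.measurable_sum _ fun i _ => ?_
  exact measurable_const.sub (measurable_const.mul (measurable_const.sub (measurable_pi_apply i)))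

end MeasAux

/-- measurability -/
theorem meas : StmMeas := by
  obtain ⟨hT, hU, hn, hX, -, -⟩ := Pool.Agent.N276.ER.meas
  refine ⟨MeasAux.meas_ar, MeasAux.meas_al, hT, hU, hn, hX, fun k => ?_, fun a k => ?_,
    fun m => ?_⟩
  · induction k with
    | zero => exact measurable_const
    | succ k ih =>
      exact ER.MeasAux.meas_eval (fun s : ℕ → ℕ → Bool => W s k) (fun x s => U (x + 1) (s k)) ih
        fun x => (hU (x + 1)).comp (measurable_pi_apply k)
  · induction k with
    | zero => exact measurable_const
    | succ k ih =>
      exact ER.MeasAux.meas_eval (fun s : ℕ → ℕ → Bool => Yl a s k) (fun x s => U x (s k)) ih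
        fun x => (hU x).comp (measurable_pi_apply k)
  · exact ER.MeasAux.meas_eval (fun p : (ℕ → ℝ) × (ℕ → Bool) => T m p.2)
      (fun t p => dd (co p.1) t) ((hT m).comp measurable_snd)
      fun t => (MeasAux.meas_dd t).comp measurable_fst

end Pool.Agent.N276.BE
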