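import Pool.Agent.N276.BE.Stm

/-!
# The averaged law is the mixture of the quenched laws
-/

set_option autoImplicit false

open MeasureTheory ProbabilityTheory Filter Topology Set
open scoped ENNReal

namespace Pool.Agent.N276.BE.MixAux

open Pool.Agent.N276.ER

instance uprob : IsProbabilityMeasure ((volume : Measure ℝ).restrict (Set.Icc 0 1)) := by
  constructor
  rw [Measure.restrict_apply MeasurableSet.univ, Set.univ_inter, Real.volume_Icc]
  simp

theorem meas_dec (c : ℝ) : Measurable (fun u : ℝ => decide (c ≤ u)) := by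
  refine measurable_to_countable' fun b => ?_
  cases b with
  | true =>
    have : (fun u : ℝ => decide (c ≤ u)) ⁻¹' {true} = Set.Ici c := by
      ext u
      simp
    rw [this]
    exact measurableSet_Ici
  | false =>
    have : (fun u : ℝ => decide (c ≤ u)) ⁻¹' {false} = Set.Iio c := by
      ext u
      simp
    rw [this]
    exact measurableSet_Iio

theorem map_dec {c : ℝ} (h0 : 0 ≤ c) (h1 : c ≤ 1) :
    ((volume : Measure ℝ).restrict (Set.Icc 0 1)).map (fun u : ℝ => decide (c ≤ u)) =
      bern (1 - c) := by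
  refine Measure.ext_of_singleton fun b => ?_
  rw [Measure.map_apply (meas_dec c) (measurableSet_singleton b)]
  unfold bern
  cases b with
  | true =>
    have h2 : (fun u : ℝ => decide (c ≤ u)) ⁻¹' {true} = Set.Ici c := by
      ext u
      simp
    rw [h2, Measure.restrict_apply measurableSet_Ici]
    have h3 : Set.Ici c ∩ Set.Icc 0 1 = Set.Icc c 1 := by
      ext u
      simp only [mem_inter_iff, mem_Ici, mem_Icc]
      constructor
      · rintro ⟨h4, h5, h6⟩
        exact ⟨h4, h6⟩
      · rintro ⟨h4, h5⟩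
        exact ⟨h4, h0.trans h4, h5⟩
    rw [h3, Real.volume_Icc]
    simp
  | false =>
    have h2 : (fun u : ℝ => decide (c ≤ u)) ⁻¹' {false} = Set.Iio c := by
      ext u
      simp
    rw [h2, Measure.restrict_apply measurableSet_Iio]
    have h3 : Set.Iio c ∩ Set.Icc 0 1 = Set.Ico 0 c := by
      ext u
      simp only [mem_inter_iff, mem_Iio, mem_Icc, mem_Ico]
      constructor
      · rintro ⟨h4, h5, h6⟩
        exact ⟨h5, h4⟩
      · rintro ⟨h4, h5⟩
        exact ⟨h5, h4, h5.le.trans h1⟩
    rw [h3, Real.volume_Ico]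
    simp

theorem map_al {η : ℕ → ℝ} (h : ∀ i, 0 ≤ η i ∧ η i ≤ 1) :
    UU.map (fun u : ℕ → ℝ => al (η, u)) = stackLaw (co η) := by
  have h1 := Measure.infinitePi_map_pi
    (μ := fun _ : ℕ => (volume : Measure ℝ).restrict (Set.Icc 0 1))
    (f := fun (i : ℕ) (u : ℝ) => decide (η i ≤ u)) (fun i => meas_dec (η i))
  have h2 : (fun u : ℕ → ℝ => al (η, u)) = fun (u : ℕ → ℝ) (i : ℕ) => decide (η i ≤ u i) := rfl
  rw [h2]
  unfold UU
  rw [h1]
  unfold stackLaw
  congr 1
  funext i
  rw [map_dec (h i).1 (h i).2]
  rfl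

end Pool.Agent.N276.BE.MixAux

namespace Pool.Agent.N276.BE

open Pool.Agent.N276.ER

theorem mix : StmMeas → StmMix := by
  intro hM lam hlam hPOS
  obtain ⟨har, hal, _⟩ := hM
  have hUU : IsProbabilityMeasure UU := by
    unfold UU
    infer_instance
  refine ⟨?_, ?_, ?_, ?_⟩
  · filter_upwards [hPOS] with η hη i
    have := hη i
    constructor
    · show 0 ≤ 1 - η i
      linarith [this.2]
    · show 1 - η i ≤ 1 / 2
      linarith [this.1]
  · exact Measure.isProbabilityMeasure_map har.aemeasurable
  · exact Measure.isProbabilityMeasure_map hal.aemeasurable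
  · intro h hh
    have hm : Measurable (fun z : (ℕ → ℝ) × (ℕ → ℝ) => h z.1 (al z)) :=
      hh.comp (measurable_fst.prodMk hal)
    rw [lintegral_prod _ hm.aemeasurable]
    refine lintegral_congr_ae ?_
    filter_upwards [hPOS] with η hη
    have h1 : Measurable (fun u : ℕ → ℝ => al (η, u)) := hal.comp measurable_prodMk_left
    have h2 : Measurable (fun s : ℕ → Bool => h η s) := hh.comp measurable_prodMk_left
    rw [← MixAux.map_al (η := η) (fun i => ⟨by linarith [(hη i).1], (hη i).2⟩),
      lintegral_map h2 h1]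

end Pool.Agent.N276.BE
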