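import Pool.Agent.N276.BE.Stm
import Pool.Agent.N276.ER.Path

/-!
# Second moments of `U m - m` if `δ ≤ 2`
-/

set_option autoImplicit false

open MeasureTheory ProbabilityTheory Filter Topology Set
open scoped ENNReal

namespace Pool.Agent.N276.BE

open Pool.Agent.N276.ER

namespace MomAux

/-- the used drift -/
noncomputable def D (m : ℕ) (z : (ℕ → ℝ) × (ℕ → ℝ)) : ℝ := dd (co z.1) (T m (al z))

/-- the martingale part -/
noncomputable def M (m : ℕ) (z : (ℕ → ℝ) × (ℕ → ℝ)) : ℝ := (U m (al z) : ℝ) - m + D m z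

lemma measD (h : StmMeas) (m : ℕ) : Measurable (D m) := by
  obtain ⟨-, h2, -, -, -, -, -, -, h9⟩ := h
  have h3 : Measurable fun z : (ℕ → ℝ) × (ℕ → ℝ) => (z.1, al z) :=
    measurable_fst.prodMk h2
  have h4 : Measurable ((fun p : (ℕ → ℝ) × (ℕ → Bool) => dd (co p.1) (T m p.2)) ∘
      fun z : (ℕ → ℝ) × (ℕ → ℝ) => (z.1, al z)) := Measurable.comp (h9 m) h3
  have h5 : D m = (fun p : (ℕ → ℝ) × (ℕ → Bool) => dd (co p.1) (T m p.2)) ∘
      fun z : (ℕ → ℝ) × (ℕ → ℝ) => (z.1, al z) := by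
    funext z
    rfl
  rw [h5]
  exact h4

lemma measU (h : StmMeas) (m : ℕ) :
    Measurable fun z : (ℕ → ℝ) × (ℕ → ℝ) => (U m (al z) : ℝ) - m :=
  ((measurable_from_nat (f := fun n : ℕ => (n : ℝ))).comp
    ((h.2.2.2.1 m).comp h.2.1)).sub_const _

lemma measM (h : StmMeas) (m : ℕ) : Measurable (M m) := (measU h m).add (measD h m)

lemma U_zero (s : ℕ → Bool) : U 0 s = 0 := by
  have hT : T 0 s = 0 := by
    unfold T
    exact Nat.sInf_eq_zero.2 (Or.inl (Nat.zero_le _))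
  unfold U
  omega

lemma transfer (h : StmMeas) (lam : Measure (ℕ → ℝ)) (m : ℕ) :
    ∫ s, ((U m s : ℝ) - m) ^ 2 ∂(LL lam) = ∫ z, ((U m (al z) : ℝ) - m) ^ 2 ∂(BZ lam) := by
  unfold LL
  refine integral_map (φ := al) h.2.1.aemeasurable
    (f := fun s : ℕ → Bool => ((U m s : ℝ) - m) ^ 2) ?_
  exact ((((measurable_from_nat (f := fun n : ℕ => (n : ℝ))).comp
    (h.2.2.2.1 m)).sub_const _).pow_const 2).aestronglyMeasurable

lemma expand (h : StmMeas) (lam : Measure (ℕ → ℝ)) (m : ℕ)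
    (hD : Integrable (fun z => D m z ^ 2) (BZ lam))
    (hM : Integrable (fun z => M m z ^ 2) (BZ lam)) :
    ∫ s, ((U m s : ℝ) - m) ^ 2 ∂(LL lam) =
      ∫ z, M m z ^ 2 ∂(BZ lam) - 2 * ∫ z, M m z * D m z ∂(BZ lam) + ∫ z, D m z ^ 2 ∂(BZ lam) := by
  have hMD : Integrable (fun z => M m z * D m z) (BZ lam) := by
    have h1 : MemLp (M m) 2 (BZ lam) :=
      (memLp_two_iff_integrable_sq (measM h m).aestronglyMeasurable).2 hM
    have h2 : MemLp (D m) 2 (BZ lam) :=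
      (memLp_two_iff_integrable_sq (measD h m).aestronglyMeasurable).2 hD
    exact h1.integrable_mul h2
  have hsub : Integrable (fun z => M m z ^ 2 - 2 * (M m z * D m z)) (BZ lam) :=
    hM.sub (hMD.const_mul 2)
  rw [transfer h, ← integral_const_mul, ← integral_sub hM (hMD.const_mul 2),
    ← integral_add hsub hD]
  refine integral_congr_ae (Eventually.of_forall fun z => ?_)
  simp only [M]
  ring

lemma sqD (h : StmMeas) (lam : Measure (ℕ → ℝ)) (m : ℕ)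
    (h0 : ∀ᵐ z ∂(BZ lam), 0 ≤ D m z) (c : ℝ≥0∞) (hc : c ≠ ⊤)
    (hb : ∫⁻ z, ENNReal.ofReal (D m z) ^ 2 ∂(BZ lam) ≤ c * m) :
    ∫ z, D m z ^ 2 ∂(BZ lam) ≤ c.toReal * m := by
  rw [integral_eq_lintegral_of_nonneg_ae (Eventually.of_forall fun z => sq_nonneg _)
    ((measD h m).pow_const 2).aestronglyMeasurable]
  have h1 : ∫⁻ z, ENNReal.ofReal (D m z ^ 2) ∂(BZ lam) =
      ∫⁻ z, ENNReal.ofReal (D m z) ^ 2 ∂(BZ lam) := by
    refine lintegral_congr_ae ?_
    filter_upwards [h0] with z hz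
    rw [ENNReal.ofReal_pow hz]
  rw [h1]
  have h2 : (c * (m : ℝ≥0∞)).toReal = c.toReal * m := by
    rw [ENNReal.toReal_mul, ENNReal.toReal_natCast]
  rw [← h2]
  exact ENNReal.toReal_mono (ENNReal.mul_ne_top hc (ENNReal.natCast_ne_top m)) hb

end MomAux

open MomAux

theorem mom : StmMeas → StmMix → StmMean → StmM2 → StmD2 → StmCross → StmMom := by
  intro hMeas _ hMean hM2 hD2 hCross lam hlam hpos hdel
  obtain ⟨C, hC0, hC⟩ := hCross lam hlam hpos hdel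
  obtain ⟨⟨K, hK, hKb⟩, hε⟩ := hD2 lam hlam hpos hdel
  have key : ∀ m : ℕ, ∫ s, ((U m s : ℝ) - m) ^ 2 ∂(LL lam) =
      ∫ z, M m z ^ 2 ∂(BZ lam) - 2 * ∫ z, M m z * D m z ∂(BZ lam) + ∫ z, D m z ^ 2 ∂(BZ lam) := by
    intro m
    obtain ⟨-, -, h3, h4, -, -⟩ := hM2 lam hlam hpos m
    exact expand hMeas lam m h3 h4
  have hlowM : ∀ m : ℕ, 2 * (m : ℝ) - 4 ≤ ∫ z, M m z ^ 2 ∂(BZ lam) := by
    intro m
    obtain ⟨-, -, -, -, -, h6⟩ := hM2 lam hlam hpos m
    obtain ⟨-, -, h7, h8, -⟩ := hMean lam hlam hpos m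
    have h9 : (dm lam m).toReal ≤ 2 := by
      have := ENNReal.toReal_mono (by simp) (h7.trans hdel)
      simpa using this
    have h10 : 2 * (m : ℝ) - 2 * (dm lam m).toReal ≤ ∫ z, M m z ^ 2 ∂(BZ lam) := h6
    linarith
  have hupM : ∀ m : ℕ, ∫ z, M m z ^ 2 ∂(BZ lam) ≤ 2 * m := by
    intro m
    obtain ⟨-, -, -, -, h5, -⟩ := hM2 lam hlam hpos m
    exact h5
  have hDnn : ∀ m : ℕ, ∀ᵐ z ∂(BZ lam), 0 ≤ D m z := by
    intro m
    obtain ⟨-, h2, -, -, -, -⟩ := hM2 lam hlam hpos m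
    filter_upwards [h2] with z hz using hz.1
  have hD0 : ∀ m : ℕ, 0 ≤ ∫ z, D m z ^ 2 ∂(BZ lam) := fun m =>
    integral_nonneg fun z => sq_nonneg _
  have hcr : ∀ m : ℕ, 1 ≤ m → |∫ z, M m z * D m z ∂(BZ lam)| ≤ C * Real.sqrt m := hC
  refine ⟨⟨4 + 2 * C, by linarith, fun m => ?_⟩, ⟨2 + 2 * C + K.toReal, ?_, fun m => ?_⟩,
    fun ε he => ?_⟩
  · rcases Nat.eq_zero_or_pos m with rfl | hm
    · have h0 : 0 ≤ ∫ s, ((U 0 s : ℝ) - (0 : ℕ)) ^ 2 ∂(LL lam) :=
        integral_nonneg fun s => sq_nonneg _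
      simpa using h0
    · rw [key m]
      have h1 := hlowM m
      have h2 := (abs_le.1 (hcr m hm)).2
      have h3 := hD0 m
      have h4 : (1 : ℝ) ≤ Real.sqrt m := by
        rw [Real.one_le_sqrt]
        exact_mod_cast hm
      nlinarith
  · have := ENNReal.toReal_nonneg (a := K)
    linarith
  · rcases Nat.eq_zero_or_pos m with rfl | hm
    · have h0 : ∀ s : ℕ → Bool, ((U 0 s : ℝ) - (0 : ℕ)) ^ 2 = 0 := by
        intro s
        rw [U_zero]
        simp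
      simp only [h0]
      simp
    · rw [key m]
      have h1 := hupM m
      have h2 := (abs_le.1 (hcr m hm)).1
      have h3 := sqD hMeas lam m (hDnn m) K hK (hKb m hm)
      have hm1 : (1 : ℝ) ≤ m := by exact_mod_cast hm
      have h4 : Real.sqrt m ≤ m := by
        rw [Real.sqrt_le_left (by linarith)]
        nlinarith
      have h5 : C * Real.sqrt m ≤ C * m := mul_le_mul_of_nonneg_left h4 hC0
      linarith
  · obtain ⟨m₁, hm₁⟩ := hε (ENNReal.ofReal (ε / 2)) (by rw [ENNReal.ofReal_pos]; linarith)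
    refine ⟨max (max 1 m₁) ⌈(4 * C / ε) ^ 2⌉₊, fun m hm => ?_⟩
    have hma : 1 ≤ m := (le_max_left _ _).trans ((le_max_left _ _).trans hm)
    have hmb : m₁ ≤ m := (le_max_right _ _).trans ((le_max_left _ _).trans hm)
    have hmc : (4 * C / ε) ^ 2 ≤ m :=
      (Nat.le_ceil _).trans (by exact_mod_cast (le_max_right _ _).trans hm)
    rw [key m]
    have h1 := hupM m
    have h2 := (abs_le.1 (hcr m hma)).1
    have h3 := sqD hMeas lam m (hDnn m) (ENNReal.ofReal (ε / 2)) ENNReal.ofReal_ne_top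
      (hm₁ m hmb)
    rw [ENNReal.toReal_ofReal (by linarith)] at h3
    have h4 : 4 * C / ε ≤ Real.sqrt m := Real.le_sqrt_of_sq_le hmc
    have h5 : 4 * C ≤ Real.sqrt m * ε := by
      rwa [div_le_iff₀ he] at h4
    have h6 : Real.sqrt m * Real.sqrt m = m := Real.mul_self_sqrt (Nat.cast_nonneg m)
    have h7 : 0 ≤ Real.sqrt m := Real.sqrt_nonneg _
    have h8 : 4 * C * Real.sqrt m ≤ ε * m := by
      calc 4 * C * Real.sqrt m ≤ Real.sqrt m * ε * Real.sqrt m :=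
            mul_le_mul_of_nonneg_right h5 h7
        _ = ε * (Real.sqrt m * Real.sqrt m) := by ring
        _ = ε * m := by rw [h6]
    linarith

end Pool.Agent.N276.BE
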