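import Pool.Agent.N276.BE.Stm

/-! # The speed is not negative (helper239 for helper276) -/

set_option autoImplicit false

open MeasureTheory ProbabilityTheory Filter Topology Set
open scoped ENNReal

namespace Pool.Agent.N276.BE

open Pool.Agent.N276.ER

namespace NonnegAux

theorem X_zero (ω : ℤ → ℕ → Bool) : X ω 0 = 0 := rfl

theorem X_succ (ω : ℤ → ℕ → Bool) (n : ℕ) : X ω (n + 1) = X ω n + 1 ∨ X ω (n + 1) = X ω n - 1 := by
  have e : X ω (n + 1) = X ω n + (if ω (st ω n).1 ((st ω n).2 (st ω n).1) then 1 else -1) := rfl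
  rw [e]
  split_ifs
  · left; rfl
  · right; ring

theorem X_abs (ω : ℤ → ℕ → Bool) (n : ℕ) : |X ω n| ≤ n := by
  induction n with
  | zero => simp [X_zero]
  | succ n ih =>
    rw [abs_le] at ih ⊢
    push_cast
    rcases X_succ ω n with h | h <;> rw [h] <;> constructor <;> linarith [ih.1, ih.2]

/-- extension of a path of length `n` by one step -/
def ext {n : ℕ} (y : Fin (n + 1) → ℤ) (d : ℤ) (k : ℕ) : ℤ :=
  if h : k < n + 1 then y ⟨k, h⟩ else y (Fin.last n) + d

theorem ext_lt {n : ℕ} (y : Fin (n + 1) → ℤ) (d : ℤ) {k : ℕ} (h : k < n + 1) :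
    ext y d k = y ⟨k, h⟩ := by
  unfold ext
  rw [dif_pos h]

theorem ext_last {n : ℕ} (y : Fin (n + 1) → ℤ) (d : ℤ) :
    ext y d (n + 1) = y (Fin.last n) + d := by
  unfold ext
  rw [dif_neg (lt_irrefl _)]

theorem ext_n {n : ℕ} (y : Fin (n + 1) → ℤ) (d : ℤ) : ext y d n = y (Fin.last n) := by
  rw [ext_lt y d (Nat.lt_succ_self n)]
  rfl

theorem visits_congr {x x' : ℕ → ℤ} {n : ℕ} (h : ∀ k ≤ n, x k = x' k) :
    visits x n = visits x' n := by
  unfold visits
  congr 1
  apply Finset.filter_congr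
  intro k hk
  rw [h k (Finset.mem_range.1 hk).le, h n le_rfl]

theorem ext_congr {n : ℕ} (y : Fin (n + 1) → ℤ) (d d' : ℤ) {k : ℕ} (h : k ≤ n) :
    ext y d k = ext y d' k := by
  rw [ext_lt y d (Nat.lt_succ_of_le h), ext_lt y d' (Nat.lt_succ_of_le h)]

theorem env_ae {lam : Measure (ℕ → ℝ)} [IsProbabilityMeasure lam] (h : POS lam) :
    ∀ᵐ η ∂(Measure.infinitePi fun _ : ℤ => lam), ∀ z i, 1 / 2 ≤ η z i ∧ η z i ≤ 1 := by
  rw [ae_all_iff]
  intro z
  exact (measurePreserving_eval_infinitePi (fun _ : ℤ => lam) z).quasiMeasurePreserving.ae h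

/-- the event of a path with a last step -/
def ev {n : ℕ} (y : Fin (n + 1) → ℤ) (d : ℤ) : Set (ℤ → ℕ → Bool) :=
  {ω | ∀ k ≤ n + 1, X ω k = ext y d k}

theorem ev_le {lam : Measure (ℕ → ℝ)} [IsProbabilityMeasure lam] (h : POS lam)
    (hl : IsERWIID lam (QL lam) fun n ω => X ω n) {n : ℕ} (y : Fin (n + 1) → ℤ) :
    QL lam (ev y (-1)) ≤ QL lam (ev y 1) := by
  unfold ev
  rw [hl.law (n + 1) (ext y (-1)), hl.law (n + 1) (ext y 1), ext_congr y (-1) 1 (Nat.zero_le n)]
  split_ifs
  · refine lintegral_mono_ae ?_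
    filter_upwards [env_ae h] with η hη
    rw [Finset.prod_range_succ, Finset.prod_range_succ]
    refine mul_le_mul' (le_of_eq ?_) ?_
    · refine Finset.prod_congr rfl fun k hk => ?_
      have hk' : k + 1 ≤ n := Finset.mem_range.1 hk
      unfold stepProb
      rw [ext_congr y (-1) 1 (by omega : k ≤ n), ext_congr y (-1) 1 hk',
        visits_congr (x := ext y (-1)) (x' := ext y 1) (n := k)
          (fun k' hk'' => ext_congr y (-1) 1 (by omega))]
    · apply ENNReal.ofReal_le_ofReal
      unfold stepProb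
      rw [ext_last, ext_last, ext_n, ext_n,
        visits_congr (x := ext y (-1)) (x' := ext y 1) (n := n)
          (fun k' hk'' => ext_congr y (-1) 1 hk'')]
      rw [if_neg (by omega), if_pos (by ring), if_pos rfl]
      linarith [(hη (y (Fin.last n)) (visits (ext y 1) n)).1]
  · exact le_rfl

theorem ev_meas {lam : Measure (ℕ → ℝ)}
    (hl : IsERWIID lam (QL lam) fun n ω => X ω n) {n : ℕ} (y : Fin (n + 1) → ℤ) (d : ℤ) :
    MeasurableSet (ev y d) := by
  have e : ev y d = ⋂ k, ⋂ (_ : k ≤ n + 1), (fun ω => X ω k) ⁻¹' {ext y d k} := by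
    ext ω
    simp [ev]
  rw [e]
  exact MeasurableSet.iInter fun k => MeasurableSet.iInter fun _ =>
    hl.meas k (MeasurableSet.singleton _)

theorem ev_disj {n : ℕ} (d : ℤ) :
    Pairwise (Function.onFun Disjoint fun y : Fin (n + 1) → ℤ => ev y d) := by
  intro y y' hne
  rw [Function.onFun, Set.disjoint_left]
  intro ω h h'
  apply hne
  funext i
  have h1 := h i (by omega)
  have h2 := h' i (by omega)
  rw [ext_lt y d i.2] at h1
  rw [ext_lt y' d i.2] at h2
  exact h1.symm.trans h2

theorem ev_union {n : ℕ} (d : ℤ) :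
    {ω : ℤ → ℕ → Bool | X ω (n + 1) = X ω n + d} = ⋃ y : Fin (n + 1) → ℤ, ev y d := by
  ext ω
  simp only [mem_setOf_eq, mem_iUnion]
  constructor
  · intro h
    refine ⟨fun i => X ω i, fun k hk => ?_⟩
    rcases Nat.lt_or_ge k (n + 1) with h1 | h1
    · rw [ext_lt _ d h1]
    · have : k = n + 1 := le_antisymm hk h1
      rw [this, ext_last, h]
      rfl
  · rintro ⟨y, hy⟩
    rw [hy (n + 1) le_rfl, ext_last, hy n (by omega), ext_n]

theorem step_le {lam : Measure (ℕ → ℝ)} [IsProbabilityMeasure lam] (h : POS lam)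
    (hl : IsERWIID lam (QL lam) fun n ω => X ω n) (n : ℕ) :
    QL lam {ω | X ω (n + 1) = X ω n + -1} ≤ QL lam {ω | X ω (n + 1) = X ω n + 1} := by
  rw [ev_union (-1), ev_union 1, measure_iUnion (ev_disj (-1)) fun y => ev_meas hl y (-1),
    measure_iUnion (ev_disj 1) fun y => ev_meas hl y 1]
  exact ENNReal.tsum_le_tsum fun y => ev_le h hl y

theorem X_int {lam : Measure (ℕ → ℝ)} (hl : IsERWIID lam (QL lam) fun n ω => X ω n)
    (n : ℕ) : Integrable (fun ω => (X ω n : ℝ)) (QL lam) := by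
  haveI := hl.prob
  refine Integrable.of_bound (C := n) ?_ ?_
  · have h1 : Measurable fun ω : ℤ → ℕ → Bool => (X ω n : ℝ) :=
      (measurable_from_top (f := fun z : ℤ => (z : ℝ))).comp (hl.meas n)
    exact h1.aestronglyMeasurable
  · refine Eventually.of_forall fun ω => ?_
    rw [Real.norm_eq_abs]
    exact_mod_cast X_abs ω n

theorem X_step {lam : Measure (ℕ → ℝ)} [IsProbabilityMeasure lam] (h : POS lam)
    (hl : IsERWIID lam (QL lam) fun n ω => X ω n) (n : ℕ) :
    0 ≤ ∫ ω, ((X ω (n + 1) : ℝ) - X ω n) ∂(QL lam) := by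
  haveI := hl.prob
  have hm : ∀ d : ℤ, MeasurableSet {ω : ℤ → ℕ → Bool | X ω (n + 1) = X ω n + d} := by
    intro d
    rw [ev_union d]
    exact MeasurableSet.iUnion fun y => ev_meas hl y d
  have e : ∀ ω, ((X ω (n + 1) : ℝ) - X ω n) =
      {ω : ℤ → ℕ → Bool | X ω (n + 1) = X ω n + 1}.indicator (fun _ => (1 : ℝ)) ω -
      {ω : ℤ → ℕ → Bool | X ω (n + 1) = X ω n + -1}.indicator (fun _ => (1 : ℝ)) ω := by
    intro ω
    rcases X_succ ω n with h1 | h1
    · rw [indicator_of_mem (by exact h1), indicator_of_notMem, h1]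
      · push_cast
        ring
      · intro h2
        have h2' : X ω (n + 1) = X ω n + -1 := h2
        omega
    · rw [indicator_of_notMem, indicator_of_mem, h1]
      · push_cast
        ring
      · show X ω (n + 1) = X ω n + -1
        omega
      · intro h2
        have h2' : X ω (n + 1) = X ω n + 1 := h2
        omega
  simp_rw [e]
  rw [integral_sub, integral_indicator_const _ (hm 1), integral_indicator_const _ (hm (-1))]
  · rw [smul_eq_mul, smul_eq_mul, mul_one, mul_one, sub_nonneg]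
    unfold Measure.real
    exact ENNReal.toReal_mono (measure_ne_top _ _) (step_le h hl n)
  · exact (integrable_const (1 : ℝ)).indicator (hm 1)
  · exact (integrable_const (1 : ℝ)).indicator (hm (-1))

theorem X_mean {lam : Measure (ℕ → ℝ)} [IsProbabilityMeasure lam] (h : POS lam)
    (hl : IsERWIID lam (QL lam) fun n ω => X ω n) (n : ℕ) :
    0 ≤ ∫ ω, (X ω n : ℝ) ∂(QL lam) := by
  induction n with
  | zero => simp [X_zero]
  | succ n ih =>
    have h1 := X_step h hl n
    rw [integral_sub (X_int hl (n + 1)) (X_int hl n)] at h1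
    linarith

end NonnegAux

open NonnegAux

theorem nonneg : StmMix → StmLaw → StmNonneg := by
  intro _ hlaw lam hlam hpos v hv
  have hl := hlaw lam hlam hpos
  haveI := hl.prob
  have h1 : Tendsto (fun n : ℕ => ∫ ω, (X ω n : ℝ) / n ∂(QL lam)) atTop
      (𝓝 (∫ _ω, v ∂(QL lam))) := by
    refine tendsto_integral_of_dominated_convergence (fun _ => (1 : ℝ)) ?_ (integrable_const _)
      ?_ hv
    · intro n
      exact ((X_int hl n).div_const _).aestronglyMeasurable
    · intro n
      refine Eventually.of_forall fun ω => ?_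
      rw [norm_div, Real.norm_eq_abs, Real.norm_eq_abs, Nat.abs_cast]
      have h2 : |(X ω n : ℝ)| ≤ n := by exact_mod_cast X_abs ω n
      exact div_le_one_of_le₀ h2 (Nat.cast_nonneg n)
  rw [integral_const, probReal_univ, one_smul] at h1
  refine ge_of_tendsto' h1 fun n => ?_
  rw [integral_div]
  exact div_nonneg (X_mean hpos hl n) (Nat.cast_nonneg n)

end Pool.Agent.N276.BE
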