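import Pool.Agent.N276.BE.Stm
import Pool.Agent.N276.ER.Path

/-!
# Lower bound for the hitting time (helper433)
-/

set_option autoImplicit false

open Finset

namespace Pool.Agent.N276.BE

open Pool.Agent.N276.ER

namespace PathLowAux

theorem fails_neg (s : ℕ → Bool) (n : ℕ) : fails (neg s) n + fails s n = n := by
  induction n with
  | zero => simp [fails]
  | succ n ih =>
    rw [fails_succ, fails_succ]
    unfold neg at ih ⊢
    cases h : s n <;> simp <;> omega

theorem fails_mono (s : ℕ → Bool) {a b : ℕ} (h : a ≤ b) : fails s a ≤ fails s b := by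
  unfold fails
  exact card_le_card (filter_subset_filter _ (range_mono h))

/-- the last visit to `y` was followed by a step to the right, if the walk is above `y` -/
theorem last_right (ω : ℤ → ℕ → Bool) (y : ℤ) (m : ℕ) (hm : y < X ω m) (hv : 1 ≤ vis ω y m) :
    ω y (vis ω y m - 1) = true := by
  induction m with
  | zero => simp [vis] at hv
  | succ m ih =>
    have hX := X_succ ω m
    rw [vis_succ] at hv ⊢
    by_cases h : X ω m = y
    · rw [if_pos h] at hv ⊢
      rw [Nat.add_sub_cancel]
      by_contra hb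
      rw [h, if_neg hb] at hX
      omega
    · rw [if_neg h, add_zero] at hv ⊢
      refine ih ?_ hv
      split_ifs at hX <;> omega

/-- the number of successes before the `R`-th failure -/
theorem U_eq (s : ℕ → Bool) (v R : ℕ) (hR : 1 ≤ R) (hv : fails s v = R) (hl : s (v - 1) = false) :
    U R s = v - R := by
  have hv1 : 1 ≤ v := by
    rcases Nat.eq_zero_or_pos v with h | h
    · subst h
      simp [fails] at hv
      omega
    · exact h
  have hT : T R s = v := by
    unfold T
    apply le_antisymm
    · exact Nat.sInf_le (show R ≤ fails s v from hv.ge)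
    · refine le_csInf ⟨v, show R ≤ fails s v from hv.ge⟩ ?_
      intro n hn
      by_contra hlt
      have hlt' : n ≤ v - 1 := by omega
      have h1 := fails_mono s hlt'
      have h2 := fails_succ s (v - 1)
      rw [Nat.sub_add_cancel hv1, if_pos hl] at h2
      have h3 : R ≤ fails s n := hn
      omega
  unfold U
  rw [hT]

theorem sum_vis (ω : ℤ → ℕ → Bool) (S : Finset ℤ) (t : ℕ) : ∑ y ∈ S, vis ω y t ≤ t := by
  induction t with
  | zero => simp [vis]
  | succ t ih =>
    simp only [vis_succ, sum_add_distrib]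
    have h : (∑ y ∈ S, if X ω t = y then 1 else 0) ≤ 1 := by
      rw [Finset.sum_ite_eq]
      split_ifs <;> omega
    omega

end PathLowAux

open PathLowAux

theorem pathLow : StmPathLow := by
  intro ω _ n t ht hlt
  have hvn : vis ω (n : ℤ) t = 0 := by
    unfold vis
    rw [card_eq_zero, filter_eq_empty_iff]
    intro k hk
    have := hlt k (mem_range.1 hk)
    omega
  have hLn : downs ω (n : ℤ) t = 0 := by
    have := vis_eq ω (n : ℤ) t
    omega
  -- crossings
  have hR : ∀ y : ℤ, 0 ≤ y → y < n → ups ω y t = downs ω (y + 1) t + 1 := by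
    intro y h0 h1
    have := cross ω y t
    rw [if_neg (by omega), ht, if_pos h1] at this
    omega
  have hR1 : ups ω (-1) t = downs ω 0 t := by
    have := cross ω (-1) t
    rw [if_pos (by omega), ht, if_pos (by omega)] at this
    have h2 : (-1 : ℤ) + 1 = 0 := by norm_num
    rw [h2] at this
    omega
  -- the recursion
  have hU : ∀ y : ℤ, 0 ≤ y → y < n → downs ω y t = U (downs ω (y + 1) t + 1) (neg (ω y)) := by
    intro y h0 h1
    have h2 := hR y h0 h1
    have h3 := vis_eq ω y t
    have h4 := downs_eq ω y t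
    have h5 := fails_neg (ω y) (vis ω y t)
    have h6 : ω y (vis ω y t - 1) = true := last_right ω y t (by rw [ht]; exact h1) (by omega)
    rw [U_eq (neg (ω y)) (vis ω y t) (downs ω (y + 1) t + 1) (by omega) (by omega)
      (by unfold neg; rw [h6]; rfl)]
    omega
  have hW : ∀ k : ℕ, k ≤ n → W (fun k => neg (ω ((n : ℤ) - 1 - k))) k = downs ω ((n : ℤ) - k) t := by
    intro k
    induction k with
    | zero =>
      intro _
      have : (n : ℤ) - ((0 : ℕ) : ℤ) = n := by simp
      rw [this, hLn]
      rfl
    | succ k ih =>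
      intro hk
      show U (W (fun k => neg (ω ((n : ℤ) - 1 - k))) k + 1) (neg (ω ((n : ℤ) - 1 - k))) = _
      rw [ih (by omega)]
      have e1 : (n : ℤ) - ((k + 1 : ℕ) : ℤ) = (n : ℤ) - 1 - k := by push_cast; ring
      have e2 : (n : ℤ) - k = (n : ℤ) - 1 - k + 1 := by ring
      rw [e1, hU ((n : ℤ) - 1 - k) (by omega) (by omega), ← e2]
  have hsum := sum_vis ω ((range (n + 1)).image fun k : ℕ => (n : ℤ) - 1 - k) t
  rw [sum_image (by intro a _ b _ hab; simpa using hab), sum_range_succ] at hsum
  have hlast : vis ω ((n : ℤ) - 1 - (n : ℕ)) t ≥ W (fun k => neg (ω ((n : ℤ) - 1 - k))) n := by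
    have e : (n : ℤ) - 1 - (n : ℕ) = -1 := by ring
    rw [e, hW n le_rfl, vis_eq, hR1]
    simp
  have hterm : ∀ k ∈ range n, vis ω ((n : ℤ) - 1 - k) t =
      W (fun k => neg (ω ((n : ℤ) - 1 - k))) (k + 1) + (W (fun k => neg (ω ((n : ℤ) - 1 - k))) k + 1) := by
    intro k hk
    have hk' := mem_range.1 hk
    have e1 : (n : ℤ) - ((k + 1 : ℕ) : ℤ) = (n : ℤ) - 1 - k := by push_cast; ring
    have e2 : (n : ℤ) - k = (n : ℤ) - 1 - k + 1 := by ring
    rw [hW (k + 1) (by omega), hW k (by omega), e1, vis_eq, hR ((n : ℤ) - 1 - k) (by omega) (by omega), ← e2]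
    ring
  rw [sum_congr rfl hterm, sum_add_distrib, sum_add_distrib] at hsum
  have hshift : ∑ k ∈ range n, W (fun k => neg (ω ((n : ℤ) - 1 - k))) (k + 1) =
      ∑ k ∈ range n, W (fun k => neg (ω ((n : ℤ) - 1 - k))) k + W (fun k => neg (ω ((n : ℤ) - 1 - k))) n := by
    rw [← sum_range_succ, sum_range_succ']
    rfl
  omega

end Pool.Agent.N276.BE
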