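import Pool.Agent.N276.BE.Stm
import Pool.Agent.N276.ER.Path

/-!
# Upper bound for the hitting time (part PathUp of project BE, helper276)

By helper73.
-/

set_option autoImplicit false

open Finset

namespace Pool.Agent.N276.BE

open Pool.Agent.N276.ER

namespace PathUpAux

theorem fails_mono (s : ℕ → Bool) {m n : ℕ} (h : m ≤ n) : fails s m ≤ fails s n := by
  unfold fails
  exact card_le_card (filter_subset_filter _ (range_subset_range.2 h))

theorem fails_add (s : ℕ → Bool) (m k : ℕ) : fails s (m + k) ≤ fails s m + k := by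
  induction k with
  | zero => simp
  | succ k ih =>
    rw [← add_assoc, fails_succ]
    split_ifs <;> omega

theorem fails_neg (s : ℕ → Bool) (n : ℕ) : fails (neg s) n + fails s n = n := by
  induction n with
  | zero => simp [fails]
  | succ n ih =>
    rw [fails_succ, fails_succ]
    unfold neg at ih ⊢
    by_cases h : s n = true
    · rw [h]
      simp
      omega
    · have h' : s n = false := by simpa using h
      rw [h']
      simp
      omega

theorem key (s : ℕ → Bool) (m N : ℕ) (hs : ∃ n, m ≤ fails s n) (h : fails s N < m) :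
    N ≤ fails s N + U m s := by
  have h1 : m ≤ fails s (T m s) := Nat.sInf_mem (s := {n | m ≤ fails s n}) hs
  have h2 : N ≤ T m s := by
    by_contra h3
    have := fails_mono s (le_of_lt (not_le.1 h3))
    omega
  obtain ⟨k, hk⟩ := Nat.exists_eq_add_of_le h2
  have h3 := fails_add s N k
  rw [← hk] at h3
  unfold U
  omega

/-- one more step to the left -/
theorem key2 (ω : ℤ → ℕ → Bool) (hω : ∀ y : ℤ, ∀ m, ∃ n, m ≤ fails (neg (ω y)) n) (t m : ℕ)
    (hf : ω (X ω t) (vis ω (X ω t) t) = false) (h : ups ω (X ω t) t < m) :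
    downs ω (X ω t) t + 1 ≤ U m (neg (ω (X ω t))) := by
  have h1 := fails_neg (ω (X ω t)) (vis ω (X ω t) t + 1)
  have h2 : fails (ω (X ω t)) (vis ω (X ω t) t + 1) = downs ω (X ω t) t + 1 := by
    rw [fails_succ, if_pos hf, downs_eq]
  have h3 := vis_eq ω (X ω t) t
  have h4 : fails (neg (ω (X ω t))) (vis ω (X ω t) t + 1) < m := by omega
  have h5 := key _ m _ (hω _ m) h4
  omega

theorem U_zero (s : ℕ → Bool) : U 0 s = 0 := by
  unfold U T
  have : {n | 0 ≤ fails s n} = Set.univ := by
    ext n; simp
  rw [this]
  simp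

end PathUpAux

open PathUpAux

theorem pathUp : StmPathUp := by
  intro ω hω n a K hW hY
  obtain ⟨s, hs⟩ : ∃ s : ℕ → ℕ → Bool, s = fun k : ℕ => neg (ω ((n : ℤ) - 1 - k)) := ⟨_, rfl⟩
  obtain ⟨s', hs'⟩ : ∃ s' : ℕ → ℕ → Bool, s' = fun k : ℕ => neg (ω (-((k : ℤ) + 1))) := ⟨_, rfl⟩
  rw [← hs] at hW
  rw [← hs'] at hY
  rw [← hs, ← hs']
  obtain ⟨E, hE⟩ : ∃ E : ℕ → ℕ, E = fun k => if k ≤ n then W s k else Yl a s' (k - n) := ⟨_, rfl⟩
  have hE0 : E 0 = 0 := by rw [hE]; simp [W]
  have hE1 : ∀ k, k < n → E (k + 1) = U (E k + 1) (neg (ω ((n : ℤ) - 1 - k))) := by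
    intro k hk
    rw [hE]
    show (if k + 1 ≤ n then W s (k + 1) else _) = U ((if k ≤ n then W s k else _) + 1) _
    rw [if_pos (Nat.succ_le_of_lt hk), if_pos hk.le]
    show U (W s k + 1) (s k) = _
    rw [hs]
  have hE2 : ∀ k, n ≤ k → E k ≤ Yl a s' (k - n) := by
    intro k hk
    rw [hE]
    show (if k ≤ n then W s k else Yl a s' (k - n)) ≤ _
    split_ifs with h
    · have : k = n := le_antisymm h hk
      subst this
      rw [Nat.sub_self]
      exact hW
    · exact le_rfl
  have hE3 : ∀ k, n ≤ k → E (k + 1) = U (Yl a s' (k - n)) (neg (ω ((n : ℤ) - 1 - k))) := by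
    intro k hk
    rw [hE]
    show (if k + 1 ≤ n then W s (k + 1) else Yl a s' (k + 1 - n)) = _
    rw [if_neg (by omega), Nat.sub_add_comm hk]
    show U (Yl a s' (k - n)) (s' (k - n)) = _
    rw [hs']
    have : (-(((k - n : ℕ) : ℤ) + 1)) = (n : ℤ) - 1 - k := by omega
    show U _ (neg (ω (-(((k - n : ℕ) : ℤ) + 1)))) = _
    rw [this]
  have hEK : E (n + K) = 0 := by
    have := hE2 (n + K) (by omega)
    rw [Nat.add_sub_cancel_left, hY] at this
    omega
  obtain ⟨B, hB⟩ : ∃ B : ℕ, B = n + 2 * ∑ k ∈ range n, W s (k + 1) +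
    2 * ∑ k ∈ range K, Yl a s' (k + 1) := ⟨_, rfl⟩
  rw [← hB]
  by_contra hcon
  push Not at hcon
  have hstep : ∀ t, X ω (t + 1) = X ω t + 1 ∨ X ω (t + 1) = X ω t - 1 := by
    intro t
    rw [X_succ]
    split_ifs
    · left; rfl
    · right; rfl
  have hlt : ∀ t ≤ B, X ω t < n := by
    intro t
    induction t with
    | zero =>
      intro h
      have := hcon 0 h
      rw [X_zero] at this ⊢
      omega
    | succ t ih =>
      intro h
      have h1 := ih (by omega)
      have h2 := hcon (t + 1) h
      rcases hstep t with h3 | h3 <;> omega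
  -- bound for the number of steps to the left
  have hd : ∀ t ≤ B + 1, ∀ k : ℕ, downs ω ((n : ℤ) - k) t ≤ E k := by
    intro t
    induction t with
    | zero => intro _ k; simp [downs]
    | succ t ih =>
      intro ht k
      have hIH := ih (by omega)
      rw [downs_succ]
      split_ifs with h
      · have hXt := hlt t (by omega)
        obtain ⟨k, rfl⟩ : ∃ k', k = k' + 1 := Nat.exists_eq_succ_of_ne_zero (by
          rintro rfl
          omega)
        have hX : X ω t = (n : ℤ) - 1 - k := by omega
        have hj : (n : ℤ) - ((k + 1 : ℕ) : ℤ) = X ω t := by omega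
        rw [hj]
        have hf : ω (X ω t) (vis ω (X ω t) t) = false := by
          by_contra hf
          have h4 := X_succ ω t
          rw [if_pos (by simpa using hf)] at h4
          omega
        have hc := cross ω (X ω t) t
        rw [if_neg (lt_irrefl (X ω t))] at hc
        have hk1 := hIH k
        have hj2 : X ω t + 1 = (n : ℤ) - k := by omega
        rw [hj2] at hc
        rcases lt_or_ge k n with hkn | hkn
        · rw [hE1 k hkn, ← hX]
          apply key2 ω hω t _ hf
          rw [if_neg (by omega)] at hc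
          omega
        · rw [hE3 k hkn, ← hX]
          apply key2 ω hω t _ hf
          rw [if_pos (by omega)] at hc
          have := hE2 k hkn
          omega
      · exact hIH k
  -- the walk does not go below `-K`
  have hge : ∀ t ≤ B + 1, -(K : ℤ) ≤ X ω t := by
    intro t
    induction t with
    | zero => intro _; rw [X_zero]; omega
    | succ t ih =>
      intro ht
      have h1 := ih (by omega)
      rcases hstep t with h3 | h3
      · omega
      · by_contra h4
        have h5 : X ω t = -(K : ℤ) := by omega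
        have h6 := hd (t + 1) ht (n + K)
        rw [downs_succ, hEK] at h6
        rw [if_pos ⟨by push_cast; omega, by push_cast; omega⟩] at h6
        omega
  -- number of visits
  have hvis : ∀ k : ℕ, vis ω ((n : ℤ) - 1 - k) (B + 1) ≤ E (k + 1) + E k + if k < n then 1 else 0 := by
    intro k
    rw [vis_eq]
    have hc := cross ω ((n : ℤ) - 1 - k) (B + 1)
    have h1 := hd (B + 1) le_rfl (k + 1)
    have h2 := hd (B + 1) le_rfl k
    have e1 : (n : ℤ) - ((k + 1 : ℕ) : ℤ) = (n : ℤ) - 1 - k := by omega
    have e2 : (n : ℤ) - 1 - k + 1 = (n : ℤ) - k := by omega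
    rw [e1] at h1
    rw [e2] at hc
    split_ifs at hc ⊢ <;> omega
  have hcount : B + 1 = ∑ k ∈ range (n + K), vis ω ((n : ℤ) - 1 - k) (B + 1) := by
    have h1 : (range (B + 1)).card = ∑ k ∈ range (n + K),
        ((range (B + 1)).filter fun t => ((n : ℤ) - 1 - X ω t).toNat = k).card := by
      apply card_eq_sum_card_fiberwise
      intro t ht
      have ht' : t < B + 1 := by simpa using ht
      have h2 := hge t (by omega)
      have h3 := hlt t (by omega)
      simp only [coe_range, Set.mem_Iio]
      omega
    rw [card_range] at h1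
    refine h1.trans ?_
    apply sum_congr rfl
    intro k _
    unfold vis
    congr 1
    apply filter_congr
    intro t ht
    have ht' : t < B + 1 := by simpa using ht
    have h3 := hlt t (by omega)
    omega
  have hsum : ∑ k ∈ range (n + K), vis ω ((n : ℤ) - 1 - k) (B + 1) ≤
      ∑ k ∈ range (n + K), (E (k + 1) + E k + if k < n then 1 else 0) :=
    sum_le_sum fun k _ => hvis k
  rw [sum_add_distrib, sum_add_distrib] at hsum
  have hsE : ∑ k ∈ range (n + K), E k ≤ ∑ k ∈ range (n + K), E (k + 1) := by
    have h1 := sum_range_succ E (n + K)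
    have h2 := sum_range_succ' E (n + K)
    omega
  have hsn : ∑ k ∈ range (n + K), (if k < n then 1 else 0) = n := by
    rw [sum_range_add]
    have h1 : ∑ x ∈ range n, (if x < n then 1 else 0) = ∑ x ∈ range n, 1 :=
      sum_congr rfl fun x hx => by rw [if_pos (by simpa using hx)]
    have h2 : ∑ x ∈ range K, (if n + x < n then 1 else 0) = ∑ x ∈ range K, 0 :=
      sum_congr rfl fun x hx => by rw [if_neg (by omega)]
    rw [h1, h2]
    simp
  have hsE2 : ∑ k ∈ range (n + K), E (k + 1) =
      ∑ k ∈ range n, W s (k + 1) + ∑ k ∈ range K, Yl a s' (k + 1) := by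
    rw [sum_range_add]
    congr 1
    · apply sum_congr rfl
      intro k hk
      have hk' : k < n := by simpa using hk
      rw [hE]
      show (if k + 1 ≤ n then W s (k + 1) else _) = _
      rw [if_pos (Nat.succ_le_of_lt hk')]
    · apply sum_congr rfl
      intro k _
      rw [hE]
      show (if n + k + 1 ≤ n then W s (n + k + 1) else Yl a s' (n + k + 1 - n)) = _
      rw [if_neg (by omega)]
      congr 1
      omega
  rw [hsn] at hsum
  omega

end Pool.Agent.N276.BE
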