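import Pool.Agent.N276.BE.Stm

/-!
# BE/Push (helper787, project BE of helper276): the law of the reversed stacks
-/

set_option autoImplicit false

open MeasureTheory ProbabilityTheory Filter Topology Set
open scoped ENNReal

namespace Pool.Agent.N276.BE

open Pool.Agent.N276.ER

namespace PushAux

theorem neg_ar (z : (ℕ → ℝ) × (ℕ → ℝ)) : neg (ar z) = al z := by
  funext i
  show (!(decide (z.2 i < z.1 i))) = decide (z.1 i ≤ z.2 i)
  by_cases h : z.2 i < z.1 i
  · simp [h, not_le.2 h]
  · simp [h, not_lt.1 h]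

end PushAux

theorem push : StmMeas → StmMix → StmPush := by
  rintro ⟨har, hal, -, -, hneg, -⟩ hmix lam hlam hpos φ hφ
  obtain ⟨-, hLR, hLL, -⟩ := hmix lam hlam hpos
  have hmap : (LR lam).map neg = LL lam := by
    unfold LR LL
    rw [Measure.map_map hneg har]
    congr 1
    funext z
    exact PushAux.neg_ar z
  have h1 : (QL lam).map (fun (ω : ℤ → ℕ → Bool) (k : ℕ) => ω (φ k)) =
      Measure.infinitePi (fun _ : ℕ => LR lam) :=
    Measure.map_infinitePi_infinitePi_of_inj (P := fun _ : ℤ => LR lam) hφ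
  have h2 : (fun (ω : ℤ → ℕ → Bool) (k : ℕ) => neg (ω (φ k))) =
      (fun (s : ℕ → ℕ → Bool) (k : ℕ) => neg (s k)) ∘
        (fun (ω : ℤ → ℕ → Bool) (k : ℕ) => ω (φ k)) := rfl
  have m1 : Measurable fun (s : ℕ → ℕ → Bool) (k : ℕ) => neg (s k) :=
    measurable_pi_lambda _ fun k => hneg.comp (measurable_pi_apply k)
  have m2 : Measurable fun (ω : ℤ → ℕ → Bool) (k : ℕ) => ω (φ k) :=
    measurable_pi_lambda _ fun k => measurable_pi_apply (φ k)
  rw [h2, ← Measure.map_map m1 m2, h1]
  have h3 := Measure.infinitePi_map_pi (μ := fun _ : ℕ => LR lam) (f := fun _ : ℕ => neg)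
    (fun _ => hneg)
  rw [h3]
  unfold RL
  rw [hmap]

end Pool.Agent.N276.BE
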