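import Pool.Agent.N276.BE.Stm

/-!
# Project BE (helper276), MP_7ca543_pr: bounds for the martingale part (helper362)
-/

set_option autoImplicit false

open MeasureTheory ProbabilityTheory Filter Topology Set
open scoped ENNReal

namespace Pool.Agent.N276.BE

open Pool.Agent.N276.ER

namespace QMartAux

lemma fails_le (s : ℕ → Bool) (n : ℕ) : fails s n ≤ n := by
  unfold fails
  exact (Finset.card_filter_le _ _).trans (by simp)

lemma le_T {s : ℕ → Bool} {m : ℕ} (h : ∃ n, m ≤ fails s n) : m ≤ T m s := by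
  have h1 : m ≤ fails s (T m s) := Nat.sInf_mem (s := {n | m ≤ fails s n}) h
  exact h1.trans (fails_le _ _)

/-- functions of `T` of at most quadratic growth are integrable -/
lemma int_fun {q : ℕ → ℝ} [IsProbabilityMeasure (stackLaw q)] {m : ℕ}
    (h1 : Integrable (fun s => (T m s : ℝ)) (stackLaw q))
    (h2 : Integrable (fun s => (T m s : ℝ) ^ 2) (stackLaw q)) (g : ℕ → ℝ) (a b : ℝ)
    (hg : ∀ n : ℕ, |g n| ≤ a * (n : ℝ) ^ 2 + b) :
    Integrable (fun s => g (T m s)) (stackLaw q) := by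
  have hm : AEStronglyMeasurable (fun s => g (T m s)) (stackLaw q) := by
    have h3 : Measurable fun x : ℝ => g ⌊x⌋₊ := (measurable_of_countable g).comp Nat.measurable_floor
    have h4 := (h3.comp_aemeasurable h1.aestronglyMeasurable.aemeasurable).aestronglyMeasurable
    refine h4.congr (Eventually.of_forall fun s => ?_)
    simp [Function.comp]
  refine Integrable.mono' ((h2.const_mul a).add (integrable_const b)) hm
    (Eventually.of_forall fun s => ?_)
  rw [Real.norm_eq_abs]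
  exact hg (T m s)

lemma dd_nonneg {q : ℕ → ℝ} (hq : HQ q) (t : ℕ) : 0 ≤ dd q t :=
  Finset.sum_nonneg fun i _ => by linarith [(hq i).2]

lemma dd_le {q : ℕ → ℝ} (hq : HQ q) (t : ℕ) : dd q t ≤ t := by
  calc dd q t ≤ ∑ i ∈ Finset.range t, (1 : ℝ) :=
        Finset.sum_le_sum fun i _ => by linarith [(hq i).1]
    _ = t := by simp

lemma var_le {q : ℕ → ℝ} (t : ℕ) :
    ∑ i ∈ Finset.range t, 4 * q i * (1 - q i) ≤ t := by
  calc ∑ i ∈ Finset.range t, 4 * q i * (1 - q i) ≤ ∑ i ∈ Finset.range t, (1 : ℝ) :=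
        Finset.sum_le_sum fun i _ => by nlinarith [sq_nonneg (1 - 2 * q i)]
    _ = t := by simp

lemma var_ge {q : ℕ → ℝ} (hq : HQ q) (t : ℕ) :
    (t : ℝ) - dd q t ≤ ∑ i ∈ Finset.range t, 4 * q i * (1 - q i) := by
  have e : (t : ℝ) - dd q t = ∑ i ∈ Finset.range t, (1 - (1 - 2 * q i)) := by
    rw [Finset.sum_sub_distrib]
    simp [dd]
  rw [e]
  refine Finset.sum_le_sum fun i _ => ?_
  have h1 := (hq i).1
  have h2 := (hq i).2
  nlinarith [mul_nonneg h1 (by linarith : (0 : ℝ) ≤ 1 - 2 * q i)]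

end QMartAux

open QMartAux in
theorem qmart : StmQTail → StmQMom → StmQWald → StmQMart := by
  intro _ hMom hWald q hq m
  obtain ⟨hP, hae⟩ := hMom.1 q hq
  obtain ⟨h1, h2, h3, h4⟩ := hWald q hq m
  have hdd : Integrable (fun s => dd q (T m s)) (stackLaw q) :=
    int_fun h1 h2 (fun n => dd q n) 1 1 fun n => by
      rw [abs_of_nonneg (dd_nonneg hq n)]
      have := dd_le hq n
      nlinarith [sq_nonneg ((n : ℝ) - 1 / 2)]
  have hvar : Integrable (fun s => ∑ i ∈ Finset.range (T m s), 4 * q i * (1 - q i))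
      (stackLaw q) :=
    int_fun h1 h2 (fun n => ∑ i ∈ Finset.range n, 4 * q i * (1 - q i)) 1 1 fun n => by
      have h5 : 0 ≤ ∑ i ∈ Finset.range n, 4 * q i * (1 - q i) :=
        Finset.sum_nonneg fun i _ => by
          have h1 := (hq i).1
          have h2 := (hq i).2
          exact mul_nonneg (by linarith) (by linarith)
      rw [abs_of_nonneg h5]
      have := var_le (q := q) n
      nlinarith [sq_nonneg ((n : ℝ) - 1 / 2)]
  have hU : Integrable (fun s => (U m s : ℝ)) (stackLaw q) :=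
    int_fun h1 h2 (fun n => ((n - m : ℕ) : ℝ)) 1 1 fun n => by
      rw [abs_of_nonneg (Nat.cast_nonneg _)]
      have : ((n - m : ℕ) : ℝ) ≤ n := by exact_mod_cast Nat.sub_le n m
      nlinarith [sq_nonneg ((n : ℝ) - 1 / 2)]
  have hsq : Integrable (fun s => ((U m s : ℝ) - m + dd q (T m s)) ^ 2) (stackLaw q) :=
    int_fun h1 h2 (fun n => (((n - m : ℕ) : ℝ) - m + dd q n) ^ 2) 8 (2 * (m : ℝ) ^ 2)
      fun n => by
      rw [abs_of_nonneg (sq_nonneg _)]
      have h5 : ((n - m : ℕ) : ℝ) ≤ n := by exact_mod_cast Nat.sub_le n m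
      have h6 : (0 : ℝ) ≤ ((n - m : ℕ) : ℝ) := Nat.cast_nonneg _
      have h7 := dd_le hq n
      have h8 := dd_nonneg hq n
      have h9 : ((n - m : ℕ) : ℝ) + dd q n ≤ 2 * n := by linarith
      have h10 : (((n - m : ℕ) : ℝ) + dd q n) ^ 2 ≤ (2 * n) ^ 2 :=
        pow_le_pow_left₀ (by linarith) h9 2
      nlinarith [sq_nonneg (((n - m : ℕ) : ℝ) + dd q n + m)]
  -- the mean of `T`
  have hT : ∫ s, (T m s : ℝ) ∂(stackLaw q) = 2 * m - ∫ s, dd q (T m s) ∂(stackLaw q) := by
    have e1 : ∫ s, (T m s : ℝ) ∂(stackLaw q) =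
        ∫ s, (((U m s : ℝ) - m) + 2 * m) ∂(stackLaw q) := by
      apply integral_congr_ae
      filter_upwards [hae] with s hs
      have h5 : m ≤ T m s := le_T (hs m)
      have h6 : ((U m s : ℕ) : ℝ) = (T m s : ℝ) - m := by
        rw [U, Nat.cast_sub h5]
      rw [h6]
      ring
    have hUm : Integrable (fun s => (U m s : ℝ) - m) (stackLaw q) := hU.sub (integrable_const _)
    rw [e1, integral_add hUm (integrable_const _), h3]
    simp
    ring
  have hdd0 : 0 ≤ ∫ s, dd q (T m s) ∂(stackLaw q) := integral_nonneg fun s => dd_nonneg hq _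
  refine ⟨hsq, ?_, ?_⟩
  · rw [h4]
    calc ∫ s, (∑ i ∈ Finset.range (T m s), 4 * q i * (1 - q i)) ∂(stackLaw q)
        ≤ ∫ s, (T m s : ℝ) ∂(stackLaw q) := integral_mono hvar h1 fun s => var_le _
      _ ≤ 2 * m := by rw [hT]; linarith
  · rw [h4]
    calc 2 * m - 2 * ∫ s, dd q (T m s) ∂(stackLaw q)
        = ∫ s, (T m s : ℝ) ∂(stackLaw q) - ∫ s, dd q (T m s) ∂(stackLaw q) := by
          rw [hT]; ring
      _ = ∫ s, ((T m s : ℝ) - dd q (T m s)) ∂(stackLaw q) := (integral_sub h1 hdd).symm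
      _ ≤ _ := integral_mono (h1.sub hdd) hvar fun s => var_ge hq _

end Pool.Agent.N276.BE
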