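import Pool.Agent.N276.BE.Stm
import Pool.Agent.N276.ER.Meas

/-!
# BE/2: infinitely many failures, fourth moment tail of the number of trials (helper288)
-/

set_option autoImplicit false

open MeasureTheory ProbabilityTheory Filter Topology Set
open scoped ENNReal

namespace Pool.Agent.N276.BE

open Pool.Agent.N276.ER

namespace QMomAux

theorem summ : Summable fun j : ℕ => (((j + 1 : ℕ) : ℝ)) ^ 4 * Real.exp (-(j : ℝ) / 8) := by
  have h1 := Real.summable_pow_mul_exp_neg_nat_mul 4 (show (0 : ℝ) < 1 / 8 by norm_num)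
  have h2 := ((summable_nat_add_iff 1).2 h1).mul_left (Real.exp (1 / 8))
  refine h2.congr fun j => ?_
  rw [mul_left_comm, ← Real.exp_add]
  congr 2
  push_cast
  ring

theorem lt_T {m j : ℕ} {s : ℕ → Bool} (h : j < T m s) : fails s j ≤ m := by
  by_contra h1
  push Not at h1
  have h2 : T m s ≤ j := Nat.sInf_le (s := {n | m ≤ fails s n}) h1.le
  omega

end QMomAux

open QMomAux

theorem qmom : StmQTail → StmQMom := by
  intro hT
  refine ⟨fun q hq => ⟨MeasAux.stack_prob fun i => ⟨(hq i).1, by linarith [(hq i).2]⟩, ?_⟩, ?_⟩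
  · rw [ae_all_iff]
    intro m
    rw [ae_iff]
    have h1 : ∀ n : ℕ, (stackLaw q) {s | ¬ ∃ n, m ≤ fails s n} ≤
        ENNReal.ofReal (Real.exp (-((n + 4 * m : ℕ) : ℝ) / 8)) := fun n => by
      refine (measure_mono fun s hs => ?_).trans (hT q hq m (n + 4 * m) (by omega))
      have hs' : ¬ ∃ n, m ≤ fails s n := hs
      push Not at hs'
      exact (hs' _).le
    have h2 : Tendsto (fun n : ℕ => -((n + 4 * m : ℕ) : ℝ) / 8) atTop atBot := by
      have h3 : Tendsto (fun n : ℕ => ((n + 4 * m : ℕ) : ℝ) / 8) atTop atTop :=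
        (tendsto_natCast_atTop_atTop.comp (tendsto_add_atTop_nat (4 * m))).atTop_div_const
          (by norm_num)
      refine (tendsto_neg_atTop_atBot.comp h3).congr fun n => ?_
      simp only [Function.comp]
      ring
    have h3 := ENNReal.tendsto_ofReal (Real.tendsto_exp_atBot.comp h2)
    rw [ENNReal.ofReal_zero] at h3
    exact le_antisymm (ge_of_tendsto' h3 h1) bot_le
  · refine ⟨∑' j : ℕ, ENNReal.ofReal ((((j + 1 : ℕ) : ℝ)) ^ 4 * Real.exp (-(j : ℝ) / 8)),
      summ.tsum_ofReal_ne_top, fun q hq m => ?_⟩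
    have hm : ∀ j : ℕ, MeasurableSet {s : ℕ → Bool | 4 * m ≤ j ∧ j < T m s} := fun j => by
      have e : {s : ℕ → Bool | 4 * m ≤ j ∧ j < T m s} =
          {_s : ℕ → Bool | 4 * m ≤ j} ∩ {s : ℕ → Bool | j < T m s} := rfl
      rw [e]
      exact (MeasurableSet.const _).inter (measurableSet_lt measurable_const (MeasAux.meas_T m))
    have h1 : ∀ s : ℕ → Bool, (if 4 * m < T m s then ((T m s : ℕ) : ℝ≥0∞) ^ 4 else 0) ≤
        ∑' j : ℕ, {s : ℕ → Bool | 4 * m ≤ j ∧ j < T m s}.indicator
          (fun _ => ENNReal.ofReal ((((j + 1 : ℕ) : ℝ)) ^ 4)) s := by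
      intro s
      split_ifs with h
      · refine le_trans ?_ (ENNReal.le_tsum (T m s - 1))
        rw [indicator_of_mem (show s ∈ {s' : ℕ → Bool | 4 * m ≤ T m s - 1 ∧
          T m s - 1 < T m s'} from ⟨by omega, by omega⟩)]
        rw [Nat.sub_add_cancel (by omega : 1 ≤ T m s), ENNReal.ofReal_pow (Nat.cast_nonneg _),
          ENNReal.ofReal_natCast]
      · exact bot_le
    refine (lintegral_mono h1).trans ?_
    rw [lintegral_tsum fun j => (measurable_const.indicator (hm j)).aemeasurable]
    refine ENNReal.tsum_le_tsum fun j => ?_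
    rw [lintegral_indicator (hm j), lintegral_const, Measure.restrict_apply MeasurableSet.univ,
      univ_inter, ENNReal.ofReal_mul (by positivity)]
    refine mul_le_mul_right ?_ _
    by_cases hj : 4 * m ≤ j
    · exact (measure_mono fun s hs => lt_T hs.2).trans (hT q hq m j hj)
    · have : {s : ℕ → Bool | 4 * m ≤ j ∧ j < T m s} = ∅ := by
        ext s
        simp [hj]
      rw [this, measure_empty]
      exact bot_le

end Pool.Agent.N276.BE
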