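import Pool.Agent.N276.BE.Stm

/-!
# BE/1 (helper51): few failures are improbable

Adapted from `Pool/Agent/N276/ER/Tail.lean` (helper570).
-/

set_option autoImplicit false

open MeasureTheory ProbabilityTheory Filter Topology Set
open scoped ENNReal

namespace Pool.Agent.N276.BE

open Pool.Agent.N276.ER

namespace QTailAux

lemma int_bern {q : ℝ} (h0 : 0 ≤ q) (h1 : q ≤ 1) (g : Bool → ℝ) :
    ∫ b, g b ∂(bern q) = q * g true + (1 - q) * g false := by
  unfold bern
  rw [integral_add_measure]
  · rw [integral_smul_measure, integral_smul_measure, integral_dirac, integral_dirac,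
      ENNReal.toReal_ofReal h0, ENNReal.toReal_ofReal (by linarith), smul_eq_mul, smul_eq_mul]
  · exact (integrable_dirac (by simp)).smul_measure (by simp)
  · exact (integrable_dirac (by simp)).smul_measure (by simp)

lemma prob_bern {q : ℝ} (h0 : 0 ≤ q) (h1 : q ≤ 1) : IsProbabilityMeasure (bern q) := by
  constructor
  unfold bern
  simp only [Measure.coe_add, Measure.coe_smul, Pi.add_apply, Pi.smul_apply, measure_univ,
    smul_eq_mul, mul_one]
  rw [← ENNReal.ofReal_add h0 (by linarith)]
  simp

lemma prob_stack {q : ℕ → ℝ} (hq : ∀ i, 0 ≤ q i ∧ q i ≤ 1) : IsProbabilityMeasure (stackLaw q) := by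
  have hP : ∀ i, IsProbabilityMeasure (bern (q i)) := fun i => prob_bern (hq i).1 (hq i).2
  unfold stackLaw
  infer_instance

/-- Hoeffding's inequality -/
lemma hoef {q : ℕ → ℝ} (hq : ∀ i, 0 ≤ q i ∧ q i ≤ 1) (g : Bool → ℝ) (a : ℝ)
    (hg : ∀ b, g b ∈ Icc a (a + 1)) (n : ℕ) {u : ℝ} (hu : 0 ≤ u) :
    (stackLaw q).real {s | u ≤ ∑ i ∈ Finset.range n,
      (g (s i) - (q i * g true + (1 - q i) * g false))} ≤
      Real.exp (-u ^ 2 / (2 * n * (1 / 4))) := by
  have hP : ∀ i, IsProbabilityMeasure (bern (q i)) := fun i => prob_bern (hq i).1 (hq i).2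
  have hI : iIndepFun (fun i (s : ℕ → Bool) => g (s i) - (q i * g true + (1 - q i) * g false))
      (stackLaw q) := by
    unfold stackLaw
    exact iIndepFun_infinitePi (P := fun i => bern (q i))
      (X := fun i b => g b - (q i * g true + (1 - q i) * g false)) (fun i => measurable_of_finite _)
  have hSS : IsProbabilityMeasure (stackLaw q) := prob_stack hq
  have hsub : ∀ i < n, HasSubgaussianMGF
      (fun s : ℕ → Bool => g (s i) - (q i * g true + (1 - q i) * g false)) (1 / 4) (stackLaw q) := by
    intro i _
    have hm : Measurable fun s : ℕ → Bool => g (s i) :=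
      (measurable_of_finite g).comp (measurable_pi_apply i)
    have h1 := hasSubgaussianMGF_of_mem_Icc (μ := stackLaw q) (X := fun s : ℕ → Bool => g (s i))
      (a := a) (b := a + 1) hm.aemeasurable (ae_of_all _ fun s => hg (s i))
    have h2 : ∫ s, g (s i) ∂(stackLaw q) = q i * g true + (1 - q i) * g false := by
      rw [← int_bern (hq i).1 (hq i).2]
      have h3 : (bern (q i)) = Measure.map (fun s : ℕ → Bool => s i) (stackLaw q) := by
        unfold stackLaw
        exact (Measure.infinitePi_map_eval (fun i => bern (q i)) i).symm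
      rw [h3, integral_map (measurable_pi_apply i).aemeasurable
        (measurable_of_finite g).aestronglyMeasurable]
    rw [h2] at h1
    have h4 : ((‖a + 1 - a‖₊ / 2) ^ 2 : NNReal) = 1 / 4 := by
      rw [add_sub_cancel_left, nnnorm_one]
      norm_num
    rw [h4] at h1
    exact h1
  have h5 := HasSubgaussianMGF.measure_sum_range_ge_le_of_iIndepFun hI hsub hu
  simpa using h5

/-- the number of successes -/
lemma sum_succ (s : ℕ → Bool) (n : ℕ) :
    ∑ i ∈ Finset.range n, (if s i = true then (1 : ℝ) else 0) = n - fails s n := by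
  have h1 : ((Finset.range n).filter fun i => s i = true).card + fails s n = n := by
    unfold fails
    have h2 := Finset.card_filter_add_card_filter_not (s := Finset.range n) (fun i => s i = true)
    rw [Finset.card_range] at h2
    have h3 : (Finset.range n).filter (fun i => ¬ s i = true) =
        (Finset.range n).filter fun i => s i = false := by
      apply Finset.filter_congr
      intro i _
      simp
    rw [h3] at h2
    exact h2
  rw [← Finset.sum_filter, Finset.sum_const, nsmul_eq_mul, mul_one, eq_sub_iff_add_eq]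
  exact_mod_cast h1

end QTailAux

open QTailAux in
/-- **BE/1** -/
theorem qtail : StmQTail := by
  intro q hq m t ht
  have hq' : ∀ i, 0 ≤ q i ∧ q i ≤ 1 := fun i => ⟨(hq i).1, by linarith [(hq i).2]⟩
  have hP : IsProbabilityMeasure (stackLaw q) := prob_stack hq'
  rcases Nat.eq_zero_or_pos t with rfl | h0
  · refine prob_le_one.trans ?_
    simp
  have ht0 : (0 : ℝ) < t := by exact_mod_cast h0
  have htm : (4 * m : ℝ) ≤ t := by exact_mod_cast ht
  have h1 := hoef hq' (fun b => if b = true then (1 : ℝ) else 0) 0 (by
      intro b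
      cases b <;> simp) t (u := (t : ℝ) / 4) (by positivity)
  have h2 : (stackLaw q).real {s | fails s t ≤ m} ≤ Real.exp (-(t : ℝ) / 8) := by
    refine (measureReal_mono ?_).trans (h1.trans (le_of_eq ?_))
    · intro s hs
      have hs' : (fails s t : ℝ) ≤ m := by exact_mod_cast hs
      show (t : ℝ) / 4 ≤ ∑ i ∈ Finset.range t,
        ((if s i = true then (1 : ℝ) else 0) - (q i * (if true = true then (1 : ℝ) else 0) +
          (1 - q i) * (if false = true then (1 : ℝ) else 0)))
      simp only [if_true, Bool.false_eq_true, if_false, mul_one, mul_zero, add_zero]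
      rw [Finset.sum_sub_distrib, sum_succ]
      have h3 : ∑ i ∈ Finset.range t, q i ≤ ∑ i ∈ Finset.range t, (1 / 2 : ℝ) :=
        Finset.sum_le_sum fun i _ => (hq i).2
      rw [Finset.sum_const, Finset.card_range, nsmul_eq_mul] at h3
      linarith
    · congr 1
      field_simp
      ring
  rw [Measure.real] at h2
  exact (ENNReal.le_ofReal_iff_toReal_le (measure_ne_top _ _) (Real.exp_pos _).le).2 h2

end Pool.Agent.N276.BE
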