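import Pool.Agent.N276.BE.Stm
import Pool.Agent.N276.ER.Wald
import Pool.Agent.N276.ER.Mom2

/-!
# BE/3: Wald's identities for independent trials (helper720)

The truncated centered sums have mean `0` and the second moments of the identity, by induction; the
identities follow by dominated convergence (after the files `ER/Wald.lean` and `ER/Mom2.lean`).
-/

set_option autoImplicit false

open MeasureTheory ProbabilityTheory Filter Topology Set
open scoped ENNReal

namespace Pool.Agent.N276.BE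

open Pool.Agent.N276.ER

namespace QWaldAux

open Mom2Aux (Dep ext fails_dep al_dep al_sq bern_prob bern_int steps)

variable {q : ℕ → ℝ}

theorem intble [IsProbabilityMeasure (stackLaw q)] {N : ℕ} {F : (ℕ → Bool) → ℝ} (hF : Dep N F) :
    Integrable F (stackLaw q) := by
  obtain ⟨C, hC⟩ := hF.bdd
  exact Integrable.of_bound hF.meas.aestronglyMeasurable C (Eventually.of_forall hC)

theorem indep_int (hp : ∀ i, 0 ≤ q i ∧ q i ≤ 1) {N : ℕ} {F : (ℕ → Bool) → ℝ} (hF : Dep N F)
    (g : Bool → ℝ) : ∫ s, F s * g (s N) ∂(stackLaw q) =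
    (∫ s, F s ∂(stackLaw q)) * (g true * q N + g false * (1 - q N)) := by
  have : ∀ i, IsProbabilityMeasure (bern (q i)) := fun i => bern_prob (hp i).1 (hp i).2
  have h1 : iIndepFun (fun (i : ℕ) (s : ℕ → Bool) => s i) (stackLaw q) :=
    iIndepFun_infinitePi (P := fun i => bern (q i)) (X := fun _ b => b) (fun _ => measurable_id)
  have h2 := h1.indepFun_finset (Finset.range N) {N} (by simp) (fun i => measurable_pi_apply i)
  have h3 : IndepFun F (fun s : ℕ → Bool => g (s N)) (stackLaw q) := by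
    have h4 := h2.comp (φ := fun v => F (ext N v))
      (ψ := fun v : ({i // i ∈ ({N} : Finset ℕ)} → Bool) => g (v ⟨N, Finset.mem_singleton_self N⟩))
      Measurable.of_discrete Measurable.of_discrete
    rw [hF.eq]
    exact h4
  have hg : Measurable (fun s : ℕ → Bool => g (s N)) :=
    (Measurable.of_discrete (f := g)).comp (measurable_pi_apply N)
  rw [h3.integral_fun_mul_eq_mul_integral hF.meas.aestronglyMeasurable hg.aestronglyMeasurable]
  congr 1
  have h5 : ∫ s, g (s N) ∂(stackLaw q) =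
      ∫ b, g b ∂(Measure.map (fun s : ℕ → Bool => s N) (stackLaw q)) := by
    rw [integral_map (measurable_pi_apply N).aemeasurable
      (Measurable.of_discrete (f := g)).aestronglyMeasurable]
  have h6 : Measure.map (fun s : ℕ → Bool => s N) (stackLaw q) = bern (q N) :=
    Measure.infinitePi_map_eval (fun i => bern (q i)) N
  rw [h5, h6, bern_int (hp N).1 (hp N).2]

/-- centered step -/
noncomputable def et (q : ℕ → ℝ) (i : ℕ) (b : Bool) : ℝ := (if b = true then 1 else -1) - (2 * q i - 1)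

/-- the truncated centered sum -/
noncomputable def MM (q : ℕ → ℝ) (x N : ℕ) (s : ℕ → Bool) : ℝ :=
  ∑ i ∈ Finset.range N, Mom2Aux.al x i s * et q i (s i)

/-- the truncated variance -/
noncomputable def QV (q : ℕ → ℝ) (x N : ℕ) (s : ℕ → Bool) : ℝ :=
  ∑ i ∈ Finset.range N, Mom2Aux.al x i s * (4 * q i * (1 - q i))

theorem MM_succ (x N : ℕ) (s : ℕ → Bool) : MM q x (N + 1) s = MM q x N s + Mom2Aux.al x N s * et q N (s N) := by
  unfold MM
  rw [Finset.sum_range_succ]

theorem MM_dep (x N : ℕ) : Dep N (MM q x N) := by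
  intro s s' h
  unfold MM
  refine Finset.sum_congr rfl fun i hi => ?_
  have hi' := Finset.mem_range.1 hi
  rw [al_dep x hi'.le s s' h, h i hi']

theorem QV_dep (x N : ℕ) : Dep N (QV q x N) := by
  intro s s' h
  unfold QV
  refine Finset.sum_congr rfl fun i hi => ?_
  have hi' := Finset.mem_range.1 hi
  rw [al_dep x hi'.le s s' h]

theorem first (hp : ∀ i, 0 ≤ q i ∧ q i ≤ 1) [IsProbabilityMeasure (stackLaw q)] (x N : ℕ) :
    ∫ s, MM q x N s ∂(stackLaw q) = 0 := by
  induction N with
  | zero => simp [MM]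
  | succ N ih =>
    have d1 : Dep (N + 1) (fun s => Mom2Aux.al x N s * et q N (s N)) := fun s s' h => by
      have := (al_dep x (le_refl N)).mono (Nat.le_succ N) s s' h
      show Mom2Aux.al x N s * et q N (s N) = Mom2Aux.al x N s' * et q N (s' N)
      rw [h N (Nat.lt_succ_self N), this]
    simp only [MM_succ]
    rw [integral_add (intble (MM_dep x N)) (intble d1), ih, indep_int hp (al_dep x (le_refl N)) (et q N)]
    have e1 : et q N true * q N + et q N false * (1 - q N) = 0 := by
      unfold et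
      simp
      ring
    rw [e1, mul_zero, add_zero]

theorem second (hp : ∀ i, 0 ≤ q i ∧ q i ≤ 1) [IsProbabilityMeasure (stackLaw q)] (x N : ℕ) :
    ∫ s, MM q x N s ^ 2 ∂(stackLaw q) = ∫ s, QV q x N s ∂(stackLaw q) := by
  induction N with
  | zero => simp [MM, QV]
  | succ N ih =>
    have h1 : ∀ s, MM q x (N + 1) s ^ 2 = MM q x N s ^ 2 +
        (2 * (MM q x N s * Mom2Aux.al x N s)) * et q N (s N) + Mom2Aux.al x N s * (et q N (s N)) ^ 2 := by
      intro s
      rw [MM_succ]
      have e2 := al_sq x N s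
      calc (MM q x N s + Mom2Aux.al x N s * et q N (s N)) ^ 2 = MM q x N s ^ 2 +
          (2 * (MM q x N s * Mom2Aux.al x N s)) * et q N (s N) +
            (Mom2Aux.al x N s * Mom2Aux.al x N s) * (et q N (s N)) ^ 2 := by
            ring
        _ = _ := by rw [e2]
    have h2 : ∀ s, QV q x (N + 1) s = QV q x N s + Mom2Aux.al x N s * (4 * q N * (1 - q N)) := by
      intro s
      unfold QV
      rw [Finset.sum_range_succ]
    have d1 : Dep N (fun s => MM q x N s ^ 2) := fun s s' h => by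
      show MM q x N s ^ 2 = MM q x N s' ^ 2
      rw [MM_dep x N s s' h]
    have d2 : Dep N (fun s => 2 * (MM q x N s * Mom2Aux.al x N s)) := fun s s' h => by
      show 2 * (MM q x N s * Mom2Aux.al x N s) = 2 * (MM q x N s' * Mom2Aux.al x N s')
      rw [MM_dep x N s s' h, al_dep x le_rfl s s' h]
    have d3 := al_dep x (le_refl N)
    have d4 : Dep (N + 1) (fun s => (2 * (MM q x N s * Mom2Aux.al x N s)) * et q N (s N)) := fun s s' h => by
      have := d2.mono (Nat.le_succ N) s s' h
      show (2 * (MM q x N s * Mom2Aux.al x N s)) * et q N (s N) =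
        (2 * (MM q x N s' * Mom2Aux.al x N s')) * et q N (s' N)
      rw [h N (Nat.lt_succ_self N)]
      exact congrArg (· * et q N (s' N)) this
    have d5 : Dep (N + 1) (fun s => Mom2Aux.al x N s * (et q N (s N)) ^ 2) := fun s s' h => by
      have := d3.mono (Nat.le_succ N) s s' h
      show Mom2Aux.al x N s * (et q N (s N)) ^ 2 = Mom2Aux.al x N s' * (et q N (s' N)) ^ 2
      rw [h N (Nat.lt_succ_self N), this]
    have d6 : Dep (N + 1) (fun s => MM q x N s ^ 2 + (2 * (MM q x N s * Mom2Aux.al x N s)) * et q N (s N)) :=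
      fun s s' h => by
      have a1 := d1.mono (Nat.le_succ N) s s' h
      have a2 := d4 s s' h
      exact congrArg₂ (· + ·) a1 a2
    simp only [h1, h2]
    rw [integral_add (intble d6) (intble d5), integral_add (intble d1) (intble d4),
      integral_add (intble (QV_dep x N)) ((intble d3).mul_const _), ih, indep_int hp d2 (et q N),
      indep_int hp d3 (fun b => et q N b ^ 2), integral_mul_const]
    have e1 : et q N true * q N + et q N false * (1 - q N) = 0 := by
      unfold et
      simp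
      ring
    have e2 : et q N true ^ 2 * q N + et q N false ^ 2 * (1 - q N) = 4 * q N * (1 - q N) := by
      unfold et
      simp
      ring
    rw [e1, e2, mul_zero, add_zero]

/-! ### paths -/

/-- infinitely many failures -/
def Gd (s : ℕ → Bool) : Prop := ∀ m, ∃ n, m ≤ fails s n

theorem U_eq {s : ℕ → Bool} (hs : Gd s) (x : ℕ) : (U x s : ℝ) = (T x s : ℝ) - x := by
  have h1 := WaldAux.fails_T (hs x)
  have h2 := WaldAux.fails_le s (T x s)
  unfold U
  rw [Nat.cast_sub (by omega)]

theorem al_eq {s : ℕ → Bool} (hs : Gd s) (x i : ℕ) : Mom2Aux.al x i s = if i < T x s then 1 else 0 := by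
  unfold Mom2Aux.al
  by_cases h : i < T x s
  · rw [if_pos h, if_pos ((WaldAux.lt_T_iff (hs x) i).1 h)]
  · rw [if_neg h, if_neg (fun h' => h ((WaldAux.lt_T_iff (hs x) i).2 h'))]

theorem al_nonneg (x i : ℕ) (s : ℕ → Bool) : 0 ≤ Mom2Aux.al x i s := by
  unfold Mom2Aux.al
  split_ifs <;> norm_num

theorem sum_al {s : ℕ → Bool} (hs : Gd s) (x : ℕ) (f : ℕ → ℝ) {N : ℕ} (hN : T x s ≤ N) :
    ∑ i ∈ Finset.range N, Mom2Aux.al x i s * f i = ∑ i ∈ Finset.range (T x s), f i := by
  rw [← Finset.sum_subset (Finset.range_mono hN)]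
  · refine Finset.sum_congr rfl fun i hi => ?_
    rw [al_eq hs, if_pos (Finset.mem_range.1 hi), one_mul]
  · intro i _ hi
    rw [al_eq hs, if_neg (fun h => hi (Finset.mem_range.2 h)), zero_mul]

theorem sum_al_le {s : ℕ → Bool} (hs : Gd s) (x N : ℕ) :
    ∑ i ∈ Finset.range N, Mom2Aux.al x i s ≤ T x s := by
  have h1 : ∑ i ∈ Finset.range N, Mom2Aux.al x i s ≤ ∑ i ∈ Finset.range (max N (T x s)), Mom2Aux.al x i s := by
    refine Finset.sum_le_sum_of_subset_of_nonneg (Finset.range_mono (le_max_left _ _)) ?_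
    intro i _ _
    exact al_nonneg x i s
  have h2 := sum_al hs x (fun _ => (1 : ℝ)) (le_max_right N (T x s))
  simp only [mul_one] at h2
  rw [h2] at h1
  simpa using h1

theorem sum_q (n : ℕ) : ∑ i ∈ Finset.range n, (2 * q i - 1) = - dd q n := by
  unfold dd
  rw [← Finset.sum_neg_distrib]
  exact Finset.sum_congr rfl fun i _ => by ring

theorem MM_lim {s : ℕ → Bool} (hs : Gd s) (x : ℕ) {N : ℕ} (hN : T x s ≤ N) :
    MM q x N s = (U x s : ℝ) - x + dd q (T x s) := by
  unfold MM
  rw [sum_al hs x (fun i => et q i (s i)) hN]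
  unfold et
  rw [Finset.sum_sub_distrib, steps, sum_q, WaldAux.fails_T (hs x), U_eq hs]
  ring

theorem QV_lim {s : ℕ → Bool} (hs : Gd s) (x : ℕ) {N : ℕ} (hN : T x s ≤ N) :
    QV q x N s = ∑ i ∈ Finset.range (T x s), 4 * q i * (1 - q i) := by
  unfold QV
  rw [sum_al hs x (fun i => 4 * q i * (1 - q i)) hN]

theorem MM_bd (hq : HQ q) {s : ℕ → Bool} (hs : Gd s) (x N : ℕ) :
    |MM q x N s| ≤ 2 * (T x s : ℝ) := by
  have h1 : |MM q x N s| ≤ ∑ i ∈ Finset.range N, Mom2Aux.al x i s * 2 := by
    unfold MM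
    refine (Finset.abs_sum_le_sum_abs _ _).trans (Finset.sum_le_sum fun i _ => ?_)
    have h2 := al_nonneg x i s
    rw [abs_mul, abs_of_nonneg h2]
    refine mul_le_mul_of_nonneg_left ?_ h2
    have h3 := hq i
    unfold et
    rw [abs_le]
    constructor <;> split_ifs <;> linarith [h3.1, h3.2]
  rw [← Finset.sum_mul] at h1
  have h2 := sum_al_le hs x N
  linarith

theorem QV_bd (hq : HQ q) {s : ℕ → Bool} (hs : Gd s) (x N : ℕ) :
    |QV q x N s| ≤ (T x s : ℝ) := by
  have h1 : |QV q x N s| ≤ ∑ i ∈ Finset.range N, Mom2Aux.al x i s := by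
    unfold QV
    refine (Finset.abs_sum_le_sum_abs _ _).trans (Finset.sum_le_sum fun i _ => ?_)
    have h2 := al_nonneg x i s
    rw [abs_mul, abs_of_nonneg h2]
    refine mul_le_of_le_one_right h2 ?_
    have h3 := hq i
    rw [abs_le]
    constructor
    · nlinarith [h3.1, h3.2]
    · nlinarith [sq_nonneg (2 * q i - 1)]
  exact h1.trans (sum_al_le hs x N)

theorem dd_bd (hq : HQ q) (n : ℕ) : |dd q n| ≤ n := by
  unfold dd
  refine (Finset.abs_sum_le_sum_abs _ _).trans ?_
  have : ∑ i ∈ Finset.range n, |1 - 2 * q i| ≤ ∑ i ∈ Finset.range n, (1 : ℝ) := by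
    refine Finset.sum_le_sum fun i _ => ?_
    have h3 := hq i
    rw [abs_le]
    constructor <;> linarith [h3.1, h3.2]
  simpa using this

theorem int_T2 (hq : HQ q) (hM : StmQMom) (m : ℕ) :
    Integrable (fun s => (T m s : ℝ) ^ 2) (stackLaw q) := by
  obtain ⟨hM1, C, hC, hM2⟩ := hM
  obtain ⟨hpr, -⟩ := hM1 q hq
  have h1 := hM2 q hq m
  have hmeas : Measurable fun s => (T m s : ℝ) ^ 2 :=
    (measurable_of_countable (fun n : ℕ => (n : ℝ) ^ 2)).comp (WaldAux.meas_T m)
  refine ⟨hmeas.aestronglyMeasurable, ?_⟩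
  rw [hasFiniteIntegral_iff_ofReal (Eventually.of_forall fun s => by positivity)]
  have h2 : ∀ s : ℕ → Bool, ENNReal.ofReal ((T m s : ℝ) ^ 2) ≤
      (4 * m : ℝ≥0∞) ^ 2 + (if 4 * m < T m s then ((T m s : ℕ) : ℝ≥0∞) ^ 4 else 0) := by
    intro s
    have e : ENNReal.ofReal ((T m s : ℝ) ^ 2) = ((T m s : ℕ) : ℝ≥0∞) ^ 2 := by
      rw [ENNReal.ofReal_pow (Nat.cast_nonneg _), ENNReal.ofReal_natCast]
    rw [e]
    split_ifs with h
    · refine le_trans ?_ le_add_self
      have h3 : (T m s) ^ 2 ≤ (T m s) ^ 4 := Nat.pow_le_pow_right (by omega) (by norm_num)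
      exact_mod_cast h3
    · rw [add_zero]
      have h3 : (T m s) ^ 2 ≤ (4 * m) ^ 2 := Nat.pow_le_pow_left (by omega) 2
      exact_mod_cast h3
  calc ∫⁻ s, ENNReal.ofReal ((T m s : ℝ) ^ 2) ∂(stackLaw q)
      ≤ ∫⁻ s, ((4 * m : ℝ≥0∞) ^ 2 + (if 4 * m < T m s then ((T m s : ℕ) : ℝ≥0∞) ^ 4 else 0))
          ∂(stackLaw q) := lintegral_mono h2
    _ = (4 * m : ℝ≥0∞) ^ 2 + ∫⁻ s, (if 4 * m < T m s then ((T m s : ℕ) : ℝ≥0∞) ^ 4 else 0)
          ∂(stackLaw q) := by
        rw [lintegral_add_left measurable_const, lintegral_const, measure_univ, mul_one]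
    _ < ⊤ := by
        refine ENNReal.add_lt_top.2 ⟨?_, lt_of_le_of_lt h1 (lt_top_iff_ne_top.2 hC)⟩
        exact ENNReal.pow_lt_top (ENNReal.mul_lt_top (by norm_num) (ENNReal.natCast_lt_top m))

theorem int_T (hq : HQ q) (hM : StmQMom) (m : ℕ) :
    Integrable (fun s => (T m s : ℝ)) (stackLaw q) := by
  have hmeas : Measurable fun s => (T m s : ℝ) :=
    (measurable_of_countable (fun n : ℕ => (n : ℝ))).comp (WaldAux.meas_T m)
  refine Integrable.mono' (int_T2 hq hM m) hmeas.aestronglyMeasurable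
    (Eventually.of_forall fun s => ?_)
  rw [Real.norm_eq_abs, abs_of_nonneg (Nat.cast_nonneg _)]
  have : T m s ≤ T m s ^ 2 := Nat.le_self_pow (by norm_num) _
  exact_mod_cast this

end QWaldAux

open QWaldAux in
theorem qwald : StmQTail → StmQMom → StmQWald := by
  intro _ hM q hq m
  have hp : ∀ i, 0 ≤ q i ∧ q i ≤ 1 := fun i => ⟨(hq i).1, by linarith [(hq i).2]⟩
  have iT := int_T hq hM m
  have iT2 := int_T2 hq hM m
  obtain ⟨hpr, hI⟩ := hM.1 q hq
  have hI' : ∀ᵐ s ∂(stackLaw q), Gd s := hI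
  have i4 : Integrable (fun s => (2 * (T m s : ℝ)) ^ 2) (stackLaw q) := by
    have h1 : (fun s => (2 * (T m s : ℝ)) ^ 2) = fun s => 4 * (T m s : ℝ) ^ 2 := by
      funext s
      ring
    rw [h1]
    exact iT2.const_mul 4
  have i2 : Integrable (fun s => 2 * (T m s : ℝ)) (stackLaw q) := iT.const_mul 2
  have m0 : ∀ N, AEStronglyMeasurable (fun s => MM q m N s) (stackLaw q) := fun N =>
    (Mom2Aux.Dep.meas (MM_dep m N)).aestronglyMeasurable
  have m1 : ∀ N, AEStronglyMeasurable (fun s => MM q m N s ^ 2) (stackLaw q) := fun N =>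
    ((Mom2Aux.Dep.meas (MM_dep m N)).pow_const 2).aestronglyMeasurable
  have m2 : ∀ N, AEStronglyMeasurable (QV q m N) (stackLaw q) := fun N =>
    (Mom2Aux.Dep.meas (QV_dep m N)).aestronglyMeasurable
  have b0 : ∀ N, ∀ᵐ s ∂(stackLaw q), ‖MM q m N s‖ ≤ 2 * (T m s : ℝ) := fun N => by
    filter_upwards [hI'] with s hs
    exact MM_bd hq hs m N
  have b1 : ∀ N, ∀ᵐ s ∂(stackLaw q), ‖MM q m N s ^ 2‖ ≤ (2 * (T m s : ℝ)) ^ 2 := fun N => by
    filter_upwards [hI'] with s hs
    rw [Real.norm_eq_abs, abs_pow]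
    exact pow_le_pow_left₀ (abs_nonneg _) (MM_bd hq hs m N) 2
  have b2 : ∀ N, ∀ᵐ s ∂(stackLaw q), ‖QV q m N s‖ ≤ (T m s : ℝ) := fun N => by
    filter_upwards [hI'] with s hs
    exact QV_bd hq hs m N
  have l0 : ∀ᵐ s ∂(stackLaw q), Tendsto (fun N => MM q m N s) atTop
      (𝓝 ((U m s : ℝ) - m + dd q (T m s))) := by
    filter_upwards [hI'] with s hs
    refine tendsto_const_nhds.congr' ?_
    filter_upwards [eventually_ge_atTop (T m s)] with N hN
    rw [MM_lim hs m hN]
  have l1 : ∀ᵐ s ∂(stackLaw q), Tendsto (fun N => MM q m N s ^ 2) atTop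
      (𝓝 (((U m s : ℝ) - m + dd q (T m s)) ^ 2)) := by
    filter_upwards [l0] with s hs
    exact hs.pow 2
  have l2 : ∀ᵐ s ∂(stackLaw q), Tendsto (fun N => QV q m N s) atTop
      (𝓝 (∑ i ∈ Finset.range (T m s), 4 * q i * (1 - q i))) := by
    filter_upwards [hI'] with s hs
    refine tendsto_const_nhds.congr' ?_
    filter_upwards [eventually_ge_atTop (T m s)] with N hN
    rw [QV_lim hs m hN]
  have k0 := tendsto_integral_of_dominated_convergence _ m0 i2 b0 l0
  have k1 := tendsto_integral_of_dominated_convergence _ m1 i4 b1 l1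
  have k2 := tendsto_integral_of_dominated_convergence _ m2 iT b2 l2
  refine ⟨iT, iT2, ?_, ?_⟩
  · have h0 : ∫ s, ((U m s : ℝ) - m + dd q (T m s)) ∂(stackLaw q) = 0 := by
      refine tendsto_nhds_unique k0 ?_
      refine tendsto_const_nhds.congr fun N => ?_
      exact (first hp m N).symm
    have iD : Integrable (fun s => dd q (T m s)) (stackLaw q) := by
      have hmeas : Measurable fun s => dd q (T m s) :=
        (measurable_of_countable (fun n : ℕ => dd q n)).comp (WaldAux.meas_T m)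
      refine Integrable.mono' iT hmeas.aestronglyMeasurable (Eventually.of_forall fun s => ?_)
      exact dd_bd hq (T m s)
    have iU : Integrable (fun s => (U m s : ℝ) - m) (stackLaw q) := by
      have h1 : (fun s => (T m s : ℝ) - 2 * m) =ᵐ[stackLaw q] (fun s => (U m s : ℝ) - m) := by
        filter_upwards [hI'] with s hs
        rw [U_eq hs]
        ring
      exact (iT.sub (integrable_const _)).congr h1
    rw [integral_add iU iD] at h0
    linarith
  · refine tendsto_nhds_unique k1 ?_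
    refine k2.congr fun N => ?_
    exact (second hp m N).symm

end Pool.Agent.N276.BE
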