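import Pool.Agent.N276.BE.Stm

/-!
# The chain can jump up

helper91, for project BE of helper276
-/

set_option autoImplicit false

open MeasureTheory ProbabilityTheory Filter Topology Set
open scoped ENNReal

namespace Pool.Agent.N276.BE

open Pool.Agent.N276.ER

namespace SpreadAux

theorem bern_true (q : ℝ) : bern q {true} = ENNReal.ofReal q := by simp [bern]

theorem bern_prob (q : ℝ) (h0 : 0 ≤ q) (h1 : q ≤ 1) : IsProbabilityMeasure (bern q) := by
  refine ⟨?_⟩
  simp only [bern, Measure.coe_add, Measure.coe_smul, Pi.add_apply, Pi.smul_apply, measure_univ,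
    smul_eq_mul, mul_one]
  rw [← ENNReal.ofReal_add h0 (by linarith)]
  simp

/-- the averaged law of a set -/
theorem LL_apply (hM : StmMeas) (hX : StmMix) {lam : Measure (ℕ → ℝ)} (h1 : IsProbabilityMeasure lam)
    (h2 : POS lam) {S : Set (ℕ → Bool)} (hS : MeasurableSet S) :
    LL lam S = ∫⁻ η, stackLaw (co η) S ∂lam := by
  have h := (hX lam h1 h2).2.2.2 (fun _ s => S.indicator 1 s)
    ((measurable_one.indicator hS).comp measurable_snd)
  simp only [lintegral_indicator_one hS] at h
  rw [← h, ← lintegral_indicator_one hS]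
  unfold LL
  exact lintegral_map (measurable_one.indicator hS) hM.2.1

theorem fails_mono (s : ℕ → Bool) : Monotone (fails s) := by
  intro a b hab
  unfold fails
  exact Finset.card_le_card (Finset.filter_subset_filter _ (Finset.range_mono hab))

theorem fails_succ {s : ℕ → Bool} {i : ℕ} (h : s i = false) : fails s (i + 1) = fails s i + 1 := by
  unfold fails
  rw [Finset.range_add_one, Finset.filter_insert, if_pos h, Finset.card_insert_of_notMem]
  simp

theorem exists_fails {s : ℕ → Bool} (h : ∀ n, ∃ i, n ≤ i ∧ s i = false) : ∀ m, ∃ n, m ≤ fails s n := by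
  intro m
  induction m with
  | zero => exact ⟨0, Nat.zero_le _⟩
  | succ m ih =>
    obtain ⟨n, hn⟩ := ih
    obtain ⟨i, hi, hs⟩ := h n
    refine ⟨i + 1, ?_⟩
    rw [fails_succ hs]
    have := fails_mono s hi
    omega

theorem U_ge {s : ℕ → Bool} {w w₀ : ℕ} (h1 : ∀ i, i < w₀ → s i = true) (h2 : ∃ n, w + 1 ≤ fails s n) :
    w₀ ≤ U (w + 1) s := by
  have h3 : w + 1 ≤ fails s (T (w + 1) s) := Nat.sInf_mem (s := {n | w + 1 ≤ fails s n}) h2
  have h4 : fails s (T (w + 1) s) ≤ T (w + 1) s - w₀ := by
    unfold fails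
    have : (Finset.range (T (w + 1) s)).filter (fun i => s i = false) ⊆ Finset.Ico w₀ (T (w + 1) s) := by
      intro i hi
      rw [Finset.mem_filter, Finset.mem_range] at hi
      rw [Finset.mem_Ico]
      refine ⟨?_, hi.1⟩
      by_contra h
      push Not at h
      have := h1 i h
      rw [hi.2] at this
      exact absurd this (by simp)
    have h5 := Finset.card_le_card this
    rwa [Nat.card_Ico] at h5
  unfold U
  omega

/-- the arrows are not all reversed from some index on -/
theorem tail_zero {q : ℕ → ℝ} (hq : HQ q) (n : ℕ) : stackLaw q {s | ∀ i, n ≤ i → s i = true} = 0 := by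
  have hP : ∀ i, IsProbabilityMeasure (bern (q i)) := fun i =>
    bern_prob _ (hq i).1 (by linarith [(hq i).2])
  have hb : ∀ i, bern (q i) {true} ≤ ENNReal.ofReal (1 / 2) := by
    intro i
    rw [bern_true]
    exact ENNReal.ofReal_le_ofReal (hq i).2
  have h1 : ∀ N : ℕ, stackLaw q {s | ∀ i, n ≤ i → s i = true} ≤ (ENNReal.ofReal (1 / 2)) ^ N := by
    intro N
    have hsub : {s : ℕ → Bool | ∀ i, n ≤ i → s i = true} ⊆
        Set.pi (Finset.Ico n (n + N) : Set ℕ) (fun _ => ({true} : Set Bool)) := by
      intro s hs i hi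
      rw [Finset.mem_coe, Finset.mem_Ico] at hi
      exact hs i hi.1
    refine (measure_mono hsub).trans ?_
    rw [stackLaw, Measure.infinitePi_pi _ (fun i _ => measurableSet_singleton true)]
    calc ∏ i ∈ Finset.Ico n (n + N), bern (q i) {true}
        ≤ ∏ _i ∈ Finset.Ico n (n + N), ENNReal.ofReal (1 / 2) :=
          Finset.prod_le_prod' fun i _ => hb i
      _ = (ENNReal.ofReal (1 / 2)) ^ N := by
          rw [Finset.prod_const, Nat.card_Ico, Nat.add_sub_cancel_left]
  have h2 : Tendsto (fun N : ℕ => (ENNReal.ofReal (1 / 2)) ^ N) atTop (𝓝 0) :=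
    ENNReal.tendsto_pow_atTop_nhds_zero_of_lt_one (by
      rw [ENNReal.ofReal_lt_one]
      norm_num)
  exact le_antisymm (ge_of_tendsto' h2 h1) bot_le

theorem meas_coord (i : ℕ) (b : Bool) : MeasurableSet {s : ℕ → Bool | s i = b} :=
  measurableSet_eq_fun (measurable_pi_apply i) measurable_const

theorem meas_tail (n : ℕ) : MeasurableSet {s : ℕ → Bool | ∀ i, n ≤ i → s i = true} := by
  have : {s : ℕ → Bool | ∀ i, n ≤ i → s i = true} = ⋂ i, ⋂ (_ : n ≤ i), {s : ℕ → Bool | s i = true} := by
    ext s
    simp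
  rw [this]
  exact MeasurableSet.iInter fun i => MeasurableSet.iInter fun _ => meas_coord i true

theorem meas_head (w₀ : ℕ) : MeasurableSet {s : ℕ → Bool | ∀ i, i < w₀ → s i = true} := by
  have : {s : ℕ → Bool | ∀ i, i < w₀ → s i = true} = ⋂ i, ⋂ (_ : i < w₀), {s : ℕ → Bool | s i = true} := by
    ext s
    simp
  rw [this]
  exact MeasurableSet.iInter fun i => MeasurableSet.iInter fun _ => meas_coord i true

/-- infinitely many failures under the averaged law -/
theorem inf_ae (hM : StmMeas) (hX : StmMix) {lam : Measure (ℕ → ℝ)} (h1 : IsProbabilityMeasure lam)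
    (h2 : POS lam) : ∀ᵐ s ∂(LL lam), ∀ n, ∃ i, n ≤ i ∧ s i = false := by
  rw [ae_all_iff]
  intro n
  have h3 : LL lam {s | ∀ i, n ≤ i → s i = true} = 0 := by
    rw [LL_apply hM hX h1 h2 (meas_tail n)]
    have h4 : (fun η => stackLaw (co η) {s | ∀ i, n ≤ i → s i = true}) =ᵐ[lam] fun _ => 0 := by
      filter_upwards [(hX lam h1 h2).1] with η hη
      exact tail_zero hη n
    rw [lintegral_congr_ae h4, lintegral_zero]
  rw [ae_iff]
  convert h3 using 2
  ext s
  simp only [mem_ofPred_eq, not_exists, not_and]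
  constructor
  · intro h i hi
    have := h i hi
    simpa using this
  · intro h i hi
    simp [h i hi]

end SpreadAux

open SpreadAux in
/-- **The chain can jump up.** -/
theorem spread : StmMeas → StmMix → StmSpread := by
  intro hM hX lam h1 h2 hpos w₀
  refine ⟨LL lam {s | ∀ i, i < w₀ → s i = true}, ?_, fun w => ?_⟩
  · rw [LL_apply hM hX h1 h2 (meas_head w₀)]
    have hG : Measurable fun η : ℕ → ℝ => ∏ i ∈ Finset.range w₀, ENNReal.ofReal (1 - η i) :=
      Finset.measurable_prod _ fun i _ =>
        ENNReal.measurable_ofReal.comp (measurable_const.sub (measurable_pi_apply i))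
    have h3 : (fun η => stackLaw (co η) {s | ∀ i, i < w₀ → s i = true}) =ᵐ[lam]
        fun η => ∏ i ∈ Finset.range w₀, ENNReal.ofReal (1 - η i) := by
      filter_upwards [(hX lam h1 h2).1] with η hη
      have hP : ∀ i, IsProbabilityMeasure (bern (co η i)) := fun i =>
        bern_prob _ (hη i).1 (by linarith [(hη i).2])
      have hset : {s : ℕ → Bool | ∀ i, i < w₀ → s i = true} =
          Set.pi (Finset.range w₀ : Set ℕ) (fun _ => ({true} : Set Bool)) := by
        ext s
        simp [Set.pi]
      rw [hset, stackLaw, Measure.infinitePi_pi _ (fun i _ => measurableSet_singleton true)]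
      exact Finset.prod_congr rfl fun i _ => bern_true _
    rw [lintegral_congr_ae h3, pos_iff_ne_zero]
    intro h0
    rw [lintegral_eq_zero_iff hG] at h0
    have h4 : lam {η | ∀ i, η i < 1} = 0 := by
      refine measure_mono_null ?_ (ae_iff.1 h0)
      intro η hη
      rw [mem_ofPred_eq] at hη ⊢
      intro h5
      have h6 : ∏ i ∈ Finset.range w₀, ENNReal.ofReal (1 - η i) = 0 := h5
      rw [Finset.prod_eq_zero_iff] at h6
      obtain ⟨i, _, hi⟩ := h6
      rw [ENNReal.ofReal_eq_zero] at hi
      linarith [hη i]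
    exact hpos.ne' h4
  · have h3 := inf_ae hM hX h1 h2
    refine measure_mono_ae ?_
    filter_upwards [h3] with s hs hs2
    exact U_ge hs2 (exists_fails hs (w + 1))

end Pool.Agent.N276.BE
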