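import Pool.Agent.N276.BE.Def

/-!
# The statements of the parts of the proof
-/

set_option autoImplicit false

open MeasureTheory ProbabilityTheory Filter Topology Set
open scoped ENNReal

namespace Pool.Agent.N276.BE

open Pool.Agent.N276.ER

/-! ### quenched facts: independent trials with `P (s i = true) = q i ≤ 1 / 2` -/

/-- `q` is a sequence in `[0, 1/2]` -/
def HQ (q : ℕ → ℝ) : Prop := ∀ i, 0 ≤ q i ∧ q i ≤ 1 / 2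

/-- few failures are improbable -/
def StmQTail : Prop := ∀ q : ℕ → ℝ, HQ q → ∀ m t : ℕ, 4 * m ≤ t →
  (stackLaw q) {s | fails s t ≤ m} ≤ ENNReal.ofReal (Real.exp (-(t : ℝ) / 8))

/-- infinitely many failures; moments of the number of trials -/
def StmQMom : Prop := (∀ q : ℕ → ℝ, HQ q → IsProbabilityMeasure (stackLaw q) ∧
    ∀ᵐ s ∂(stackLaw q), ∀ m, ∃ n, m ≤ fails s n) ∧
  ∃ C : ℝ≥0∞, C ≠ ⊤ ∧ ∀ q : ℕ → ℝ, HQ q → ∀ m : ℕ,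
    ∫⁻ s, (if 4 * m < T m s then ((T m s : ℕ) : ℝ≥0∞) ^ 4 else 0) ∂(stackLaw q) ≤ C

/-- Wald's identities -/
def StmQWald : Prop := ∀ q : ℕ → ℝ, HQ q → ∀ m : ℕ,
  Integrable (fun s => (T m s : ℝ)) (stackLaw q) ∧
  Integrable (fun s => (T m s : ℝ) ^ 2) (stackLaw q) ∧
  ∫ s, ((U m s : ℝ) - m) ∂(stackLaw q) = - ∫ s, dd q (T m s) ∂(stackLaw q) ∧
  ∫ s, ((U m s : ℝ) - m + dd q (T m s)) ^ 2 ∂(stackLaw q) =
    ∫ s, (∑ i ∈ Finset.range (T m s), 4 * q i * (1 - q i)) ∂(stackLaw q)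

/-- bounds for the martingale part: with `M = U m - m + dd q (T m)`,
`2 m - 2 E dd ≤ E M² ≤ 2 m` -/
def StmQMart : Prop := ∀ q : ℕ → ℝ, HQ q → ∀ m : ℕ,
  Integrable (fun s => ((U m s : ℝ) - m + dd q (T m s)) ^ 2) (stackLaw q) ∧
  ∫ s, ((U m s : ℝ) - m + dd q (T m s)) ^ 2 ∂(stackLaw q) ≤ 2 * m ∧
  2 * m - 2 * ∫ s, dd q (T m s) ∂(stackLaw q) ≤
    ∫ s, ((U m s : ℝ) - m + dd q (T m s)) ^ 2 ∂(stackLaw q)

/-! ### averaged facts -/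

/-- the averaged law is the mixture of the quenched laws -/
def StmMix : Prop := ∀ lam : Measure (ℕ → ℝ), IsProbabilityMeasure lam → POS lam →
  (∀ᵐ η ∂lam, HQ (co η)) ∧ IsProbabilityMeasure (LR lam) ∧ IsProbabilityMeasure (LL lam) ∧
  ∀ h : (ℕ → ℝ) → (ℕ → Bool) → ℝ≥0∞, Measurable (fun p : (ℕ → ℝ) × (ℕ → Bool) => h p.1 p.2) →
    ∫⁻ z, h z.1 (al z) ∂(BZ lam) = ∫⁻ η, ∫⁻ s, h η s ∂(stackLaw (co η)) ∂lam

/-- measurability -/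
def StmMeas : Prop :=
  Measurable ar ∧ Measurable al ∧ (∀ x, Measurable (T x)) ∧ (∀ x, Measurable (U x)) ∧
  Measurable neg ∧ (∀ n, Measurable fun ω : ℤ → ℕ → Bool => X ω n) ∧
  (∀ k, Measurable fun s : ℕ → ℕ → Bool => W s k) ∧
  (∀ a k, Measurable fun s : ℕ → ℕ → Bool => Yl a s k) ∧
  ∀ m, Measurable fun p : (ℕ → ℝ) × (ℕ → Bool) => dd (co p.1) (T m p.2)

/-- the mean under the averaged law -/
def StmMean : Prop := ∀ lam : Measure (ℕ → ℝ), IsProbabilityMeasure lam → POS lam → ∀ m : ℕ,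
  Integrable (fun s => (U m s : ℝ)) (LL lam) ∧ Integrable (fun s => (U m s : ℝ) ^ 2) (LL lam) ∧
  dm lam m ≤ delta lam ∧ dm lam m ≠ ⊤ ∧
  ∫ s, (U m s : ℝ) ∂(LL lam) = m - (dm lam m).toReal

/-- the martingale part and the used drift, averaged -/
def StmM2 : Prop := ∀ lam : Measure (ℕ → ℝ), IsProbabilityMeasure lam → POS lam → ∀ m : ℕ,
  Integrable (fun z => (T m (al z) : ℝ) ^ 2) (BZ lam) ∧
  (∀ᵐ z ∂(BZ lam), 0 ≤ dd (co z.1) (T m (al z)) ∧ dd (co z.1) (T m (al z)) ≤ T m (al z)) ∧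
  Integrable (fun z => dd (co z.1) (T m (al z)) ^ 2) (BZ lam) ∧
  Integrable (fun z => ((U m (al z) : ℝ) - m + dd (co z.1) (T m (al z))) ^ 2) (BZ lam) ∧
  ∫ z, ((U m (al z) : ℝ) - m + dd (co z.1) (T m (al z))) ^ 2 ∂(BZ lam) ≤ 2 * m ∧
  2 * m - 2 * (dm lam m).toReal ≤
    ∫ z, ((U m (al z) : ℝ) - m + dd (co z.1) (T m (al z))) ^ 2 ∂(BZ lam)

/-- second moment of the used drift if `δ ≤ 2` -/
def StmD2 : Prop := ∀ lam : Measure (ℕ → ℝ), IsProbabilityMeasure lam → POS lam →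
  delta lam ≤ 2 →
  (∃ C : ℝ≥0∞, C ≠ ⊤ ∧ ∀ m : ℕ, 1 ≤ m →
    ∫⁻ z, ENNReal.ofReal (dd (co z.1) (T m (al z))) ^ 2 ∂(BZ lam) ≤ C * m) ∧
  ∀ ε : ℝ≥0∞, 0 < ε → ∃ m₀ : ℕ, ∀ m : ℕ, m₀ ≤ m →
    ∫⁻ z, ENNReal.ofReal (dd (co z.1) (T m (al z))) ^ 2 ∂(BZ lam) ≤ ε * m

/-- the mixed moment if `δ ≤ 2` -/
def StmCross : Prop := ∀ lam : Measure (ℕ → ℝ), IsProbabilityMeasure lam → POS lam →
  delta lam ≤ 2 → ∃ C : ℝ, 0 ≤ C ∧ ∀ m : ℕ, 1 ≤ m →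
    |∫ z, ((U m (al z) : ℝ) - m + dd (co z.1) (T m (al z))) * dd (co z.1) (T m (al z))
      ∂(BZ lam)| ≤ C * Real.sqrt m

/-- second moments if `δ ≤ 2` -/
def StmMom : Prop := ∀ lam : Measure (ℕ → ℝ), IsProbabilityMeasure lam → POS lam →
  delta lam ≤ 2 →
  (∃ C : ℝ, 0 ≤ C ∧ ∀ m : ℕ, 2 * m - C * Real.sqrt m ≤ ∫ s, ((U m s : ℝ) - m) ^ 2 ∂(LL lam)) ∧
  (∃ C : ℝ, 0 ≤ C ∧ ∀ m : ℕ, ∫ s, ((U m s : ℝ) - m) ^ 2 ∂(LL lam) ≤ C * m) ∧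
  ∀ ε : ℝ, 0 < ε → ∃ m₀ : ℕ, ∀ m : ℕ, m₀ ≤ m →
    ∫ s, ((U m s : ℝ) - m) ^ 2 ∂(LL lam) ≤ (2 + ε) * m

/-- the tail under the averaged law -/
def StmTail : Prop := ∃ K₀ : ℕ, ∀ lam : Measure (ℕ → ℝ), IsProbabilityMeasure lam → POS lam →
  ∀ K : ℕ, K₀ ≤ K → ∀ m : ℕ, 4 * m ≤ K →
    ∫ s, (if K < U m s then (U m s : ℝ) ^ 2 else 0) ∂(LL lam) ≤ 1 / 2

/-- the Lyapunov inequality if `δ ≤ 2` -/
def StmLyap : Prop := ∀ lam : Measure (ℕ → ℝ), IsProbabilityMeasure lam → POS lam →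
  delta lam ≤ 2 → ∃ A : ℝ, 1 ≤ A ∧ ∃ w₀ : ℕ, A ^ 2 ≤ w₀ ∧ ∀ w : ℕ, w₀ ≤ w →
    Integrable (fun s => f A (U (w + 1) s)) (LL lam) ∧
    f A w + 1 ≤ ∫ s, f A (U (w + 1) s) ∂(LL lam)

/-- bounded test functions if `δ ≤ 2` -/
def StmTest : Prop := ∀ lam : Measure (ℕ → ℝ), IsProbabilityMeasure lam → POS lam →
  delta lam ≤ 2 → ∃ C : ℝ, 0 ≤ C ∧ ∃ w₀ K₀ : ℕ, w₀ ≤ K₀ ∧ 1 ≤ K₀ ∧ ∀ K : ℕ, K₀ ≤ K →
    ∃ g : ℕ → ℝ, (∀ x, 0 ≤ g x ∧ g x ≤ C * (K : ℝ) ^ 2) ∧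
      (∀ w, g w - C * K ≤ ∫ s, g (U (w + 1) s) ∂(LL lam)) ∧
      (∀ w, w < w₀ → g w ≤ ∫ s, g (U (w + 1) s) ∂(LL lam)) ∧
      (∀ w, w₀ ≤ w → w ≤ K → g w + 1 / 2 ≤ ∫ s, g (U (w + 1) s) ∂(LL lam))

/-- the chain can jump up -/
def StmSpread : Prop := ∀ lam : Measure (ℕ → ℝ), IsProbabilityMeasure lam → POS lam →
  0 < lam {η | ∀ i, η i < 1} → ∀ w₀ : ℕ, ∃ p : ℝ≥0∞, 0 < p ∧ ∀ w : ℕ,
    p ≤ (LL lam) {s | w₀ ≤ U (w + 1) s}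

/-- the mean of the number of steps to the left, `δ > 2` -/
def StmUp : Prop := ∀ lam : Measure (ℕ → ℝ), IsProbabilityMeasure lam → POS lam →
  2 < delta lam → ∃ ε C : ℝ, 0 < ε ∧ 0 ≤ C ∧ ∀ w : ℕ,
    ∫ s, (U (w + 1) s : ℝ) ^ 2 ∂(LL lam) ≤ (w : ℝ) ^ 2 - ε * w + C

/-! ### the chains -/

/-- independence of the next stack -/
def StmMarkov : Prop := ∀ (nu : Measure (ℕ → Bool)), IsProbabilityMeasure nu →
  ∀ (k : ℕ) (G : (ℕ → ℕ → Bool) → ℕ) (g : ℕ → (ℕ → Bool) → ℝ≥0∞),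
  Measurable G → (∀ s s' : ℕ → ℕ → Bool, (∀ j < k, s j = s' j) → G s = G s') →
  (∀ n, Measurable (g n)) →
  ∫⁻ s, g (G s) (s k) ∂(Measure.infinitePi fun _ : ℕ => nu) =
    ∫⁻ s, ∫⁻ u, g (G s) u ∂nu ∂(Measure.infinitePi fun _ : ℕ => nu)

/-- the law of the reversed stacks at distinct sites -/
def StmPush : Prop := ∀ lam : Measure (ℕ → ℝ), IsProbabilityMeasure lam → POS lam →
  ∀ φ : ℕ → ℤ, Function.Injective φ →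
  Measure.map (fun (ω : ℤ → ℕ → Bool) (k : ℕ) => neg (ω (φ k))) (QL lam) = RL lam

/-- if `δ ≤ 2` then the mean of the first `n` terms of the chain is not bounded in probability -/
def StmChainLow : Prop := ∀ lam : Measure (ℕ → ℝ), IsProbabilityMeasure lam → POS lam →
  0 < lam {η | ∀ i, η i < 1} → delta lam ≤ 2 → ∀ C : ℝ,
  ¬ Tendsto (fun n : ℕ => (RL lam) {s | ((∑ k ∈ Finset.range n, W s (k + 1) : ℕ) : ℝ) ≤ C * n})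
    atTop (𝓝 1)

/-- if `δ > 2` then the mean of the first `n` terms of the chain is bounded in mean -/
def StmChainUp : Prop := ∀ lam : Measure (ℕ → ℝ), IsProbabilityMeasure lam → POS lam →
  2 < delta lam → ∃ C : ℝ≥0∞, C ≠ ⊤ ∧ ∀ n : ℕ,
    ∫⁻ s, ((∑ k ∈ Finset.range n, W s (k + 1) : ℕ) : ℝ≥0∞) ∂(RL lam) ≤ C * n

/-- the chain to the left of the origin dies -/
def StmDie : Prop := ∀ lam : Measure (ℕ → ℝ), IsProbabilityMeasure lam → POS lam →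
  ∀ a : ℕ, ∀ᵐ s ∂(RL lam), ∃ k, Yl a s k = 0

/-- almost surely there are infinitely many arrows to the right at every site -/
def StmGood : Prop := ∀ lam : Measure (ℕ → ℝ), IsProbabilityMeasure lam → POS lam →
  ∀ᵐ ω ∂(QL lam), ∀ y : ℤ, ∀ m, ∃ n, m ≤ fails (neg (ω y)) n

/-! ### paths -/

/-- lower bound for the hitting time of `n` -/
def StmPathLow : Prop := ∀ ω : ℤ → ℕ → Bool, (∀ y : ℤ, ∀ m, ∃ n, m ≤ fails (neg (ω y)) n) →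
  ∀ n t : ℕ, X ω t = n → (∀ t' < t, X ω t' < n) →
    2 * ∑ k ∈ Finset.range n, W (fun k => neg (ω ((n : ℤ) - 1 - k))) (k + 1) ≤ t

/-- upper bound for the hitting time of `n` -/
def StmPathUp : Prop := ∀ ω : ℤ → ℕ → Bool, (∀ y : ℤ, ∀ m, ∃ n, m ≤ fails (neg (ω y)) n) →
  ∀ n a K : ℕ, W (fun k => neg (ω ((n : ℤ) - 1 - k))) n ≤ a →
    Yl a (fun k => neg (ω (-((k : ℤ) + 1)))) K = 0 →
    ∃ t : ℕ, t ≤ n + 2 * ∑ k ∈ Finset.range n, W (fun k => neg (ω ((n : ℤ) - 1 - k))) (k + 1) +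
      2 * ∑ k ∈ Finset.range K, Yl a (fun k => neg (ω (-((k : ℤ) + 1)))) (k + 1) ∧ X ω t = n

/-! ### the law of the walk -/

/-- the walk driven by the arrows is an excited random walk -/
def StmLaw : Prop := ∀ lam : Measure (ℕ → ℝ), IsProbabilityMeasure lam → POS lam →
  IsERWIID lam (QL lam) fun n ω => X ω n

/-- the speed depends only on the law of the environment -/
def StmTransfer.{u} : Prop := ∀ (lam : Measure (ℕ → ℝ)) (v : ℝ) (Ω : Type u)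
  (_ : MeasurableSpace Ω) (P : Measure Ω) (X : ℕ → Ω → ℤ) (Ω' : Type)
  (_ : MeasurableSpace Ω') (P' : Measure Ω') (X' : ℕ → Ω' → ℤ),
  IsERWIID lam P X → IsERWIID lam P' X' →
  (∀ᵐ ω ∂P, Tendsto (fun n : ℕ => (X n ω : ℝ) / n) atTop (𝓝 v)) →
  ∀ᵐ ω ∂P', Tendsto (fun n : ℕ => (X' n ω : ℝ) / n) atTop (𝓝 v)

/-- the speed is not negative -/
def StmNonneg : Prop := ∀ lam : Measure (ℕ → ℝ), IsProbabilityMeasure lam → POS lam →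
  ∀ v : ℝ, (∀ᵐ ω ∂(QL lam), Tendsto (fun n : ℕ => (X ω n : ℝ) / n) atTop (𝓝 v)) → 0 ≤ v

/-- `δ ≤ 2`: no positive speed -/
def StmLow : Prop := ∀ lam : Measure (ℕ → ℝ), IsProbabilityMeasure lam → POS lam →
  0 < lam {η | ∀ i, η i < 1} → delta lam ≤ 2 → ∀ v : ℝ,
  (∀ᵐ ω ∂(QL lam), Tendsto (fun n : ℕ => (X ω n : ℝ) / n) atTop (𝓝 v)) → v ≤ 0

/-- `δ > 2`: the speed is not zero -/
def StmHigh : Prop := ∀ lam : Measure (ℕ → ℝ), IsProbabilityMeasure lam → POS lam →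
  2 < delta lam → ¬ ∀ᵐ ω ∂(QL lam), Tendsto (fun n : ℕ => (X ω n : ℝ) / n) atTop (𝓝 0)

end Pool.Agent.N276.BE
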