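import Pool.Agent.N276.BE.Stm

/-!
# The tail under the averaged law (leaf Tail, by helper862)
-/

set_option autoImplicit false

open MeasureTheory ProbabilityTheory Filter Topology Set
open scoped ENNReal

namespace Pool.Agent.N276.BE

open Pool.Agent.N276.ER

namespace TailAux

/-- the truncated square -/
noncomputable def G (K n : ℕ) : ℝ≥0∞ := if K < n then (n : ℝ≥0∞) ^ 2 else 0

theorem ofReal_eq (K n : ℕ) :
    ENNReal.ofReal (if K < n then (n : ℝ) ^ 2 else 0) = G K n := by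
  unfold G
  split_ifs
  · rw [ENNReal.ofReal_pow (by positivity), ENNReal.ofReal_natCast]
  · simp

theorem U_le_T (m : ℕ) (s : ℕ → Bool) : U m s ≤ T m s := by
  unfold U
  exact Nat.sub_le _ _

theorem bound (K m : ℕ) (hm : 4 * m ≤ K) (s : ℕ → Bool) :
    (K : ℝ≥0∞) ^ 2 * G K (U m s) ≤ if 4 * m < T m s then ((T m s : ℕ) : ℝ≥0∞) ^ 4 else 0 := by
  unfold G
  by_cases h : K < U m s
  · have h1 := U_le_T m s
    rw [if_pos h, if_pos (by omega)]
    have h2 : K ^ 2 * U m s ^ 2 ≤ T m s ^ 4 := by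
      calc K ^ 2 * U m s ^ 2 ≤ T m s ^ 2 * T m s ^ 2 :=
            Nat.mul_le_mul (Nat.pow_le_pow_left (by omega) 2) (Nat.pow_le_pow_left h1 2)
        _ = T m s ^ 4 := by ring
    exact_mod_cast h2
  · rw [if_neg h]
    simp

end TailAux

open TailAux in
theorem tail : StmMeas → StmMix → StmQTail → StmQMom → StmTail := by
  intro hM hX _ hQ
  obtain ⟨_, C, hC, hQ⟩ := hQ
  obtain ⟨-, hal, hT, hU, -⟩ := hM
  refine ⟨⌈2 * C.toReal⌉₊ + 1, ?_⟩
  intro lam hlam hpos K hK m hm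
  obtain ⟨hco, _, _, hmix⟩ := hX lam hlam hpos
  have hG : Measurable (fun s : ℕ → Bool => G K (U m s)) :=
    (Measurable.of_discrete (f := G K)).comp (hU m)
  have hR : Measurable (fun s : ℕ → Bool => if K < U m s then (U m s : ℝ) ^ 2 else 0) :=
    (Measurable.of_discrete (f := fun n : ℕ => if K < n then (n : ℝ) ^ 2 else 0)).comp (hU m)
  rw [integral_eq_lintegral_of_nonneg_ae
    (Eventually.of_forall fun s => by
      show (0 : ℝ) ≤ if K < U m s then (U m s : ℝ) ^ 2 else 0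
      split_ifs <;> positivity)
    hR.aestronglyMeasurable]
  apply ENNReal.toReal_le_of_le_ofReal (by norm_num)
  simp only [ofReal_eq]
  have h1 : ∫⁻ s, G K (U m s) ∂(LL lam) =
      ∫⁻ η, ∫⁻ s, G K (U m s) ∂(stackLaw (co η)) ∂lam := by
    unfold LL
    rw [lintegral_map hG hal]
    exact hmix (fun _ s => G K (U m s)) (hG.comp measurable_snd)
  have h2 : (K : ℝ≥0∞) ^ 2 * ∫⁻ s, G K (U m s) ∂(LL lam) ≤ C := by
    rw [h1]
    rw [← lintegral_const_mul' _ _ (by finiteness)]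
    calc ∫⁻ η, (K : ℝ≥0∞) ^ 2 * ∫⁻ s, G K (U m s) ∂(stackLaw (co η)) ∂lam ≤ ∫⁻ _, C ∂lam := by
          apply lintegral_mono_ae
          filter_upwards [hco] with η hη
          rw [← lintegral_const_mul' _ _ (by finiteness)]
          exact (lintegral_mono fun s => bound K m hm s).trans (hQ _ hη m)
      _ = C := by simp
  have hK1 : (1 : ℝ) ≤ K := by
    have : 1 ≤ K := by omega
    exact_mod_cast this
  have h3 : C ≤ (K : ℝ≥0∞) ^ 2 * ENNReal.ofReal (1 / 2) := by
    have h4 : 2 * C.toReal ≤ K := by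
      have := Nat.le_ceil (2 * C.toReal)
      have h5 : ((⌈2 * C.toReal⌉₊ : ℕ) : ℝ) + 1 ≤ K := by exact_mod_cast hK
      linarith
    rw [← ENNReal.ofReal_toReal hC, ← ENNReal.ofReal_natCast, ← ENNReal.ofReal_pow (by positivity),
      ← ENNReal.ofReal_mul (by positivity)]
    apply ENNReal.ofReal_le_ofReal
    nlinarith
  have hK0 : (K : ℝ≥0∞) ^ 2 ≠ 0 := by
    have : K ≠ 0 := by omega
    simp [this]
  have hKt : (K : ℝ≥0∞) ^ 2 ≠ ⊤ := by finiteness
  exact (ENNReal.mul_le_mul_iff_right hK0 hKt).1 (h2.trans h3)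

end Pool.Agent.N276.BE
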