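import Pool.Agent.N276.BE.Stm

/-!
# Bounded test functions
-/

set_option autoImplicit false

open MeasureTheory ProbabilityTheory Filter Topology Set
open scoped ENNReal

namespace Pool.Agent.N276.BE

open Pool.Agent.N276.ER

namespace TestAux

/-! ### the function `f` -/

lemma f_sqrt (A : ℝ) {x : ℝ} (hx : 0 ≤ x) : f A x = √x ^ 4 - A * √x ^ 3 := by
  unfold f
  have h1 : x ^ (3 / 2 : ℝ) = √x ^ 3 := by
    rw [Real.sqrt_eq_rpow, ← Real.rpow_natCast, ← Real.rpow_mul hx]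
    norm_num
  have h2 : x ^ 2 = √x ^ 4 := by
    rw [show (4 : ℕ) = 2 * 2 by norm_num, pow_mul, Real.sq_sqrt hx]
  rw [h1, h2]

/-- cubes of consecutive square roots -/
lemma cube_le {a b : ℝ} (ha : 0 ≤ a) (hb : 0 < b) (h : b ^ 2 = a ^ 2 + 1) :
    0 ≤ b ^ 3 - a ^ 3 ∧ b ^ 3 - a ^ 3 ≤ a + b ∧
      b ^ 3 - a ^ 3 = (a + b) - a * b / (a + b) := by
  have hab : 0 < a + b := by linarith
  have e : b ^ 3 - a ^ 3 = (a + b) - a * b / (a + b) := by
    field_simp
    linear_combination (b ^ 2 + a * b + a ^ 2) * h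
  have hle : a * b / (a + b) ≤ a + b := by
    rw [div_le_iff₀ hab]
    nlinarith [mul_nonneg ha hb.le]
  have h0 : 0 ≤ a * b / (a + b) := by positivity
  refine ⟨by rw [e]; linarith, by rw [e]; linarith, e⟩

lemma cube_diff {a b c : ℝ} (ha : 0 ≤ a) (hb : 0 < b) (hc : 0 < c) (h : b ^ 2 = a ^ 2 + 1)
    (h' : c ^ 2 = b ^ 2 + 1) : (c ^ 3 - b ^ 3) - (b ^ 3 - a ^ 3) ≤ c - a := by
  have e1 := (cube_le ha hb h).2.2
  have e2 := (cube_le hb.le hc h').2.2
  have hac : a ≤ c := by nlinarith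
  have h3 : a * b / (a + b) ≤ b * c / (b + c) := by
    rw [div_le_div_iff₀ (by linarith) (by linarith)]
    nlinarith [mul_nonneg (mul_nonneg hb.le hb.le) (sub_nonneg.2 hac)]
  rw [e1, e2]
  linarith

/-- first differences -/
lemma diff_bounds {A : ℝ} (hA : 1 ≤ A) {i : ℕ} (hi : A ^ 2 ≤ i) :
    0 ≤ f A ((i + 1 : ℕ) : ℝ) - f A (i : ℝ) ∧
      f A ((i + 1 : ℕ) : ℝ) - f A (i : ℝ) ≤ 2 * i + 1 := by
  rw [f_sqrt A (Nat.cast_nonneg _), f_sqrt A (Nat.cast_nonneg _)]
  set a := √(i : ℝ) with ha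
  set b := √((i + 1 : ℕ) : ℝ) with hb
  have ha0 : 0 ≤ a := Real.sqrt_nonneg _
  have hb0 : 0 < b := Real.sqrt_pos.2 (by positivity)
  have ha2 : a ^ 2 = i := Real.sq_sqrt (Nat.cast_nonneg _)
  have hb2 : b ^ 2 = i + 1 := by
    rw [hb, Real.sq_sqrt (Nat.cast_nonneg _)]
    push_cast
    ring
  have hab : b ^ 2 = a ^ 2 + 1 := by rw [ha2, hb2]
  obtain ⟨h1, h2, -⟩ := cube_le ha0 hb0 hab
  have hAa : A ≤ a := by
    rw [ha]
    exact Real.le_sqrt_of_sq_le hi
  have e : b ^ 4 - A * b ^ 3 - (a ^ 4 - A * a ^ 3) = (b ^ 2 - a ^ 2) * (b ^ 2 + a ^ 2) - A * (b ^ 3 - a ^ 3) := by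
    ring
  rw [e, hb2, ha2]
  constructor
  · have h3 : A * (b ^ 3 - a ^ 3) ≤ a * (a + b) :=
      mul_le_mul hAa h2 h1 ha0
    have h4 : a * b ≤ (a ^ 2 + b ^ 2) / 2 := by nlinarith [sq_nonneg (a - b)]
    nlinarith
  · have h3 : 0 ≤ A * (b ^ 3 - a ^ 3) := mul_nonneg (by linarith) h1
    linarith

/-- second differences -/
lemma diff2 {A : ℝ} (hA : 1 ≤ A) {i : ℕ} (hi : A ^ 2 ≤ i) :
    f A ((i + 1 : ℕ) : ℝ) - f A (i : ℝ) - 2 ≤ f A ((i + 2 : ℕ) : ℝ) - f A ((i + 1 : ℕ) : ℝ) := by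
  rw [f_sqrt A (Nat.cast_nonneg _), f_sqrt A (Nat.cast_nonneg _), f_sqrt A (Nat.cast_nonneg _)]
  set a := √(i : ℝ) with ha
  set b := √((i + 1 : ℕ) : ℝ) with hb
  set c := √((i + 2 : ℕ) : ℝ) with hc
  have ha0 : 0 ≤ a := Real.sqrt_nonneg _
  have hb0 : 0 < b := Real.sqrt_pos.2 (by positivity)
  have hc0 : 0 < c := Real.sqrt_pos.2 (by positivity)
  have ha2 : a ^ 2 = i := Real.sq_sqrt (Nat.cast_nonneg _)
  have hb2 : b ^ 2 = i + 1 := by
    rw [hb, Real.sq_sqrt (Nat.cast_nonneg _)]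
    push_cast
    ring
  have hc2 : c ^ 2 = i + 2 := by
    rw [hc, Real.sq_sqrt (Nat.cast_nonneg _)]
    push_cast
    ring
  have hab : b ^ 2 = a ^ 2 + 1 := by rw [ha2, hb2]
  have hbc : c ^ 2 = b ^ 2 + 1 := by rw [hc2, hb2]; ring
  have h1 := cube_diff ha0 hb0 hc0 hab hbc
  have hAa : A ≤ a := by
    rw [ha]
    exact Real.le_sqrt_of_sq_le hi
  have hac : a ≤ c := by nlinarith
  have h2 : A * ((c ^ 3 - b ^ 3) - (b ^ 3 - a ^ 3)) ≤ 1 := by
    calc A * ((c ^ 3 - b ^ 3) - (b ^ 3 - a ^ 3)) ≤ A * (c - a) :=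
          mul_le_mul_of_nonneg_left h1 (by linarith)
      _ ≤ a * (c - a) := mul_le_mul_of_nonneg_right hAa (by linarith)
      _ ≤ 1 := by nlinarith
  have h4 : c ^ 4 = (i + 2) ^ 2 := by rw [show (4 : ℕ) = 2 * 2 by norm_num, pow_mul, hc2]
  have h5 : b ^ 4 = (i + 1) ^ 2 := by rw [show (4 : ℕ) = 2 * 2 by norm_num, pow_mul, hb2]
  have h6 : a ^ 4 = (i : ℝ) ^ 2 := by rw [show (4 : ℕ) = 2 * 2 by norm_num, pow_mul, ha2]
  nlinarith

lemma f_nonneg {A : ℝ} {x : ℝ} (hx : 0 ≤ x) (h : A ≤ √x) : 0 ≤ f A x := by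
  rw [f_sqrt A hx]
  have h0 := Real.sqrt_nonneg x
  have : √x ^ 4 - A * √x ^ 3 = √x ^ 3 * (√x - A) := by ring
  rw [this]
  exact mul_nonneg (by positivity) (by linarith)

lemma f_mono {A : ℝ} {x y : ℝ} (hx : 0 ≤ x) (hxy : x ≤ y) (hy : A ≤ √y) : f A x ≤ f A y := by
  have hy0 : 0 ≤ y := hx.trans hxy
  by_cases h : A ≤ √x
  · rw [f_sqrt A hx, f_sqrt A hy0]
    have h0 := Real.sqrt_nonneg x
    have h1 : √x ≤ √y := Real.sqrt_le_sqrt hxy
    have e1 : √x ^ 4 - A * √x ^ 3 = √x ^ 3 * (√x - A) := by ring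
    have e2 : √y ^ 4 - A * √y ^ 3 = √y ^ 3 * (√y - A) := by ring
    rw [e1, e2]
    exact mul_le_mul (pow_le_pow_left₀ h0 h1 3) (by linarith) (by linarith) (by positivity)
  · push Not at h
    refine le_trans ?_ (f_nonneg hy0 hy)
    rw [f_sqrt A hx]
    have h0 := Real.sqrt_nonneg x
    have : √x ^ 4 - A * √x ^ 3 = √x ^ 3 * (√x - A) := by ring
    rw [this]
    exact mul_nonpos_of_nonneg_of_nonpos (by positivity) (by linarith)

lemma f_le_sq {A : ℝ} (hA : 1 ≤ A) {x : ℝ} (hx : 0 ≤ x) : f A x ≤ x ^ 2 := by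
  unfold f
  have : 0 ≤ A * x ^ (3 / 2 : ℝ) := mul_nonneg (by linarith) (Real.rpow_nonneg hx _)
  linarith

/-! ### sums of almost increasing sequences -/

/-- partial sums -/
noncomputable def G (d : ℕ → ℝ) (n : ℕ) : ℝ := ∑ i ∈ Finset.range n, d i

lemma G_succ (d : ℕ → ℝ) (n : ℕ) : G d (n + 1) = G d n + d n := Finset.sum_range_succ _ _

lemma semi_add {d : ℕ → ℝ} (hd : ∀ i, d i - 2 ≤ d (i + 1)) (x k : ℕ) :
    d x - 2 * k ≤ d (x + k) := by
  induction k with
  | zero => simp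
  | succ k ih =>
    have := hd (x + k)
    rw [← add_assoc]
    push_cast
    linarith

lemma semi_up {d : ℕ → ℝ} (hd : ∀ i, d i - 2 ≤ d (i + 1)) (x k : ℕ) :
    G d x + d x * k - k ^ 2 ≤ G d (x + k) := by
  induction k with
  | zero => simp
  | succ k ih =>
    rw [← add_assoc, G_succ]
    have := semi_add hd x k
    push_cast
    nlinarith

lemma semi_down {d : ℕ → ℝ} (hd : ∀ i, d i - 2 ≤ d (i + 1)) (y k : ℕ) :
    G d (y + k) ≤ G d y + d (y + k) * k + k * (k + 1) := by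
  induction k with
  | zero => simp
  | succ k ih =>
    rw [← add_assoc, G_succ]
    have h1 := hd (y + k)
    have h2 : (d (y + k) - 2) * (k + 1) ≤ d (y + k + 1) * (k + 1) :=
      mul_le_mul_of_nonneg_right h1 (by positivity)
    push_cast
    nlinarith

lemma semi {d : ℕ → ℝ} (hd : ∀ i, d i - 2 ≤ d (i + 1)) (x y : ℕ) :
    G d x + d x * ((y : ℝ) - x) - 2 * ((y : ℝ) - x) ^ 2 ≤ G d y := by
  rcases le_total x y with h | h
  · obtain ⟨k, rfl⟩ := Nat.exists_eq_add_of_le h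
    have := semi_up hd x k
    have e : (((x + k : ℕ) : ℝ) - x) = k := by push_cast; ring
    rw [e]
    nlinarith [sq_nonneg (k : ℝ)]
  · obtain ⟨k, rfl⟩ := Nat.exists_eq_add_of_le h
    have h1 := semi_down hd y k
    have e : ((y : ℝ) - ((y + k : ℕ) : ℝ)) = -k := by push_cast; ring
    rw [e]
    have h2 : (k : ℝ) * (k + 1) ≤ 2 * k ^ 2 := by
      rcases Nat.eq_zero_or_pos k with hk | hk
      · simp [hk]
      · have : (1 : ℝ) ≤ k := by exact_mod_cast hk
        nlinarith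
    nlinarith

/-! ### the test function -/

/-- increments of the test function -/
noncomputable def ds (A : ℝ) (w n i : ℕ) : ℝ :=
  if i < w then 0 else if i ≤ n then f A ((i + 1 : ℕ) : ℝ) - f A (i : ℝ)
  else max 0 (f A ((n + 1 : ℕ) : ℝ) - f A (n : ℝ) - 2 * ((i : ℝ) - n))

lemma ds_lt (A : ℝ) {w n i : ℕ} (h : i < w) : ds A w n i = 0 := by
  unfold ds
  rw [if_pos h]

lemma ds_mid (A : ℝ) {w n i : ℕ} (h : w ≤ i) (h' : i ≤ n) :
    ds A w n i = f A ((i + 1 : ℕ) : ℝ) - f A (i : ℝ) := by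
  unfold ds
  rw [if_neg (by omega), if_pos h']

lemma ds_hi (A : ℝ) {w n i : ℕ} (h : w ≤ n) (h' : n < i) :
    ds A w n i = max 0 (f A ((n + 1 : ℕ) : ℝ) - f A (n : ℝ) - 2 * ((i : ℝ) - n)) := by
  unfold ds
  rw [if_neg (by omega), if_neg (by omega)]

section

variable {A : ℝ} (hA : 1 ≤ A) {w n : ℕ} (hw : A ^ 2 ≤ w) (hwn : w ≤ n)

include hA hw hwn

lemma ds_nonneg (i : ℕ) : 0 ≤ ds A w n i := by
  rcases Nat.lt_or_ge i w with h1 | h1
  · rw [ds_lt A h1]
  · rcases Nat.lt_or_ge n i with h2 | h2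
    · rw [ds_hi A hwn h2]
      exact le_max_left _ _
    · rw [ds_mid A h1 h2]
      exact (diff_bounds hA (hw.trans (by exact_mod_cast h1))).1

lemma ds_le (i : ℕ) : ds A w n i ≤ 2 * (n + 1) := by
  rcases Nat.lt_or_ge i w with h1 | h1
  · rw [ds_lt A h1]
    positivity
  · rcases Nat.lt_or_ge n i with h2 | h2
    · rw [ds_hi A hwn h2]
      have := (diff_bounds hA (hw.trans (by exact_mod_cast hwn : (w : ℝ) ≤ n))).2
      have h3 : (n : ℝ) < i := by exact_mod_cast h2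
      refine max_le (by positivity) ?_
      linarith
    · rw [ds_mid A h1 h2]
      have := (diff_bounds hA (hw.trans (by exact_mod_cast h1 : (w : ℝ) ≤ i))).2
      have h3 : (i : ℝ) ≤ n := by exact_mod_cast h2
      linarith

lemma ds_zero {i : ℕ} (hi : 2 * (n + 1) ≤ i) : ds A w n i = 0 := by
  rw [ds_hi A hwn (by omega)]
  apply max_eq_left
  have := (diff_bounds hA (hw.trans (by exact_mod_cast hwn : (w : ℝ) ≤ n))).2
  have h3 : 2 * ((n : ℝ) + 1) ≤ i := by exact_mod_cast hi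
  have h4 : (0 : ℝ) ≤ n := Nat.cast_nonneg _
  linarith

lemma ds_step (i : ℕ) : ds A w n i - 2 ≤ ds A w n (i + 1) := by
  rcases Nat.lt_or_ge i w with h0 | h0
  · have h1 := ds_nonneg hA hw hwn (i + 1)
    rw [ds_lt A h0]
    linarith
  · rcases Nat.lt_or_ge n (i + 1) with h1 | h1
    · rcases Nat.lt_or_ge n i with h2 | h2
      · rw [ds_hi A hwn h1, ds_hi A hwn h2]
        have e : (f A ((n + 1 : ℕ) : ℝ) - f A (n : ℝ) - 2 * (((i + 1 : ℕ) : ℝ) - n)) =
            (f A ((n + 1 : ℕ) : ℝ) - f A (n : ℝ) - 2 * ((i : ℝ) - n)) - 2 := by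
          push_cast
          ring
        rw [e]
        rcases le_total 0 (f A ((n + 1 : ℕ) : ℝ) - f A (n : ℝ) - 2 * ((i : ℝ) - n)) with h | h
        · rw [max_eq_right h]
          exact le_max_right _ _
        · rw [max_eq_left h]
          have := le_max_left 0 ((f A ((n + 1 : ℕ) : ℝ) - f A (n : ℝ) - 2 * ((i : ℝ) - n)) - 2)
          linarith
      · have h3 : i = n := by omega
        subst h3
        rw [ds_hi A hwn h1, ds_mid A h0 h2]
        refine le_trans ?_ (le_max_right _ _)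
        push_cast
        linarith
    · rw [ds_mid A h0 (by omega), ds_mid A (by omega) h1]
      exact diff2 hA (hw.trans (by exact_mod_cast h0 : (w : ℝ) ≤ i))

lemma G_zero {x : ℕ} (hx : x ≤ w) : G (ds A w n) x = 0 := by
  unfold G
  apply Finset.sum_eq_zero
  intro i hi
  rw [Finset.mem_range] at hi
  exact ds_lt A (by omega)

lemma G_f {x : ℕ} (hx : w ≤ x) (hxn : x ≤ n + 1) :
    G (ds A w n) x = f A (x : ℝ) - f A (w : ℝ) := by
  obtain ⟨k, rfl⟩ := Nat.exists_eq_add_of_le hx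
  induction k with
  | zero =>
    rw [add_zero, G_zero hA hw hwn le_rfl]
    ring
  | succ k ih =>
    rw [← add_assoc, G_succ, ih (by omega) (by omega), ds_mid A (by omega) (by omega)]
    ring

lemma G_mono : Monotone (G (ds A w n)) := by
  apply monotone_nat_of_le_succ
  intro k
  rw [G_succ]
  linarith [ds_nonneg hA hw hwn k]

lemma G_nonneg (x : ℕ) : 0 ≤ G (ds A w n) x := Finset.sum_nonneg fun i _ => ds_nonneg hA hw hwn i

lemma G_const {x : ℕ} (hx : 2 * (n + 1) ≤ x) : G (ds A w n) x = G (ds A w n) (2 * (n + 1)) := by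
  obtain ⟨k, rfl⟩ := Nat.exists_eq_add_of_le hx
  induction k with
  | zero => rfl
  | succ k ih =>
    rw [← add_assoc, G_succ, ih (by omega), ds_zero hA hw hwn (by omega), add_zero]

lemma G_le (x : ℕ) : G (ds A w n) x ≤ (2 * (n + 1)) ^ 2 := by
  have h1 : G (ds A w n) x ≤ G (ds A w n) (2 * (n + 1)) := by
    rcases le_total x (2 * (n + 1)) with h | h
    · exact G_mono hA hw hwn h
    · exact (G_const hA hw hwn h).le
  refine h1.trans ?_
  unfold G
  calc ∑ i ∈ Finset.range (2 * (n + 1)), ds A w n i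
      ≤ ∑ i ∈ Finset.range (2 * (n + 1)), (2 * ((n : ℝ) + 1)) :=
        Finset.sum_le_sum fun i _ => ds_le hA hw hwn i
    _ = (2 * ((n : ℝ) + 1)) ^ 2 := by
        rw [Finset.sum_const, Finset.card_range, nsmul_eq_mul]
        push_cast
        ring

/-- comparison with `f` -/
lemma G_ge_f (x : ℕ) : f A (x : ℝ) - f A (w : ℝ) - (if n + 1 < x then (x : ℝ) ^ 2 else 0) ≤
    G (ds A w n) x := by
  have hAw : A ≤ √(w : ℝ) := Real.le_sqrt_of_sq_le hw
  have hx0 : (0 : ℝ) ≤ x := Nat.cast_nonneg _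
  split_ifs with h
  · have h1 := f_le_sq hA hx0
    have h2 := f_nonneg (Nat.cast_nonneg w) hAw
    have h3 := G_nonneg hA hw hwn x
    linarith
  · rcases le_total w x with h1 | h1
    · rw [G_f hA hw hwn h1 (by omega)]
      linarith
    · have h2 := f_mono hx0 (by exact_mod_cast h1 : (x : ℝ) ≤ w) hAw
      have h3 := G_nonneg hA hw hwn x
      linarith

end

end TestAux

open TestAux

theorem test : StmMeas → StmMix → StmMean → StmMom → StmTail → StmLyap → StmTest := by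
  intro hMeas hMix hMean hMom hTail hLyap lam hlam hpos hdel
  obtain ⟨-, -, -, hUm, -⟩ := hMeas
  obtain ⟨-, -, hLL, -⟩ := hMix lam hlam hpos
  obtain ⟨-, ⟨C₁, hC₁, hC₁m⟩, -⟩ := hMom lam hlam hpos hdel
  obtain ⟨K₀, hK₀⟩ := hTail
  obtain ⟨A, hA, w₀, hw₀, hf⟩ := hLyap lam hlam hpos hdel
  have hmean := hMean lam hlam hpos
  -- first and second moments
  have hI1 : ∀ w : ℕ, Integrable (fun s => ((U (w + 1) s : ℝ) - w)) (LL lam) := fun w =>
    (hmean (w + 1)).1.sub (integrable_const _)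
  have hI2 : ∀ w : ℕ, Integrable (fun s => ((U (w + 1) s : ℝ) - w) ^ 2) (LL lam) := by
    intro w
    have h1 : (fun s => ((U (w + 1) s : ℝ) - w) ^ 2) =
        fun s => (U (w + 1) s : ℝ) ^ 2 - 2 * w * (U (w + 1) s : ℝ) + (w : ℝ) ^ 2 := by
      funext s
      ring
    rw [h1]
    exact (((hmean (w + 1)).2.1).sub ((hmean (w + 1)).1.const_mul _)).add (integrable_const _)
  have hdm : ∀ m : ℕ, 0 ≤ (dm lam m).toReal ∧ (dm lam m).toReal ≤ 2 := by
    intro m
    refine ⟨ENNReal.toReal_nonneg, ?_⟩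
    have h1 : dm lam m ≤ 2 := (hmean m).2.2.1.trans hdel
    have h2 := ENNReal.toReal_mono (by norm_num : (2 : ℝ≥0∞) ≠ ⊤) h1
    simpa using h2
  have hE1 : ∀ w : ℕ, -1 ≤ ∫ s, ((U (w + 1) s : ℝ) - w) ∂(LL lam) ∧
      ∫ s, ((U (w + 1) s : ℝ) - w) ∂(LL lam) ≤ 1 := by
    intro w
    rw [integral_sub (hmean (w + 1)).1 (integrable_const _), (hmean (w + 1)).2.2.2.2]
    simp only [integral_const, probReal_univ, one_smul]
    have := hdm (w + 1)
    push_cast
    constructor <;> linarith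
  have hE2 : ∀ w : ℕ, ∫ s, ((U (w + 1) s : ℝ) - w) ^ 2 ∂(LL lam) ≤ (C₁ + 1) * (w + 1) := by
    intro w
    have h1 : (fun s => ((U (w + 1) s : ℝ) - w) ^ 2) =
        fun s => ((U (w + 1) s : ℝ) - ((w + 1 : ℕ) : ℝ)) ^ 2 +
          (2 * ((U (w + 1) s : ℝ) - w) - 1) := by
      funext s
      push_cast
      ring
    have h2 : Integrable (fun s => ((U (w + 1) s : ℝ) - ((w + 1 : ℕ) : ℝ)) ^ 2) (LL lam) := by
      have h3 : (fun s => ((U (w + 1) s : ℝ) - ((w + 1 : ℕ) : ℝ)) ^ 2) =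
        fun s => ((U (w + 1) s : ℝ) - w) ^ 2 - (2 * ((U (w + 1) s : ℝ) - w) - 1) := by
        funext s
        push_cast
        ring
      rw [h3]
      exact (hI2 w).sub (((hI1 w).const_mul 2).sub (integrable_const _))
    have h6 : Integrable (fun s => 2 * ((U (w + 1) s : ℝ) - w)) (LL lam) := (hI1 w).const_mul 2
    have h7 : Integrable (fun s => 2 * ((U (w + 1) s : ℝ) - w) - 1) (LL lam) :=
      h6.sub (integrable_const _)
    rw [h1, integral_add h2 h7, integral_sub h6 (integrable_const _), integral_const_mul]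
    simp only [integral_const, probReal_univ, one_smul]
    have h3 := hC₁m (w + 1)
    have h4 := (hE1 w).2
    push_cast at h3 ⊢
    have h5 : (0 : ℝ) ≤ w := Nat.cast_nonneg _
    nlinarith
  refine ⟨256 + 66 * (C₁ + 1), by linarith, w₀, max w₀ (max K₀ 1), le_max_left _ _,
    (le_max_right _ _).trans' (le_max_right _ _), ?_⟩
  intro K hK
  have hKw : w₀ ≤ K := (le_max_left _ _).trans hK
  have hKK : K₀ ≤ K := ((le_max_left _ _).trans (le_max_right _ _)).trans hK
  have hK1 : 1 ≤ K := ((le_max_right _ _).trans (le_max_right _ _)).trans hK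
  have hK1' : (1 : ℝ) ≤ K := by exact_mod_cast hK1
  set n : ℕ := 4 * K + 3 with hn
  have hwn : w₀ ≤ n := by omega
  have hnr : (n : ℝ) + 1 = 4 * (K + 1) := by rw [hn]; push_cast; ring
  set g : ℕ → ℝ := G (ds A w₀ n) with hg
  have hg0 : ∀ x, 0 ≤ g x := G_nonneg hA hw₀ hwn
  have hgle : ∀ x, g x ≤ (2 * ((n : ℝ) + 1)) ^ 2 := G_le hA hw₀ hwn
  have hgI : ∀ w : ℕ, Integrable (fun s => g (U (w + 1) s)) (LL lam) := by
    intro w
    refine Integrable.of_bound (C := (2 * ((n : ℝ) + 1)) ^ 2) ?_ (Eventually.of_forall fun s => ?_)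
    · exact ((measurable_of_countable g).comp (hUm (w + 1))).aestronglyMeasurable
    · rw [Real.norm_eq_abs, abs_of_nonneg (hg0 _)]
      exact hgle _
  refine ⟨g, fun x => ⟨hg0 x, ?_⟩, ?_, ?_, ?_⟩
  · refine (hgle x).trans ?_
    rw [hnr]
    nlinarith
  · intro w
    have hw0 : (0 : ℝ) ≤ w := Nat.cast_nonneg _
    by_cases hw : w ≤ 4 * (n + 1)
    · have hwr : (w : ℝ) ≤ 4 * ((n : ℝ) + 1) := by exact_mod_cast hw
      have h1 : ∫ s, (g w + ds A w₀ n w * ((U (w + 1) s : ℝ) - w) -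
          2 * ((U (w + 1) s : ℝ) - w) ^ 2) ∂(LL lam) ≤ ∫ s, g (U (w + 1) s) ∂(LL lam) := by
        refine integral_mono ?_ (hgI w) ?_
        · exact (((integrable_const _).add ((hI1 w).const_mul _)).sub ((hI2 w).const_mul 2))
        · intro s
          exact semi (ds_step hA hw₀ hwn) w (U (w + 1) s)
      have j1 : Integrable (fun s => ds A w₀ n w * ((U (w + 1) s : ℝ) - w)) (LL lam) :=
        (hI1 w).const_mul _
      have j2 : Integrable (fun s => g w + ds A w₀ n w * ((U (w + 1) s : ℝ) - w)) (LL lam) :=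
        (integrable_const _).add j1
      have j3 : Integrable (fun s => 2 * ((U (w + 1) s : ℝ) - w) ^ 2) (LL lam) :=
        (hI2 w).const_mul 2
      rw [integral_sub j2 j3, integral_add (integrable_const _) j1, integral_const_mul,
        integral_const_mul] at h1
      simp only [integral_const, probReal_univ, one_smul] at h1
      have h2 := ds_nonneg hA hw₀ hwn w
      have h3 := ds_le hA hw₀ hwn w
      have h4 := (hE1 w).1
      have h5 := hE2 w
      have h6 : -(2 * ((n : ℝ) + 1)) ≤ ds A w₀ n w * ∫ s, ((U (w + 1) s : ℝ) - w) ∂(LL lam) := by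
        nlinarith
      have h7 : (C₁ + 1) * ((w : ℝ) + 1) ≤ (C₁ + 1) * (33 * K) := by
        refine mul_le_mul_of_nonneg_left ?_ (by linarith)
        rw [hnr] at hwr
        nlinarith
      rw [hnr] at h6
      nlinarith
    · push Not at hw
      have hwr : 4 * ((n : ℝ) + 1) ≤ w := by exact_mod_cast hw.le
      have hn0 : (0 : ℝ) < (n : ℝ) + 1 := by positivity
      have hwpos : (0 : ℝ) < w := by linarith
      have hgw : g w = g (2 * (n + 1)) := G_const hA hw₀ hwn (by omega)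
      have hpt : ∀ s : ℕ → Bool, g w - g w * (4 / (w : ℝ) ^ 2) * ((U (w + 1) s : ℝ) - w) ^ 2 ≤
          g (U (w + 1) s) := by
        intro s
        by_cases h : 2 * (n + 1) ≤ U (w + 1) s
        · have h1 : g (U (w + 1) s) = g w := by rw [hgw]; exact G_const hA hw₀ hwn h
          rw [h1]
          have : 0 ≤ g w * (4 / (w : ℝ) ^ 2) * ((U (w + 1) s : ℝ) - w) ^ 2 :=
            mul_nonneg (mul_nonneg (hg0 _) (by positivity)) (sq_nonneg _)
          linarith
        · push Not at h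
          have h1 : (U (w + 1) s : ℝ) ≤ 2 * ((n : ℝ) + 1) := by exact_mod_cast h.le
          have h2 : (w : ℝ) / 2 ≤ w - U (w + 1) s := by linarith
          have h3 : ((w : ℝ) / 2) ^ 2 ≤ ((U (w + 1) s : ℝ) - w) ^ 2 := by
            have : ((U (w + 1) s : ℝ) - w) ^ 2 = (w - U (w + 1) s) ^ 2 := by ring
            rw [this]
            exact pow_le_pow_left₀ (by positivity) h2 2
          have h4 : 1 ≤ 4 / (w : ℝ) ^ 2 * ((U (w + 1) s : ℝ) - w) ^ 2 := by
            calc (1 : ℝ) = 4 / (w : ℝ) ^ 2 * ((w : ℝ) / 2) ^ 2 := by field_simp; norm_num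
              _ ≤ _ := mul_le_mul_of_nonneg_left h3 (by positivity)
          have h5 := hg0 w
          have h6 := hg0 (U (w + 1) s)
          nlinarith
      have h1 : ∫ s, (g w - g w * (4 / (w : ℝ) ^ 2) * ((U (w + 1) s : ℝ) - w) ^ 2) ∂(LL lam) ≤
          ∫ s, g (U (w + 1) s) ∂(LL lam) :=
        integral_mono ((integrable_const _).sub ((hI2 w).const_mul _)) (hgI w) hpt
      have j1 : Integrable (fun s => g w * (4 / (w : ℝ) ^ 2) * ((U (w + 1) s : ℝ) - w) ^ 2)
          (LL lam) := (hI2 w).const_mul _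
      rw [integral_sub (integrable_const _) j1, integral_const_mul] at h1
      simp only [integral_const, probReal_univ, one_smul] at h1
      have h2 := hE2 w
      have h3 : g w * (4 / (w : ℝ) ^ 2) * ∫ s, ((U (w + 1) s : ℝ) - w) ^ 2 ∂(LL lam) ≤
          (2 * ((n : ℝ) + 1)) ^ 2 * (4 / (w : ℝ) ^ 2) * ((C₁ + 1) * (w + 1)) := by
        apply mul_le_mul _ h2 (integral_nonneg fun s => sq_nonneg _) (by positivity)
        exact mul_le_mul_of_nonneg_right (hgle w) (by positivity)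
      have h4 : (2 * ((n : ℝ) + 1)) ^ 2 * (4 / (w : ℝ) ^ 2) * ((C₁ + 1) * (w + 1)) ≤
          8 * (C₁ + 1) * ((n : ℝ) + 1) := by
        have h5 : (w : ℝ) + 1 ≤ 2 * w := by
          have : (1 : ℝ) ≤ n + 1 := by
            have : (0 : ℝ) ≤ n := Nat.cast_nonneg _
            linarith
          linarith
        calc (2 * ((n : ℝ) + 1)) ^ 2 * (4 / (w : ℝ) ^ 2) * ((C₁ + 1) * (w + 1))
            ≤ (2 * ((n : ℝ) + 1)) ^ 2 * (4 / (w : ℝ) ^ 2) * ((C₁ + 1) * (2 * w)) := by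
              gcongr
          _ = 32 * (C₁ + 1) * ((n : ℝ) + 1) ^ 2 / w := by
              field_simp
              ring
          _ ≤ 8 * (C₁ + 1) * ((n : ℝ) + 1) := by
              rw [div_le_iff₀ hwpos]
              have h6 : 8 * (C₁ + 1) * ((n : ℝ) + 1) * (4 * ((n : ℝ) + 1)) ≤
                  8 * (C₁ + 1) * ((n : ℝ) + 1) * w :=
                mul_le_mul_of_nonneg_left hwr (by positivity)
              nlinarith
      rw [hnr] at h4 h3
      have h7 : 8 * (C₁ + 1) * (4 * ((K : ℝ) + 1)) ≤ 8 * (C₁ + 1) * (4 * (2 * K)) := by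
        refine mul_le_mul_of_nonneg_left ?_ (by linarith)
        linarith
      have h8 : 0 ≤ C₁ * K := mul_nonneg hC₁ (by linarith)
      nlinarith
  · intro w hw
    have : g w = 0 := G_zero hA hw₀ hwn hw.le
    rw [this]
    exact integral_nonneg fun s => hg0 _
  · intro w hw hwK
    have hgw : g w = f A (w : ℝ) - f A (w₀ : ℝ) := G_f hA hw₀ hwn hw (by omega)
    obtain ⟨hfi, hfl⟩ := hf w hw
    have htail := hK₀ lam hlam hpos (n + 1) (by omega) (w + 1) (by omega)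
    have hTI : Integrable (fun s => if n + 1 < U (w + 1) s then (U (w + 1) s : ℝ) ^ 2 else 0)
        (LL lam) := by
      refine Integrable.mono' (hmean (w + 1)).2.1 ?_ (Eventually.of_forall fun s => ?_)
      · exact ((measurable_of_countable (fun x : ℕ => if n + 1 < x then (x : ℝ) ^ 2 else 0)).comp
          (hUm (w + 1))).aestronglyMeasurable
      · split_ifs
        · rw [Real.norm_eq_abs, abs_of_nonneg (sq_nonneg _)]
        · rw [norm_zero]
          positivity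
    have h1 : ∫ s, (f A (U (w + 1) s) - f A (w₀ : ℝ) -
        (if n + 1 < U (w + 1) s then (U (w + 1) s : ℝ) ^ 2 else 0)) ∂(LL lam) ≤
        ∫ s, g (U (w + 1) s) ∂(LL lam) :=
      integral_mono ((hfi.sub (integrable_const _)).sub hTI) (hgI w)
        (fun s => G_ge_f hA hw₀ hwn (U (w + 1) s))
    have j1 : Integrable (fun s => f A (U (w + 1) s) - f A (w₀ : ℝ)) (LL lam) :=
      hfi.sub (integrable_const _)
    rw [integral_sub j1 hTI, integral_sub hfi (integrable_const _)] at h1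
    simp only [integral_const, probReal_univ, one_smul] at h1
    rw [hgw]
    linarith

end Pool.Agent.N276.BE
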