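import Pool.Agent.N276.BE.Stm

/-! Project BE (helper276), part 26 (helper78): the speed depends only on the law. -/

set_option autoImplicit false

open MeasureTheory ProbabilityTheory Filter Topology Set
open scoped ENNReal

namespace Pool.Agent.N276.BE

open Pool.Agent.N276.ER

namespace TransferAux

universe u v

theorem meas_set (v : ℝ) :
    MeasurableSet {y : ℕ → ℤ | Tendsto (fun n : ℕ => (y n : ℝ) / n) atTop (𝓝 v)} := by
  refine measurableSet_tendsto _ fun n => ?_
  exact (measurable_from_top.comp (measurable_pi_apply n)).div_const _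

theorem law_eq {lam : Measure (ℕ → ℝ)} {Ω : Type u} [MeasurableSpace Ω] {P : Measure Ω}
    {X : ℕ → Ω → ℤ} {Ω' : Type v} [MeasurableSpace Ω'] {P' : Measure Ω'} {X' : ℕ → Ω' → ℤ}
    (h : IsERWIID lam P X) (h' : IsERWIID lam P' X') :
    P.map (fun ω k => X k ω) = P'.map (fun ω k => X' k ω) := by
  have := h.prob
  have := h'.prob
  have hm : Measurable (fun ω k => X k ω) := measurable_pi_iff.2 h.meas
  have hm' : Measurable (fun ω k => X' k ω) := measurable_pi_iff.2 h'.meas
  have hP : IsProbabilityMeasure (P.map (fun ω k => X k ω)) :=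
    Measure.isProbabilityMeasure_map hm.aemeasurable
  have hP' : IsProbabilityMeasure (P'.map (fun ω k => X' k ω)) :=
    Measure.isProbabilityMeasure_map hm'.aemeasurable
  set μ := P.map (fun ω k => X k ω) with hμ
  set μ' := P'.map (fun ω k => X' k ω) with hμ'
  have hfam : IsProjectiveMeasureFamily (α := fun _ : ℕ => ℤ)
      (fun I : Finset ℕ => μ.map (I.restrict (π := fun _ : ℕ => ℤ))) := by
    intro I J hJI
    rw [Measure.map_map (by fun_prop) (by fun_prop)]
    rfl
  have h1 : IsProjectiveLimit μ (fun I : Finset ℕ => μ.map (I.restrict (π := fun _ : ℕ => ℤ))) :=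
    fun I => rfl
  have h2 : IsProjectiveLimit μ' (fun I : Finset ℕ => μ.map (I.restrict (π := fun _ : ℕ => ℤ))) := by
    rw [isProjectiveLimit_nat_iff hfam]
    intro n
    refine Measure.ext_of_singleton fun z => ?_
    rw [Measure.map_apply (Preorder.measurable_frestrictLe n) (measurableSet_singleton z),
      Measure.map_apply (by fun_prop) (measurableSet_singleton z)]
    have hpre : MeasurableSet ((Preorder.frestrictLe (π := fun _ : ℕ => ℤ) n) ⁻¹' {z}) :=
      Preorder.measurable_frestrictLe n (measurableSet_singleton z)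
    have e : ((Finset.Iic n).restrict (π := fun _ : ℕ => ℤ)) ⁻¹' {z} =
      (Preorder.frestrictLe (π := fun _ : ℕ => ℤ) n) ⁻¹' {z} := rfl
    rw [e, hμ, hμ', Measure.map_apply hm' hpre, Measure.map_apply hm hpre]
    set x : ℕ → ℤ := fun k => if hk : k ≤ n then z ⟨k, Finset.mem_Iic.2 hk⟩ else 0 with hx
    have e1 : ∀ y : ℕ → ℤ, y ∈ (Preorder.frestrictLe (π := fun _ : ℕ => ℤ) n) ⁻¹' {z} ↔
        ∀ k ≤ n, y k = x k := by
      intro y
      constructor
      · intro hy k hk
        have hy' : Preorder.frestrictLe (π := fun _ : ℕ => ℤ) n y = z := hy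
        rw [hx]
        simp only [hk, dite_true]
        rw [← hy']
        rfl
      · intro hy
        show Preorder.frestrictLe (π := fun _ : ℕ => ℤ) n y = z
        funext ⟨k, hk⟩
        have hk' := Finset.mem_Iic.1 hk
        have := hy k hk'
        rw [hx] at this
        simp only [hk', dite_true] at this
        exact this
    have e2 : (fun ω k => X k ω) ⁻¹' ((Preorder.frestrictLe (π := fun _ : ℕ => ℤ) n) ⁻¹' {z}) =
        {ω | ∀ k ≤ n, X k ω = x k} := by
      ext ω
      exact e1 _
    have e3 : (fun ω k => X' k ω) ⁻¹' ((Preorder.frestrictLe (π := fun _ : ℕ => ℤ) n) ⁻¹' {z}) =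
        {ω | ∀ k ≤ n, X' k ω = x k} := by
      ext ω
      exact e1 _
    rw [e2, e3]
    exact (h'.law n x).trans (h.law n x).symm
  have hfin : ∀ I : Finset ℕ, IsFiniteMeasure (μ.map (I.restrict (π := fun _ : ℕ => ℤ))) :=
    fun I => inferInstance
  exact h1.unique h2

end TransferAux

open TransferAux in
theorem transfer.{u} : StmTransfer.{u} := by
  intro lam v Ω _ P X Ω' _ P' X' h h' hT
  have hm : Measurable (fun ω k => X k ω) := measurable_pi_iff.2 h.meas
  have hm' : Measurable (fun ω k => X' k ω) := measurable_pi_iff.2 h'.meas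
  have h1 : ∀ᵐ y ∂(P.map (fun ω k => X k ω)),
      Tendsto (fun n : ℕ => (y n : ℝ) / n) atTop (𝓝 v) :=
    (ae_map_iff hm.aemeasurable (meas_set v)).2 hT
  rw [law_eq h h'] at h1
  exact (ae_map_iff hm'.aemeasurable (meas_set v)).1 h1

end Pool.Agent.N276.BE
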