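import Pool.Agent.N276.BE.Stm
import Pool.Agent.N276.ER.Meas

/-!
# Second moments of the number of steps to the left if `δ > 2`
-/

set_option autoImplicit false

open MeasureTheory ProbabilityTheory Filter Topology Set
open scoped ENNReal

namespace Pool.Agent.N276.BE

open Pool.Agent.N276.ER

namespace UpAux

open Pool.Agent.N276.ER.MeasAux

/-- truncation of a stack -/
noncomputable def tr (M : ℕ) (η : ℕ → ℝ) : ℕ → ℝ := fun i => if i < M then η i else 1 / 2

theorem meas_tr (M : ℕ) : Measurable (tr M) := by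
  refine measurable_pi_lambda _ fun i => ?_
  unfold tr
  by_cases h : i < M
  · simp only [h, if_true]
    exact measurable_pi_apply i
  · simp only [h, if_false]
    exact measurable_const

theorem uni_prob : IsProbabilityMeasure ((volume : Measure ℝ).restrict (Set.Icc 0 1)) := ⟨by simp⟩

theorem uu_prob : IsProbabilityMeasure UU := by
  have := uni_prob
  infer_instance

theorem bz_prob (lam : Measure (ℕ → ℝ)) (h : IsProbabilityMeasure lam) :
    IsProbabilityMeasure (BZ lam) := by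
  have := uu_prob
  infer_instance

theorem bz_map (lam : Measure (ℕ → ℝ)) (h : IsProbabilityMeasure lam) (M : ℕ) :
    BZ (lam.map (tr M)) = (BZ lam).map (Prod.map (tr M) id) := by
  have := uu_prob
  have h1 := Measure.map_prod_map lam UU (meas_tr M) measurable_id
  rw [Measure.map_id] at h1
  exact h1

theorem fails_le (s : ℕ → Bool) (n : ℕ) : fails s n ≤ n := by
  unfold fails
  exact (Finset.card_filter_le _ _).trans (by simp)

theorem fails_anti {s t : ℕ → Bool} (h : ∀ i, s i = false → t i = false) (n : ℕ) :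
    fails s n ≤ fails t n := by
  unfold fails
  exact Finset.card_le_card (Finset.monotone_filter_right _ fun i _ hi => h i hi)

theorem T_anti {s t : ℕ → Bool} (h : ∀ i, s i = false → t i = false) (m : ℕ)
    (hs : ∃ n, m ≤ fails s n) : T m t ≤ T m s := by
  unfold T
  exact Nat.sInf_le (le_trans (Nat.sInf_mem (s := {n | m ≤ fails s n}) hs) (fails_anti h _))

theorem U_anti {s t : ℕ → Bool} (h : ∀ i, s i = false → t i = false) (m : ℕ)
    (hs : ∃ n, m ≤ fails s n) : U m t ≤ U m s := by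
  unfold U
  exact Nat.sub_le_sub_right (T_anti h m hs) m

theorem le_T {s : ℕ → Bool} {m : ℕ} (hs : ∃ n, m ≤ fails s n) : m ≤ T m s :=
  le_trans (Nat.sInf_mem (s := {n | m ≤ fails s n}) hs) (fails_le s _)

/-- almost surely infinitely many failures -/
theorem ae_fin (hMix : StmMix) (hQ : StmQMom) (hM : StmMeas) (lam : Measure (ℕ → ℝ))
    (h : IsProbabilityMeasure lam) (hp : POS lam) :
    ∀ᵐ z ∂(BZ lam), ∀ m, ∃ n, m ≤ fails (al z) n := by
  obtain ⟨h1, -, -, h2⟩ := hMix lam h hp
  have hB : MeasurableSet {s : ℕ → Bool | ∀ m, ∃ n, m ≤ fails s n} := by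
    have e : {s : ℕ → Bool | ∀ m, ∃ n, m ≤ fails s n} = ⋂ m, ⋃ n, {s | m ≤ fails s n} := by
      ext s
      simp
    rw [e]
    exact MeasurableSet.iInter fun m => MeasurableSet.iUnion fun n => meas_ge m n
  have h3 := h2 (fun _ s => ({s : ℕ → Bool | ∀ m, ∃ n, m ≤ fails s n}ᶜ).indicator 1 s)
    ((measurable_const.indicator hB.compl).comp measurable_snd)
  have h4 : ∫⁻ η, ∫⁻ s, ({s : ℕ → Bool | ∀ m, ∃ n, m ≤ fails s n}ᶜ).indicator 1 s
      ∂(stackLaw (co η)) ∂lam = 0 := by
    rw [lintegral_eq_zero_of_ae_eq_zero]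
    filter_upwards [h1] with η hη
    rw [Pi.zero_apply, lintegral_indicator_one hB.compl]
    exact (hQ.1 (co η) hη).2
  rw [h4] at h3
  rw [ae_iff]
  have hal := hM.2.1
  have e : {z : (ℕ → ℝ) × (ℕ → ℝ) | ¬ ∀ m, ∃ n, m ≤ fails (al z) n} =
      al ⁻¹' {s : ℕ → Bool | ∀ m, ∃ n, m ≤ fails s n}ᶜ := rfl
  rw [e, ← lintegral_indicator_one (hal hB.compl)]
  exact h3

theorem pos_tr {lam : Measure (ℕ → ℝ)} (hp : POS lam) (M : ℕ) : POS (lam.map (tr M)) := by
  unfold POS
  have hms : MeasurableSet {η : ℕ → ℝ | ∀ i, 1 / 2 ≤ η i ∧ η i ≤ 1} := by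
    have e : {η : ℕ → ℝ | ∀ i, 1 / 2 ≤ η i ∧ η i ≤ 1} =
        ⋂ i, {η | 1 / 2 ≤ η i} ∩ {η | η i ≤ 1} := by
      ext η
      simp
    rw [e]
    exact MeasurableSet.iInter fun i =>
      (measurableSet_le measurable_const (measurable_pi_apply i)).inter
        (measurableSet_le (measurable_pi_apply i) measurable_const)
  rw [ae_map_iff (meas_tr M).aemeasurable hms]
  filter_upwards [hp] with η hη i
  unfold tr
  split_ifs
  · exact hη i
  · norm_num

/-- `z.1` is truncated -/
theorem tr_one (lam : Measure (ℕ → ℝ)) (M : ℕ) :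
    ∀ᵐ η ∂(lam.map (tr M)), ∀ i, M ≤ i → η i = 1 / 2 := by
  have hms : MeasurableSet {η : ℕ → ℝ | ∀ i, M ≤ i → η i = 1 / 2} := by
    have e : {η : ℕ → ℝ | ∀ i, M ≤ i → η i = 1 / 2} = ⋂ i, {η | M ≤ i → η i = 1 / 2} := by
      ext η
      simp
    rw [e]
    refine MeasurableSet.iInter fun i => ?_
    by_cases h : M ≤ i
    · simp only [h, true_imp_iff]
      exact measurableSet_eq_fun (measurable_pi_apply i) measurable_const
    · simp [h]
  rw [ae_map_iff (meas_tr M).aemeasurable hms]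
  refine Eventually.of_forall fun η i hi => ?_
  unfold tr
  rw [if_neg (by omega)]

theorem ae_fst {lam : Measure (ℕ → ℝ)} (h : IsProbabilityMeasure lam) {p : (ℕ → ℝ) → Prop}
    (hp : ∀ᵐ η ∂lam, p η) : ∀ᵐ z ∂(BZ lam), p z.1 := by
  have := uu_prob
  exact Measure.quasiMeasurePreserving_fst.ae hp

theorem dd_eq {η : ℕ → ℝ} {M t : ℕ} (h : ∀ i, M ≤ i → η i = 1 / 2) (ht : M ≤ t) :
    dd (co η) t = ∑ i ∈ Finset.range M, (2 * η i - 1) := by
  unfold dd co
  rw [← Finset.sum_subset (Finset.range_mono ht)]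
  · refine Finset.sum_congr rfl fun i _ => ?_
    ring
  · intro i _ hi
    rw [h i (by simpa using hi)]
    ring

theorem dd_le {η : ℕ → ℝ} {M : ℕ} (h : ∀ i, M ≤ i → η i = 1 / 2)
    (hp : ∀ i, 1 / 2 ≤ η i ∧ η i ≤ 1) (t : ℕ) : 0 ≤ dd (co η) t ∧ dd (co η) t ≤ M := by
  unfold dd co
  constructor
  · refine Finset.sum_nonneg fun i _ => ?_
    linarith [(hp i).1]
  · calc ∑ i ∈ Finset.range t, (1 - 2 * (1 - η i))
        ≤ ∑ i ∈ Finset.range t, (if i < M then (1 : ℝ) else 0) := by
          refine Finset.sum_le_sum fun i _ => ?_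
          split_ifs with hi
          · linarith [(hp i).2]
          · rw [h i (by omega)]
            norm_num
      _ = (((Finset.range t).filter fun i => i < M).card : ℝ) := by
          rw [Finset.sum_ite, Finset.sum_const_zero, add_zero, Finset.sum_const, nsmul_eq_mul,
            mul_one]
      _ ≤ M := by
          have : ((Finset.range t).filter fun i => i < M).card ≤ M := by
            calc _ ≤ (Finset.range M).card := Finset.card_le_card fun i hi => by
                    simp only [Finset.mem_filter] at hi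
                    simpa using hi.2
              _ = M := Finset.card_range M
          exact_mod_cast this

/-- the mean drift of the truncated stack -/
theorem dm_eq (hMix : StmMix) (hQ : StmQMom) (hM : StmMeas) (lam : Measure (ℕ → ℝ))
    (h : IsProbabilityMeasure lam) (hp : POS lam) {M m : ℕ} (hm : M ≤ m) :
    dm (lam.map (tr M)) m =
      ∑ i ∈ Finset.range M, ∫⁻ η, ENNReal.ofReal (2 * η i - 1) ∂lam := by
  have := uu_prob
  have h' : IsProbabilityMeasure (lam.map (tr M)) :=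
    Measure.isProbabilityMeasure_map (meas_tr M).aemeasurable
  have hp' := pos_tr hp M
  unfold dm
  have e1 : ∫⁻ z, ENNReal.ofReal (dd (co z.1) (T m (al z))) ∂(BZ (lam.map (tr M))) =
      ∫⁻ z, ∑ i ∈ Finset.range M, ENNReal.ofReal (2 * z.1 i - 1) ∂(BZ (lam.map (tr M))) := by
    refine lintegral_congr_ae ?_
    filter_upwards [ae_fst h' (tr_one lam M), ae_fst h' hp', ae_fin hMix hQ hM _ h' hp']
      with z h1 h2 h3
    rw [dd_eq h1 (hm.trans (le_T (h3 m))), ENNReal.ofReal_sum_of_nonneg]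
    intro i _
    linarith [(h2 i).1]
  rw [e1, lintegral_finsetSum]
  · refine Finset.sum_congr rfl fun i hi => ?_
    have hm1 : Measurable fun η : ℕ → ℝ => ENNReal.ofReal (2 * η i - 1) :=
      (((measurable_pi_apply i).const_mul 2).sub_const 1).ennreal_ofReal
    have e2 : ∫⁻ z, ENNReal.ofReal (2 * z.1 i - 1) ∂(BZ (lam.map (tr M))) =
        ∫⁻ η, ENNReal.ofReal (2 * η i - 1) ∂(lam.map (tr M)) :=
      (measurePreserving_fst (μ := lam.map (tr M)) (ν := UU)).lintegral_comp hm1
    rw [e2, lintegral_map hm1 (meas_tr M)]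
    refine lintegral_congr fun η => ?_
    unfold tr
    rw [if_pos (by simpa using hi)]
  · intro i _
    exact ((((measurable_pi_apply i).comp measurable_fst).const_mul 2).sub_const 1).ennreal_ofReal

/-- comparison with the truncated stack -/
theorem compare (hMix : StmMix) (hQ : StmQMom) (hM : StmMeas) (hMean : StmMean)
    (lam : Measure (ℕ → ℝ)) (h : IsProbabilityMeasure lam) (hp : POS lam) (M m : ℕ) :
    ∫ s, (U m s : ℝ) ^ 2 ∂(LL lam) ≤ ∫ s, (U m s : ℝ) ^ 2 ∂(LL (lam.map (tr M))) := by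
  have := uu_prob
  have h' : IsProbabilityMeasure (lam.map (tr M)) :=
    Measure.isProbabilityMeasure_map (meas_tr M).aemeasurable
  have hp' := pos_tr hp M
  have hal := hM.2.1
  have hU := hM.2.2.2.1 m
  have hmU : Measurable fun s : ℕ → Bool => (U m s : ℝ) ^ 2 :=
    ((measurable_of_countable (fun n : ℕ => (n : ℝ))).comp hU).pow_const 2
  have hmap : Measurable (Prod.map (tr M) (id : (ℕ → ℝ) → (ℕ → ℝ))) :=
    (meas_tr M).prodMap measurable_id
  have i1 := (hMean lam h hp m).2.1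
  have i2 := (hMean _ h' hp' m).2.1
  unfold LL at i1 i2 ⊢
  rw [integral_map hal.aemeasurable hmU.aestronglyMeasurable,
    integral_map hal.aemeasurable hmU.aestronglyMeasurable]
  rw [integrable_map_measure hmU.aestronglyMeasurable hal.aemeasurable] at i1 i2
  have hfin := ae_fin hMix hQ hM _ h' hp'
  rw [bz_map lam h M] at i2 hfin ⊢
  rw [integrable_map_measure ((hmU.comp hal).aestronglyMeasurable) hmap.aemeasurable] at i2
  have hcomp : Measurable fun z : (ℕ → ℝ) × (ℕ → ℝ) => (U m (al z) : ℝ) ^ 2 := hmU.comp hal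
  rw [integral_map hmap.aemeasurable hcomp.aestronglyMeasurable]
  have hfin2 := ae_of_ae_map hmap.aemeasurable hfin
  refine integral_mono_ae i1 i2 ?_
  filter_upwards [hfin2, ae_fst h hp] with z h1 h2
  show (U m (al z) : ℝ) ^ 2 ≤ (U m (al (Prod.map (tr M) id z)) : ℝ) ^ 2
  have h3 : U m (al z) ≤ U m (al (Prod.map (tr M) id z)) := by
    refine U_anti (fun i hi => ?_) m (h1 m)
    unfold al at hi ⊢
    simp only [decide_eq_false_iff_not, not_le] at hi ⊢
    refine lt_of_lt_of_le hi ?_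
    show tr M z.1 i ≤ z.1 i
    unfold tr
    split_ifs
    · exact le_rfl
    · exact (h2 i).1
  have h4 : (U m (al z) : ℝ) ≤ U m (al (Prod.map (tr M) id z)) := by exact_mod_cast h3
  exact pow_le_pow_left₀ (Nat.cast_nonneg _) h4 2

/-- the bound for the truncated stack -/
theorem bound (hMix : StmMix) (hQ : StmQMom) (hM : StmMeas) (hMean : StmMean) (hM2 : StmM2)
    (lam : Measure (ℕ → ℝ)) (h : IsProbabilityMeasure lam) (hp : POS lam) {M m : ℕ} (hm : M ≤ m)
    {c γ : ℝ} (hγ : 0 < γ)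
    (hc : (∑ i ∈ Finset.range M, ∫⁻ η, ENNReal.ofReal (2 * η i - 1) ∂lam).toReal = c) :
    ∫ s, (U m s : ℝ) ^ 2 ∂(LL (lam.map (tr M))) ≤
      (m : ℝ) ^ 2 - 2 * m * c + (1 + γ) * (2 * m) + (1 + 1 / γ) * (M : ℝ) ^ 2 := by
  have := uu_prob
  have h' : IsProbabilityMeasure (lam.map (tr M)) :=
    Measure.isProbabilityMeasure_map (meas_tr M).aemeasurable
  have hb' := bz_prob _ h'
  have hp' := pos_tr hp M
  have hal := hM.2.1
  have hU := hM.2.2.2.1 m
  have hmU1 : Measurable fun s : ℕ → Bool => (U m s : ℝ) :=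
    (measurable_of_countable (fun n : ℕ => (n : ℝ))).comp hU
  have hmU : Measurable fun s : ℕ → Bool => (U m s : ℝ) ^ 2 := hmU1.pow_const 2
  obtain ⟨j1, j2, -, -, j3⟩ := hMean _ h' hp' m
  rw [dm_eq hMix hQ hM lam h hp hm, hc] at j3
  obtain ⟨-, -, -, k1, k2, -⟩ := hM2 _ h' hp' m
  unfold LL at j1 j2 j3 ⊢
  rw [integral_map hal.aemeasurable hmU.aestronglyMeasurable]
  rw [integral_map hal.aemeasurable hmU1.aestronglyMeasurable] at j3
  rw [integrable_map_measure hmU.aestronglyMeasurable hal.aemeasurable] at j2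
  rw [integrable_map_measure hmU1.aestronglyMeasurable hal.aemeasurable] at j1
  have j1' : Integrable (fun z => (U m (al z) : ℝ)) (BZ (lam.map (tr M))) := j1
  have j2' : Integrable (fun z => (U m (al z) : ℝ) ^ 2) (BZ (lam.map (tr M))) := j2
  have hint : Integrable (fun z : (ℕ → ℝ) × (ℕ → ℝ) => (m : ℝ) ^ 2 + 2 * m * ((U m (al z) : ℝ) - m) +
      ((1 + γ) * ((U m (al z) : ℝ) - m + dd (co z.1) (T m (al z))) ^ 2 +
        (1 + 1 / γ) * (M : ℝ) ^ 2)) (BZ (lam.map (tr M))) :=
    (((integrable_const _).add ((j1'.sub (integrable_const _)).const_mul _))).add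
      ((k1.const_mul _).add (integrable_const _))
  calc ∫ z, (U m (al z) : ℝ) ^ 2 ∂(BZ (lam.map (tr M)))
      ≤ ∫ z, ((m : ℝ) ^ 2 + 2 * m * ((U m (al z) : ℝ) - m) +
          ((1 + γ) * ((U m (al z) : ℝ) - m + dd (co z.1) (T m (al z))) ^ 2 +
            (1 + 1 / γ) * (M : ℝ) ^ 2)) ∂(BZ (lam.map (tr M))) := by
        refine integral_mono_ae j2' hint ?_
        filter_upwards [ae_fst h' (tr_one lam M), ae_fst h' hp'] with z h1 h2
        obtain ⟨d1, d2⟩ := dd_le h1 h2 (T m (al z))
        show (U m (al z) : ℝ) ^ 2 ≤ _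
        generalize dd (co z.1) (T m (al z)) = D at d1 d2
        generalize (U m (al z) : ℝ) = u
        have hD : D ^ 2 ≤ (M : ℝ) ^ 2 := pow_le_pow_left₀ d1 d2 2
        have h5 : 0 ≤ (1 + γ) * (u - m + D) ^ 2 + (1 + 1 / γ) * D ^ 2 - (u - m) ^ 2 := by
          have e : (1 + γ) * (u - m + D) ^ 2 + (1 + 1 / γ) * D ^ 2 - (u - m) ^ 2 =
              (γ * (u - m + D) + D) ^ 2 / γ := by
            field_simp
            ring
          rw [e]
          positivity
        have h6 : (1 + 1 / γ) * D ^ 2 ≤ (1 + 1 / γ) * (M : ℝ) ^ 2 :=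
          mul_le_mul_of_nonneg_left hD (by positivity)
        nlinarith [h5, h6]
    _ = (m : ℝ) ^ 2 + 2 * m * (∫ z, (U m (al z) : ℝ) ∂(BZ (lam.map (tr M))) - m) +
        ((1 + γ) * ∫ z, ((U m (al z) : ℝ) - m + dd (co z.1) (T m (al z))) ^ 2
          ∂(BZ (lam.map (tr M))) + (1 + 1 / γ) * (M : ℝ) ^ 2) := by
        have a1 : Integrable (fun z : (ℕ → ℝ) × (ℕ → ℝ) => 2 * m * ((U m (al z) : ℝ) - m))
            (BZ (lam.map (tr M))) := (j1'.sub (integrable_const _)).const_mul _
        have a2 : Integrable (fun z : (ℕ → ℝ) × (ℕ → ℝ) =>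
            (m : ℝ) ^ 2 + 2 * m * ((U m (al z) : ℝ) - m)) (BZ (lam.map (tr M))) :=
          (integrable_const _).add a1
        have a3 : Integrable (fun z : (ℕ → ℝ) × (ℕ → ℝ) =>
            (1 + γ) * ((U m (al z) : ℝ) - m + dd (co z.1) (T m (al z))) ^ 2)
            (BZ (lam.map (tr M))) := k1.const_mul _
        have a4 : Integrable (fun z : (ℕ → ℝ) × (ℕ → ℝ) =>
            (1 + γ) * ((U m (al z) : ℝ) - m + dd (co z.1) (T m (al z))) ^ 2 +
              (1 + 1 / γ) * (M : ℝ) ^ 2) (BZ (lam.map (tr M))) :=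
          a3.add (integrable_const _)
        rw [integral_add a2 a4, integral_add (integrable_const _) a1,
          integral_add a3 (integrable_const _), integral_const_mul, integral_const_mul,
          integral_sub j1' (integrable_const _)]
        simp
    _ ≤ _ := by
        rw [j3]
        have h7 : (1 + γ) * ∫ z, ((U m (al z) : ℝ) - m + dd (co z.1) (T m (al z))) ^ 2
          ∂(BZ (lam.map (tr M))) ≤ (1 + γ) * (2 * m) :=
          mul_le_mul_of_nonneg_left k2 (by positivity)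
        nlinarith [h7]

end UpAux

open UpAux

/-- **the mean of the number of steps to the left, `δ > 2`** -/
theorem up : StmMeas → StmMix → StmQTail → StmQMom → StmMean → StmM2 → StmUp := by
  intro hM hMix _ hQ hMean hM2 lam h hp hd
  -- the truncation level
  obtain ⟨M, hMM⟩ : ∃ M : ℕ, 2 < ∑ i ∈ Finset.range M, ∫⁻ η, ENNReal.ofReal (2 * η i - 1) ∂lam := by
    have h1 : delta lam = ∑' i, ∫⁻ η, ENNReal.ofReal (2 * η i - 1) ∂lam := by
      unfold delta
      rw [lintegral_tsum]
      intro i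
      exact ((((measurable_pi_apply i)).const_mul 2).sub_const 1).ennreal_ofReal.aemeasurable
    rw [h1, ENNReal.tsum_eq_iSup_nat, lt_iSup_iff] at hd
    exact hd
  obtain ⟨c, hc⟩ : ∃ c, (∑ i ∈ Finset.range M, ∫⁻ η, ENNReal.ofReal (2 * η i - 1) ∂lam).toReal = c :=
    ⟨_, rfl⟩
  have hfin : ∑ i ∈ Finset.range M, ∫⁻ η, ENNReal.ofReal (2 * η i - 1) ∂lam ≠ ⊤ := by
    refine ENNReal.sum_ne_top.2 fun i _ => ?_
    have h2 : ∫⁻ η, ENNReal.ofReal (2 * η i - 1) ∂lam ≤ ∫⁻ _, 1 ∂lam := by
      refine lintegral_mono_ae ?_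
      filter_upwards [hp] with η hη
      rw [← ENNReal.ofReal_one]
      exact ENNReal.ofReal_le_ofReal (by linarith [(hη i).2])
    rw [lintegral_const, measure_univ, mul_one] at h2
    exact (h2.trans_lt ENNReal.one_lt_top).ne
  have hc2 : 2 < c := by
    rw [← hc]
    have h3 := (ENNReal.toReal_lt_toReal (by norm_num) hfin).2 hMM
    simpa using h3
  obtain ⟨e, he⟩ : ∃ e, e = c - 2 := ⟨_, rfl⟩
  have he0 : 0 < e := by rw [he]; linarith
  have hce : c = 2 + e := by rw [he]; ring
  refine ⟨e, e * M + ∑ w ∈ Finset.range M, ∫ s, (U (w + 1) s : ℝ) ^ 2 ∂(LL lam) +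
    (1 + 1 / (e / 2)) * (M : ℝ) ^ 2, he0, ?_, fun w => ?_⟩
  · have : 0 ≤ ∑ w ∈ Finset.range M, ∫ s, (U (w + 1) s : ℝ) ^ 2 ∂(LL lam) :=
      Finset.sum_nonneg fun w _ => integral_nonneg fun s => by positivity
    positivity
  · have hs : 0 ≤ ∑ w ∈ Finset.range M, ∫ s, (U (w + 1) s : ℝ) ^ 2 ∂(LL lam) :=
      Finset.sum_nonneg fun w _ => integral_nonneg fun s => by positivity
    have hq : 0 ≤ (1 + 1 / (e / 2)) * (M : ℝ) ^ 2 := by positivity
    by_cases hw : w < M
    · have h4 : ∫ s, (U (w + 1) s : ℝ) ^ 2 ∂(LL lam) ≤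
          ∑ w ∈ Finset.range M, ∫ s, (U (w + 1) s : ℝ) ^ 2 ∂(LL lam) :=
        Finset.single_le_sum (f := fun w => ∫ s, (U (w + 1) s : ℝ) ^ 2 ∂(LL lam))
          (fun w _ => integral_nonneg fun s => by positivity) (Finset.mem_range.2 hw)
      have h5 : e * w ≤ e * M := by
        have : (w : ℝ) ≤ M := by exact_mod_cast hw.le
        exact mul_le_mul_of_nonneg_left this he0.le
      nlinarith [sq_nonneg (w : ℝ)]
    · have h6 := bound hMix hQ hM hMean hM2 lam h hp (M := M) (m := w + 1) (by omega)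
        (show 0 < e / 2 by positivity) hc
      have h7 := compare hMix hQ hM hMean lam h hp M (w + 1)
      refine h7.trans (h6.trans ?_)
      rw [hce]
      push_cast
      have h8 : 0 ≤ e * (M : ℝ) := by positivity
      nlinarith [h8, hs]

end Pool.Agent.N276.BE
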